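import Mathlib

/-!
# Random-access machines on graphs given by adjacency lists
-/

namespace Pool.Agent.TS

open Classical in
/-- The adjacency list of the vertex `v` of the graph `G`: the neighbours of `v` in increasing
order. -/
noncomputable def adjList {n : ℕ} (G : SimpleGraph (Fin n)) (v : Fin n) : List (Fin n) :=
  (Finset.univ.filter fun u => G.Adj v u).sort (· ≤ ·)

/-- The questions that a machine may ask about the input graph: which vertex is entry `k` of the
adjacency list of `v` (entries are numbered from `0`), and are `u` and `v` adjacent. -/
inductive Query (n : ℕ) : Type
  | entry (v : Fin n) (k : ℕ) : Query n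
  | pair (u v : Fin n) : Query n

open Classical in
/-- The answer to a question. -/
noncomputable def answer {n : ℕ} (G : SimpleGraph (Fin n)) : Query n → Option (Fin n)
  | .entry v k => (adjList G v)[k]?
  | .pair u v => if G.Adj u v then some v else none

/-- A nondeterministic, nonuniform random-access machine with memory states in `Q` for graphs on
`Fin n`. At time `i` in state `x` it asks the question `ask i x`; `next i x a` is the set of
possible next states when the answer is `a`. -/
structure Machine (n : ℕ) (Q : Type) where
  start : Set Q
  ask : ℕ → Q → Query n
  next : ℕ → Q → Option (Fin n) → Set Q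
  acc : Set Q

/-- Some computation of at most `T` steps on `G` ends in an accepting state. -/
def Machine.Accepts {n : ℕ} {Q : Type} (M : Machine n Q) (T : ℕ) (G : SimpleGraph (Fin n)) :
    Prop :=
  ∃ t ≤ T, ∃ p : ℕ → Q, p 0 ∈ M.start ∧
    (∀ i < t, p (i + 1) ∈ M.next i (p i) (answer G (M.ask i (p i)))) ∧ p t ∈ M.acc

end Pool.Agent.TS
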