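import Mathlib

/-!
# Choosing a colouring of the time segments
-/

namespace Pool.Agent.TS

open Finset

variable {I B : Type} [Fintype I] [Fintype B] [DecidableEq I] [DecidableEq B] {r : ℕ}

/-- The number of colourings compatible with the pair of edges `p`, `p'`. -/
lemma card_colourings (SX SY : Finset (Fin r)) :
    (2 : ℝ) ^ r * ((1 / 2 : ℝ) ^ (SX.card + SY.card) - (if Disjoint SX SY then 0 else 1)) ≤
    ((Finset.univ.filter fun χ : Fin r → Bool =>
      (∀ j ∈ SX, χ j = true) ∧ ∀ j ∈ SY, χ j = false).card : ℝ) := by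
  split_ifs with hd
  · have h1 : (Finset.univ.filter fun χ : Fin r → Bool =>
        (∀ j ∈ SX, χ j = true) ∧ ∀ j ∈ SY, χ j = false) =
        Fintype.piFinset fun j => (Finset.univ.filter fun x : Bool =>
          (j ∈ SX → x = true) ∧ (j ∈ SY → x = false)) := by
      ext χ
      simp only [Finset.mem_filter, Finset.mem_univ, true_and, Fintype.mem_piFinset]
      exact ⟨fun h j => ⟨h.1 j, h.2 j⟩, fun h => ⟨fun j => (h j).1, fun j => (h j).2⟩⟩
    rw [h1, Fintype.card_piFinset]
    push_cast
    have h2 : ∀ j : Fin r, (((Finset.univ.filter fun x : Bool =>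
        (j ∈ SX → x = true) ∧ (j ∈ SY → x = false)).card : ℕ) : ℝ) =
        2 * ((if j ∈ SX then (1 / 2 : ℝ) else 1) * (if j ∈ SY then (1 / 2 : ℝ) else 1)) := by
      intro j
      by_cases hX : j ∈ SX
      · have hY : j ∉ SY := fun h => (Finset.disjoint_left.1 hd hX) h
        simp [hX, hY]
        rfl
      · by_cases hY : j ∈ SY
        · simp [hX, hY]
          rfl
        · simp [hX, hY]
    simp_rw [h2]
    rw [Finset.prod_mul_distrib, Finset.prod_mul_distrib]
    simp [pow_add]
  · refine le_trans ?_ (Nat.cast_nonneg _)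
    apply mul_nonpos_of_nonneg_of_nonpos (by positivity)
    rw [sub_nonpos]
    exact pow_le_one₀ (by norm_num) (by norm_num)

lemma half_pow_ge (h : ℝ) (hh : 1 ≤ h) (x : ℕ) :
    (1 / h) * (1 - (x - Real.logb 2 h) * Real.log 2) ≤ (1 / 2 : ℝ) ^ x := by
  have h0 : 0 < h := by linarith
  have h1 : (1 / 2 : ℝ) ^ x = (1 / h) * Real.exp (-((x - Real.logb 2 h) * Real.log 2)) := by
    have h2 : Real.logb 2 h * Real.log 2 = Real.log h := by
      rw [Real.logb, div_mul_cancel₀]
      exact (Real.log_pos (by norm_num)).ne'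
    have h3 : -((x - Real.logb 2 h) * Real.log 2) = Real.log h - x * Real.log 2 := by
      rw [← h2]; ring
    rw [h3, Real.exp_sub, Real.exp_log h0, ← Real.log_pow, Real.exp_log (by positivity)]
    rw [one_div_pow]
    field_simp
  rw [h1]
  apply mul_le_mul_of_nonneg_left _ (by positivity)
  have := Real.add_one_le_exp (-((x - Real.logb 2 h) * Real.log 2))
  linarith

/-- There is a colouring of the segments with many good pairs. -/
lemma exists_colouring (hX hY : Fin r → Finset (I × B)) (h : ℝ) (hh : 1 ≤ h)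
    (htot : ((∑ j, ((hX j).card + (hY j).card) : ℕ) : ℝ) ≤
      Fintype.card I * Fintype.card B * Real.logb 2 h)
    (hpair : ((∑ j, (hX j).card * (hY j).card : ℕ) : ℝ) ≤
      Fintype.card I * (Fintype.card B) ^ 2 / (2 * h)) :
    ∃ χ : Fin r → Bool, (Fintype.card I * (Fintype.card B) ^ 2 / (2 * h) : ℝ) ≤
      ∑ i, ((Finset.univ.filter fun b => ∀ j, (i, b) ∈ hX j → χ j = true).card : ℝ) *
        ((Finset.univ.filter fun b => ∀ j, (i, b) ∈ hY j → χ j = false).card : ℝ) := by
  classical
  by_contra hcon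
  push Not at hcon
  have h0 : 0 < h := by linarith
  -- sum over all colourings
  have hsum : (2 : ℝ) ^ r * (Fintype.card I * (Fintype.card B) ^ 2 / (2 * h)) ≤
      ∑ χ : Fin r → Bool, ∑ i, ((Finset.univ.filter fun b =>
        ∀ j, (i, b) ∈ hX j → χ j = true).card : ℝ) *
        ((Finset.univ.filter fun b => ∀ j, (i, b) ∈ hY j → χ j = false).card : ℝ) := by
    set SX : I → B → Finset (Fin r) := fun i b => Finset.univ.filter fun j => (i, b) ∈ hX j
      with hSX
    set SY : I → B → Finset (Fin r) := fun i b => Finset.univ.filter fun j => (i, b) ∈ hY j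
      with hSY
    have hexp : ∀ χ : Fin r → Bool, ∀ i, ((Finset.univ.filter fun b =>
        ∀ j, (i, b) ∈ hX j → χ j = true).card : ℝ) *
        ((Finset.univ.filter fun b => ∀ j, (i, b) ∈ hY j → χ j = false).card : ℝ) =
        ∑ b, ∑ c, if (∀ j ∈ SX i b, χ j = true) ∧ (∀ j ∈ SY i c, χ j = false) then (1 : ℝ)
          else 0 := by
      intro χ i
      rw [Finset.card_filter, Finset.card_filter]
      push_cast
      rw [Finset.sum_mul_sum]
      refine Finset.sum_congr rfl fun b _ => Finset.sum_congr rfl fun c _ => ?_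
      simp only [hSX, hSY, Finset.mem_filter, Finset.mem_univ, true_and]
      have hPQ : ∀ (P Q : Prop) [Decidable P] [Decidable Q],
          (if P then (1 : ℝ) else 0) * (if Q then 1 else 0) = if P ∧ Q then 1 else 0 := by
        intro P Q _ _
        by_cases hP : P <;> by_cases hQ : Q <;> simp [hP, hQ]
      rw [hPQ]
    simp_rw [hexp]
    rw [Finset.sum_comm]
    have hswap : ∀ i, ∑ χ : Fin r → Bool, ∑ b, ∑ c,
        (if (∀ j ∈ SX i b, χ j = true) ∧ (∀ j ∈ SY i c, χ j = false) then (1 : ℝ) else 0) =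
        ∑ b, ∑ c, ((Finset.univ.filter fun χ : Fin r → Bool =>
          (∀ j ∈ SX i b, χ j = true) ∧ ∀ j ∈ SY i c, χ j = false).card : ℝ) := by
      intro i
      rw [Finset.sum_comm]
      refine Finset.sum_congr rfl fun b _ => ?_
      rw [Finset.sum_comm]
      refine Finset.sum_congr rfl fun c _ => ?_
      rw [Finset.card_filter]
      push_cast
      rfl
    simp_rw [hswap]
    have hlow : ∑ i, ∑ b, ∑ c, (2 : ℝ) ^ r * ((1 / 2 : ℝ) ^ ((SX i b).card + (SY i c).card) -
        (if Disjoint (SX i b) (SY i c) then 0 else 1)) ≤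
        ∑ i, ∑ b, ∑ c, ((Finset.univ.filter fun χ : Fin r → Bool =>
          (∀ j ∈ SX i b, χ j = true) ∧ ∀ j ∈ SY i c, χ j = false).card : ℝ) :=
      Finset.sum_le_sum fun i _ => Finset.sum_le_sum fun b _ => Finset.sum_le_sum fun c _ =>
        card_colourings _ _
    refine le_trans ?_ hlow
    simp_rw [← Finset.mul_sum]
    apply mul_le_mul_of_nonneg_left _ (by positivity)
    -- the main part
    have hcX : ∑ i, ∑ b, ((SX i b).card : ℝ) = ∑ j, ((hX j).card : ℝ) := by
      rw [← Fintype.sum_prod_type' (f := fun i b => ((SX i b).card : ℝ))]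
      have : ∀ p : I × B, ((SX p.1 p.2).card : ℝ) = ∑ j, if p ∈ hX j then (1 : ℝ) else 0 := by
        intro p
        simp only [hSX, Finset.card_filter]
        push_cast
        rfl
      simp_rw [this]
      rw [Finset.sum_comm]
      refine Finset.sum_congr rfl fun j _ => ?_
      simp
    have hcY : ∑ i, ∑ b, ((SY i b).card : ℝ) = ∑ j, ((hY j).card : ℝ) := by
      rw [← Fintype.sum_prod_type' (f := fun i b => ((SY i b).card : ℝ))]
      have : ∀ p : I × B, ((SY p.1 p.2).card : ℝ) = ∑ j, if p ∈ hY j then (1 : ℝ) else 0 := by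
        intro p
        simp only [hSY, Finset.card_filter]
        push_cast
        rfl
      simp_rw [this]
      rw [Finset.sum_comm]
      refine Finset.sum_congr rfl fun j _ => ?_
      simp
    have hmain : (Fintype.card I * (Fintype.card B) ^ 2 / h : ℝ) ≤
        ∑ i, ∑ b, ∑ c, (1 / 2 : ℝ) ^ ((SX i b).card + (SY i c).card) := by
      have h1 : ∑ i : I, ∑ b : B, ∑ c : B, (1 / h) * (1 - ((((SX i b).card + (SY i c).card : ℕ) : ℝ)
          - Real.logb 2 h) * Real.log 2) ≤
          ∑ i, ∑ b, ∑ c, (1 / 2 : ℝ) ^ ((SX i b).card + (SY i c).card) :=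
        Finset.sum_le_sum fun i _ => Finset.sum_le_sum fun b _ => Finset.sum_le_sum fun c _ =>
          half_pow_ge h hh _
      refine le_trans (le_of_eq ?_ |>.trans (?_ : (Fintype.card I * (Fintype.card B) ^ 2 / h +
        (1 / h) * Real.log 2 * (Fintype.card B) * (Fintype.card I * Fintype.card B *
          Real.logb 2 h - ((∑ j, ((hX j).card + (hY j).card) : ℕ) : ℝ)) : ℝ) -
        (1 / h) * Real.log 2 * (Fintype.card B) * (Fintype.card I * Fintype.card B *
          Real.logb 2 h - ((∑ j, ((hX j).card + (hY j).card) : ℕ) : ℝ)) ≤ _)) h1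
      · ring
      · have h2 : ∑ i : I, ∑ b : B, ∑ c : B, (1 / h) *
            (1 - ((((SX i b).card + (SY i c).card : ℕ) : ℝ) - Real.logb 2 h) * Real.log 2) =
            (Fintype.card I * (Fintype.card B) ^ 2 / h +
              (1 / h) * Real.log 2 * (Fintype.card B) * (Fintype.card I * Fintype.card B *
              Real.logb 2 h - ((∑ j, ((hX j).card + (hY j).card) : ℕ) : ℝ)) : ℝ) := by
          have h3 : ∀ (i : I) (b c : B), (1 / h) *
            (1 - ((((SX i b).card + (SY i c).card : ℕ) : ℝ) - Real.logb 2 h) * Real.log 2) =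
            (1 / h) * (1 + Real.logb 2 h * Real.log 2) - (1 / h) * Real.log 2 * (SX i b).card -
              (1 / h) * Real.log 2 * (SY i c).card := by
            intro i b c
            push_cast
            ring
          simp_rw [h3, Finset.sum_sub_distrib, Finset.sum_const, Finset.card_univ, nsmul_eq_mul,
            ← Finset.mul_sum]
          push_cast
          rw [hcX, hcY, Finset.sum_add_distrib]
          field_simp
          ring
        rw [h2]
        have h4 : (0 : ℝ) ≤ (1 / h) * Real.log 2 * (Fintype.card B) * (Fintype.card I *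
            Fintype.card B * Real.logb 2 h - ((∑ j, ((hX j).card + (hY j).card) : ℕ) : ℝ)) := by
          apply mul_nonneg
          · have := Real.log_pos (show (1 : ℝ) < 2 by norm_num)
            positivity
          · linarith
        linarith
    have hbad : ∑ i, ∑ b, ∑ c, (if Disjoint (SX i b) (SY i c) then (0 : ℝ) else 1) ≤
        Fintype.card I * (Fintype.card B) ^ 2 / (2 * h) := by
      refine le_trans ?_ hpair
      push_cast
      have h1 : ∀ i b c, (if Disjoint (SX i b) (SY i c) then (0 : ℝ) else 1) ≤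
          ∑ j, (if (i, b) ∈ hX j then (1 : ℝ) else 0) * (if (i, c) ∈ hY j then (1 : ℝ) else 0) := by
        intro i b c
        split_ifs with hd
        · exact Finset.sum_nonneg fun j _ => by positivity
        · rw [Finset.not_disjoint_iff] at hd
          obtain ⟨j, hj1, hj2⟩ := hd
          simp only [hSX, hSY, Finset.mem_filter, Finset.mem_univ, true_and] at hj1 hj2
          refine le_trans ?_ (Finset.single_le_sum (f := fun j =>
            (if (i, b) ∈ hX j then (1 : ℝ) else 0) * (if (i, c) ∈ hY j then (1 : ℝ) else 0))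
            (fun j _ => by positivity) (Finset.mem_univ j))
          simp [hj1, hj2]
      refine (Finset.sum_le_sum fun i _ => Finset.sum_le_sum fun b _ => Finset.sum_le_sum fun c _ =>
        h1 i b c).trans ?_
      have h2 : ∑ i, ∑ b, ∑ c, ∑ j, (if (i, b) ∈ hX j then (1 : ℝ) else 0) *
          (if (i, c) ∈ hY j then (1 : ℝ) else 0) =
          ∑ j, ∑ i, (∑ b, if (i, b) ∈ hX j then (1 : ℝ) else 0) *
            (∑ c, if (i, c) ∈ hY j then (1 : ℝ) else 0) := by
        rw [Finset.sum_comm]
        rw [← Finset.sum_comm]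
        have : ∀ i, ∑ b, ∑ c, ∑ j, (if (i, b) ∈ hX j then (1 : ℝ) else 0) *
            (if (i, c) ∈ hY j then (1 : ℝ) else 0) =
            ∑ j, (∑ b, if (i, b) ∈ hX j then (1 : ℝ) else 0) *
            (∑ c, if (i, c) ∈ hY j then (1 : ℝ) else 0) := by
          intro i
          simp_rw [Finset.sum_mul_sum]
          rw [Finset.sum_comm (s := (Finset.univ : Finset (Fin r)))
            (t := (Finset.univ : Finset B))]
          refine Finset.sum_congr rfl fun b _ => ?_
          rw [Finset.sum_comm]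
        simp_rw [this]
        rw [Finset.sum_comm]
      rw [h2]
      refine Finset.sum_le_sum fun j _ => ?_
      have hXj : ((hX j).card : ℝ) = ∑ i, ∑ b, if (i, b) ∈ hX j then (1 : ℝ) else 0 := by
        rw [← Fintype.sum_prod_type' (f := fun i b => if (i, b) ∈ hX j then (1 : ℝ) else 0)]
        simp
      have hYj : ((hY j).card : ℝ) = ∑ i, ∑ b, if (i, b) ∈ hY j then (1 : ℝ) else 0 := by
        rw [← Fintype.sum_prod_type' (f := fun i b => if (i, b) ∈ hY j then (1 : ℝ) else 0)]
        simp
      rw [hXj, hYj]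
      rw [Finset.sum_mul]
      refine Finset.sum_le_sum fun i _ => ?_
      apply mul_le_mul_of_nonneg_left
      · exact Finset.single_le_sum (f := fun i => ∑ c, if (i, c) ∈ hY j then (1 : ℝ) else 0)
          (fun i _ => Finset.sum_nonneg fun c _ => by positivity) (Finset.mem_univ i)
      · exact Finset.sum_nonneg fun b _ => by positivity
    simp_rw [Finset.sum_sub_distrib]
    have h5 : (Fintype.card I * (Fintype.card B) ^ 2 / (2 * h) : ℝ) =
        Fintype.card I * (Fintype.card B) ^ 2 / h -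
          Fintype.card I * (Fintype.card B) ^ 2 / (2 * h) := by
      field_simp
      ring
    rw [h5]
    linarith
  have hlt := Finset.sum_lt_sum_of_nonempty (s := (Finset.univ : Finset (Fin r → Bool)))
    Finset.univ_nonempty (fun χ _ => hcon χ)
  rw [Finset.sum_const, Finset.card_univ, nsmul_eq_mul] at hlt
  simp only [Fintype.card_fun, Fintype.card_bool, Fintype.card_fin] at hlt
  push_cast at hlt
  linarith

/-- `F` consists of exactly `d'` edges at each of the `n'` centres in `C`. -/
def Regular (n' d' : ℕ) (C : Finset I) (F : Finset (I × B)) : Prop :=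
  C.card = n' ∧ (∀ p ∈ F, p.1 ∈ C) ∧ ∀ i ∈ C, (Finset.univ.filter fun b => (i, b) ∈ F).card = d'

omit [Fintype I] in
lemma Regular.card {n' d' : ℕ} {C : Finset I} {F : Finset (I × B)} (hF : Regular n' d' C F) :
    F.card = n' * d' := by
  classical
  rw [Finset.card_eq_sum_card_fiberwise (f := Prod.fst) (s := F) (t := C)
    (fun p hp => hF.2.1 p hp)]
  have h1 : ∀ i ∈ C, (F.filter fun p => p.1 = i).card = d' := by
    intro i hi
    rw [← hF.2.2 i hi]
    refine Finset.card_bij (fun p _ => p.2) ?_ ?_ ?_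
    · rintro ⟨i', b⟩ hp
      rw [Finset.mem_filter] at hp
      obtain ⟨hp1, rfl⟩ := hp
      simpa using hp1
    · rintro ⟨i', b⟩ hp ⟨i'', b'⟩ hp' hbb
      rw [Finset.mem_filter] at hp hp'
      obtain ⟨_, rfl⟩ := hp
      obtain ⟨_, h2⟩ := hp'
      exact Prod.ext h2.symm hbb
    · intro b hb
      refine ⟨(i, b), ?_, rfl⟩
      simpa using hb
  rw [Finset.sum_congr rfl h1, Finset.sum_const, hF.1, smul_eq_mul]

lemma exists_selection (hX hY : Fin r → Finset (I × B)) (h : ℝ) (hh : 1 ≤ h)
    (hB : 0 < Fintype.card B)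
    (htot : ((∑ j, ((hX j).card + (hY j).card) : ℕ) : ℝ) ≤
      Fintype.card I * Fintype.card B * Real.logb 2 h)
    (hpair : ((∑ j, (hX j).card * (hY j).card : ℕ) : ℝ) ≤
      Fintype.card I * (Fintype.card B) ^ 2 / (2 * h)) :
    ∃ (χ : Fin r → Bool) (C : Finset I) (F1 F2 : Finset (I × B)),
      Regular ⌈(Fintype.card I : ℝ) / (4 * h)⌉₊ ⌈(Fintype.card B : ℝ) / (4 * h)⌉₊ C F1 ∧
      Regular ⌈(Fintype.card I : ℝ) / (4 * h)⌉₊ ⌈(Fintype.card B : ℝ) / (4 * h)⌉₊ C F2 ∧
      (∀ p ∈ F1, ∀ j, p ∈ hX j → χ j = true) ∧ (∀ p ∈ F2, ∀ j, p ∈ hY j → χ j = false) := by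
  classical
  obtain ⟨χ, hχ⟩ := exists_colouring hX hY h hh htot hpair
  have h0 : 0 < h := by linarith
  set u1 : I → Finset B := fun i => Finset.univ.filter fun b => ∀ j, (i, b) ∈ hX j → χ j = true
    with hu1
  set u2 : I → Finset B := fun i => Finset.univ.filter fun b => ∀ j, (i, b) ∈ hY j → χ j = false
    with hu2
  set d : ℝ := (Fintype.card B : ℝ) with hd
  have hd0 : 0 < d := by rw [hd]; exact_mod_cast hB
  have hu1d : ∀ i, ((u1 i).card : ℝ) ≤ d := fun i => by
    rw [hd]; exact_mod_cast Finset.card_le_univ _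
  have hu2d : ∀ i, ((u2 i).card : ℝ) ≤ d := fun i => by
    rw [hd]; exact_mod_cast Finset.card_le_univ _
  set C0 : Finset I := Finset.univ.filter fun i =>
    d ^ 2 / (4 * h) ≤ ((u1 i).card : ℝ) * (u2 i).card with hC0
  have hC0card : (Fintype.card I : ℝ) / (4 * h) ≤ C0.card := by
    have h1 : ∑ i, ((u1 i).card : ℝ) * (u2 i).card ≤
        ∑ i, ((if i ∈ C0 then d ^ 2 else 0) + d ^ 2 / (4 * h)) := by
      refine Finset.sum_le_sum fun i _ => ?_
      split_ifs with hi
      · have : ((u1 i).card : ℝ) * (u2 i).card ≤ d * d :=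
          mul_le_mul (hu1d i) (hu2d i) (by positivity) hd0.le
        have h2 : 0 ≤ d ^ 2 / (4 * h) := by positivity
        nlinarith
      · rw [hC0, Finset.mem_filter] at hi
        push Not at hi
        have := hi (Finset.mem_univ _)
        linarith
    rw [Finset.sum_add_distrib, Finset.sum_const, Finset.card_univ, nsmul_eq_mul] at h1
    have h2 : ∑ i, (if i ∈ C0 then d ^ 2 else 0) = C0.card * d ^ 2 := by
      rw [Finset.sum_ite_mem, Finset.univ_inter, Finset.sum_const, nsmul_eq_mul]
    rw [h2] at h1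
    have h3 := hχ.trans h1
    have h4 : (Fintype.card I : ℝ) * d ^ 2 / (2 * h) = (Fintype.card I : ℝ) / (4 * h) * d ^ 2 +
        (Fintype.card I : ℝ) * (d ^ 2 / (4 * h)) := by
      field_simp
      ring
    rw [h4] at h3
    have h5 : (Fintype.card I : ℝ) / (4 * h) * d ^ 2 ≤ C0.card * d ^ 2 := by linarith
    exact le_of_mul_le_mul_right h5 (by positivity)
  obtain ⟨C, hCC0, hCcard⟩ := Finset.exists_subset_card_eq (Nat.ceil_le.2 hC0card)
  have hs1 : ∀ i ∈ C, ∃ s ⊆ u1 i, s.card = ⌈d / (4 * h)⌉₊ := by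
    intro i hi
    apply Finset.exists_subset_card_eq
    apply Nat.ceil_le.2
    have h1 := (Finset.mem_filter.1 (hCC0 hi)).2
    have h2 : ((u1 i).card : ℝ) * (u2 i).card ≤ (u1 i).card * d :=
      mul_le_mul_of_nonneg_left (hu2d i) (by positivity)
    have h3 : d / (4 * h) * d ≤ (u1 i).card * d := by
      calc d / (4 * h) * d = d ^ 2 / (4 * h) := by ring
        _ ≤ _ := h1
        _ ≤ _ := h2
    exact le_of_mul_le_mul_right h3 hd0
  have hs2 : ∀ i ∈ C, ∃ s ⊆ u2 i, s.card = ⌈d / (4 * h)⌉₊ := by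
    intro i hi
    apply Finset.exists_subset_card_eq
    apply Nat.ceil_le.2
    have h1 := (Finset.mem_filter.1 (hCC0 hi)).2
    have h2 : ((u1 i).card : ℝ) * (u2 i).card ≤ d * (u2 i).card :=
      mul_le_mul_of_nonneg_right (hu1d i) (by positivity)
    have h3 : d * (d / (4 * h)) ≤ d * (u2 i).card := by
      calc d * (d / (4 * h)) = d ^ 2 / (4 * h) := by ring
        _ ≤ _ := h1
        _ ≤ _ := h2
    exact le_of_mul_le_mul_left h3 hd0
  choose! s1 hs1s hs1c using hs1
  choose! s2 hs2s hs2c using hs2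
  refine ⟨χ, C, Finset.univ.filter fun p => p.1 ∈ C ∧ p.2 ∈ s1 p.1,
    Finset.univ.filter fun p => p.1 ∈ C ∧ p.2 ∈ s2 p.1, ⟨hCcard, ?_, ?_⟩, ⟨hCcard, ?_, ?_⟩, ?_, ?_⟩
  · intro p hp; exact (Finset.mem_filter.1 hp).2.1
  · intro i hi
    rw [← hs1c i hi]
    congr 1
    ext b
    simp [hi]
  · intro p hp; exact (Finset.mem_filter.1 hp).2.1
  · intro i hi
    rw [← hs2c i hi]
    congr 1
    ext b
    simp [hi]
  · intro p hp j hj
    have hp' := (Finset.mem_filter.1 hp).2
    exact (Finset.mem_filter.1 (hs1s p.1 hp'.1 hp'.2)).2 j hj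
  · intro p hp j hj
    have hp' := (Finset.mem_filter.1 hp).2
    exact (Finset.mem_filter.1 (hs2s p.1 hp'.1 hp'.2)).2 j hj

end Pool.Agent.TS
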