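import Mathlib
import Pool.Agent.Lib_helper21.TS.Select

/-!
# Rectangles of triangle-free inputs are small
-/

namespace Pool.Agent.TS

open Finset Equiv

variable {J B U : Type} [Fintype J] [Fintype B] [Fintype U] [DecidableEq J] [DecidableEq B]
  [DecidableEq U]

/-- Families of permutations moving only the entries in `F`. -/
def Gam (F : Finset ((J × U) × B)) : Finset (J × B → Perm U) :=
  Fintype.piFinset fun κ => Finset.univ.filter fun g : Perm U =>
    ∀ u, ((κ.1, u), κ.2) ∉ F → g u = u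

/-- The number of entries of the permutation `κ` in `F`. -/
def cnt (F : Finset ((J × U) × B)) (κ : J × B) : ℕ :=
  (Finset.univ.filter fun u => ((κ.1, u), κ.2) ∈ F).card

omit [Fintype J] [Fintype B] in
lemma card_perm_fix (P : Finset U) :
    (Finset.univ.filter fun g : Perm U => ∀ u, u ∉ P → g u = u).card = P.card.factorial := by
  have h1 := Fintype.card_congr (Equiv.Perm.subtypeEquivSubtypePerm (fun u : U => u ∈ P))
  rw [Fintype.card_perm, Fintype.card_coe] at h1
  rw [h1, Fintype.card_subtype]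

lemma card_Gam (F : Finset ((J × U) × B)) :
    (Gam F).card = ∏ κ, (cnt F κ).factorial := by
  rw [Gam, Fintype.card_piFinset]
  refine Finset.prod_congr rfl fun κ _ => ?_
  rw [cnt, ← card_perm_fix]
  congr 1
  ext g
  simp

lemma mem_Gam {F : Finset ((J × U) × B)} {g : J × B → Perm U} :
    g ∈ Gam F ↔ ∀ j b u, ((j, u), b) ∉ F → g (j, b) u = u := by
  simp only [Gam, Fintype.mem_piFinset, Finset.mem_filter, Finset.mem_univ, true_and]
  exact ⟨fun h j b u hu => h (j, b) u hu, fun h κ u hu => h κ.1 κ.2 u hu⟩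

omit [Fintype J] [Fintype B] [DecidableEq J] [DecidableEq B] in
/-- Possible values of an entry. -/
def vals (π : J × B → Perm U) (S : Finset (J × B → Perm U)) (p : (J × U) × B) : Finset U :=
  S.image fun g => π (p.1.1, p.2) (g (p.1.1, p.2) p.1.2)

lemma card_le_prod_vals (π : J × B → Perm U) (F : Finset ((J × U) × B))
    (S : Finset (J × B → Perm U)) (hS : S ⊆ Gam F) :
    S.card ≤ ∏ p ∈ F, (vals π S p).card := by
  have h1 : S.card ≤ (Fintype.piFinset fun p : (J × U) × B =>
      if p ∈ F then vals π S p else {π (p.1.1, p.2) p.1.2}).card := by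
    refine Finset.card_le_card_of_injOn
      (fun g p => π (p.1.1, p.2) (g (p.1.1, p.2) p.1.2)) ?_ ?_
    · intro g hg
      rw [Finset.mem_coe, Fintype.mem_piFinset]
      intro p
      split_ifs with hp
      · exact Finset.mem_image_of_mem _ hg
      · rw [Finset.mem_singleton]
        have := mem_Gam.1 (hS hg) p.1.1 p.2 p.1.2 hp
        change π (p.1.1, p.2) (g (p.1.1, p.2) p.1.2) = _
        rw [this]
    · intro g _ g' _ h
      funext κ
      ext u
      have := congrFun h ((κ.1, u), κ.2)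
      exact (π (κ.1, κ.2)).injective this
  rw [Fintype.card_piFinset] at h1
  refine h1.trans (le_of_eq ?_)
  rw [← Finset.prod_subset (Finset.subset_univ F)]
  · refine Finset.prod_congr rfl fun p hp => ?_
    rw [if_pos hp]
  · intro p _ hp
    rw [if_neg hp, Finset.card_singleton]

lemma vals_card_le (π : J × B → Perm U) (F : Finset ((J × U) × B))
    (S : Finset (J × B → Perm U)) (hS : S ⊆ Gam F) (p : (J × U) × B) (hp : p ∈ F) :
    (vals π S p).card ≤ cnt F (p.1.1, p.2) := by
  rw [vals, cnt]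
  have : S.image (fun g => π (p.1.1, p.2) (g (p.1.1, p.2) p.1.2)) ⊆
      (Finset.univ.filter fun u => ((p.1.1, u), p.2) ∈ F).image (π (p.1.1, p.2)) := by
    intro v hv
    rw [Finset.mem_image] at hv
    obtain ⟨g, hg, rfl⟩ := hv
    refine Finset.mem_image_of_mem _ ?_
    rw [Finset.mem_filter]
    refine ⟨Finset.mem_univ _, ?_⟩
    by_contra hcon
    have h1 := mem_Gam.1 (hS hg) p.1.1 p.2 _ hcon
    have h2 := (g (p.1.1, p.2)).injective h1
    rw [h2] at hcon
    exact hcon hp
  exact (Finset.card_le_card this).trans Finset.card_image_le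

lemma pow_le_exp_mul_factorial (p : ℕ) : (p : ℝ) ^ p ≤ Real.exp p * p.factorial := by
  have h := Real.pow_div_factorial_le_exp (p : ℝ) (Nat.cast_nonneg _) p
  rwa [div_le_iff₀ (by positivity)] at h

lemma prod_cnt_le (F : Finset ((J × U) × B)) :
    ∏ p ∈ F, (cnt F (p.1.1, p.2) : ℝ) ≤ Real.exp F.card * (Gam F).card := by
  have h1 : ∏ p ∈ F, (cnt F (p.1.1, p.2) : ℝ) = ∏ κ : J × B, (cnt F κ : ℝ) ^ (cnt F κ) := by
    rw [← Finset.prod_fiberwise_of_maps_to (s := F) (t := Finset.univ)
      (g := fun p => (p.1.1, p.2)) (fun _ _ => Finset.mem_univ _)]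
    refine Finset.prod_congr rfl fun κ _ => ?_
    rw [Finset.prod_congr rfl (g := fun _ => (cnt F κ : ℝ))]
    · rw [Finset.prod_const]
      congr 1
      rw [cnt]
      refine Finset.card_bij (fun p _ => p.1.2) ?_ ?_ ?_
      · rintro ⟨⟨j, u⟩, b⟩ hp
        rw [Finset.mem_filter] at hp
        obtain ⟨hp1, rfl⟩ := hp
        simpa using hp1
      · rintro ⟨⟨j, u⟩, b⟩ hp ⟨⟨j', u'⟩, b'⟩ hp' huu
        rw [Finset.mem_filter] at hp hp'
        obtain ⟨_, rfl⟩ := hp
        obtain ⟨_, h2⟩ := hp'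
        simp only [Prod.mk.injEq] at h2
        obtain ⟨rfl, rfl⟩ := h2
        simp only at huu
        rw [huu]
      · intro u hu
        exact ⟨((κ.1, u), κ.2), by simpa using hu, rfl⟩
    · intro p hp
      rw [Finset.mem_filter] at hp
      rw [hp.2]
  have h2 : (F.card : ℝ) = ∑ κ : J × B, (cnt F κ : ℝ) := by
    rw [Finset.card_eq_sum_card_fiberwise (s := F) (t := Finset.univ)
      (f := fun p => (p.1.1, p.2)) (fun _ _ => Finset.mem_univ _)]
    push_cast
    refine Finset.sum_congr rfl fun κ _ => ?_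
    rw [cnt]
    norm_cast
    refine Finset.card_bij (fun p _ => p.1.2) ?_ ?_ ?_
    · rintro ⟨⟨j, u⟩, b⟩ hp
      rw [Finset.mem_filter] at hp
      obtain ⟨hp1, rfl⟩ := hp
      simpa using hp1
    · rintro ⟨⟨j, u⟩, b⟩ hp ⟨⟨j', u'⟩, b'⟩ hp' huu
      rw [Finset.mem_filter] at hp hp'
      obtain ⟨_, rfl⟩ := hp
      obtain ⟨_, h2⟩ := hp'
      simp only [Prod.mk.injEq] at h2
      obtain ⟨rfl, rfl⟩ := h2
      simp only at huu
      rw [huu]
    · intro u hu
      exact ⟨((κ.1, u), κ.2), by simpa using hu, rfl⟩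
  rw [h1, card_Gam, h2, Real.exp_sum]
  push_cast
  rw [← Finset.prod_mul_distrib]
  exact Finset.prod_le_prod (fun κ _ => by positivity) fun κ _ => pow_le_exp_mul_factorial _

lemma prod_le_pow_of_sum_le {ι : Type} (s : Finset ι) (a : ι → ℝ) (ha : ∀ i ∈ s, 0 ≤ a i)
    (A : ℝ) (hA : 0 < A) (hsum : ∑ i ∈ s, a i ≤ s.card * A) :
    ∏ i ∈ s, a i ≤ A ^ s.card := by
  have h1 : ∏ i ∈ s, a i ≤ ∏ i ∈ s, (A * Real.exp (a i / A - 1)) := by
    refine Finset.prod_le_prod ha fun i hi => ?_
    have h2 := Real.add_one_le_exp (a i / A - 1)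
    have h3 : a i = A * ((a i / A - 1) + 1) := by field_simp; ring
    calc a i = A * ((a i / A - 1) + 1) := h3
      _ ≤ _ := mul_le_mul_of_nonneg_left h2 hA.le
  refine h1.trans ?_
  rw [Finset.prod_mul_distrib, Finset.prod_const, ← Real.exp_sum, Finset.sum_sub_distrib,
    ← Finset.sum_div]
  have h4 : (∑ i ∈ s, a i) / A - ∑ _i ∈ s, (1 : ℝ) ≤ 0 := by
    rw [sub_nonpos, div_le_iff₀ hA]
    simpa using hsum
  have h5 := Real.exp_le_one_iff.2 h4
  calc A ^ s.card * Real.exp ((∑ i ∈ s, a i) / A - ∑ _i ∈ s, (1 : ℝ)) ≤ A ^ s.card * 1 :=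
        mul_le_mul_of_nonneg_left h5 (by positivity)
    _ = _ := mul_one _

/-- The one-sided estimate. -/
lemma one_side (π : J × B → Perm U) (n' d' : ℕ) (C : Finset (J × U)) (F : Finset ((J × U) × B))
    (hF : Regular n' d' C F) (S : Finset (J × B → Perm U)) (hS : S ⊆ Gam F)
    (β : ℝ) (hβ : 0 < β) (C1 : Finset (J × U)) (hC1 : C1 ⊆ C) (hhalf : (n' : ℝ) / 2 ≤ C1.card)
    (hrest : ∀ i ∈ C1, ((∑ b ∈ Finset.univ.filter (fun b => (i, b) ∈ F), (vals π S (i, b)).card : ℕ)
      : ℝ) ≤ β ^ 2 * (Fintype.card B * Fintype.card U))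
    (A0 : ℝ) (hA0 : 0 < A0) (hA01 : A0 ≤ 1)
    (hbig : 2 * β * (Fintype.card J * Fintype.card U * Fintype.card B) ≤
      (n' * d' : ℝ) / 2 * A0) (hU : 0 < Fintype.card U) :
    (S.card : ℝ) ≤ Real.exp ((n' * d' : ℝ) + (n' * d' : ℝ) / 2 * Real.log A0) * (Gam F).card := by
  classical
  rcases S.eq_empty_or_nonempty with rfl | hSne
  · simp only [Finset.card_empty, Nat.cast_zero]
    positivity
  have hFcard : F.card = n' * d' := hF.card
  have hcntpos : ∀ p ∈ F, (0 : ℝ) < cnt F (p.1.1, p.2) := by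
    intro p hp
    have : 0 < cnt F (p.1.1, p.2) := by
      rw [cnt, Finset.card_pos]
      exact ⟨p.1.2, by simpa using hp⟩
    exact_mod_cast this
  set Fr := F.filter fun p => p.1 ∈ C1 with hFr
  have hFrcard : Fr.card = C1.card * d' := by
    have : Regular C1.card d' C1 Fr := by
      refine ⟨rfl, fun p hp => (Finset.mem_filter.1 hp).2, fun i hi => ?_⟩
      rw [← hF.2.2 i (hC1 hi)]
      congr 1
      ext b
      simp [hFr, hi]
    exact this.card
  -- the ratio
  have hratio : (S.card : ℝ) ≤ (∏ p ∈ F, ((vals π S p).card : ℝ) / cnt F (p.1.1, p.2)) *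
      (Real.exp F.card * (Gam F).card) := by
    have h1 : (S.card : ℝ) ≤ ∏ p ∈ F, ((vals π S p).card : ℝ) := by
      exact_mod_cast card_le_prod_vals π F S hS
    refine h1.trans ?_
    rw [Finset.prod_div_distrib, div_mul_eq_mul_div, le_div_iff₀ (Finset.prod_pos hcntpos)]
    exact mul_le_mul_of_nonneg_left (prod_cnt_le F) (Finset.prod_nonneg fun _ _ => by positivity)
  -- only the restricted entries matter
  have hFrle : ∏ p ∈ F, ((vals π S p).card : ℝ) / cnt F (p.1.1, p.2) ≤
      ∏ p ∈ Fr, ((vals π S p).card : ℝ) / cnt F (p.1.1, p.2) := by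
    rw [← Finset.prod_filter_mul_prod_filter_not F (fun p => p.1 ∈ C1)]
    calc _ ≤ (∏ p ∈ Fr, ((vals π S p).card : ℝ) / cnt F (p.1.1, p.2)) * 1 := by
          apply mul_le_mul_of_nonneg_left _ (Finset.prod_nonneg fun _ _ => by positivity)
          refine Finset.prod_le_one (fun _ _ => by positivity) fun p hp => ?_
          have hpF := (Finset.mem_filter.1 hp).1
          rw [div_le_one (hcntpos p hpF)]
          exact_mod_cast vals_card_le π F S hS p hpF
      _ = _ := mul_one _
  -- sum estimate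
  have hsum : ∑ p ∈ Fr, ((vals π S p).card : ℝ) / cnt F (p.1.1, p.2) ≤ Fr.card * A0 := by
    set w : ℝ := (Fintype.card U : ℝ) with hw
    have hw0 : 0 < w := by rw [hw]; exact_mod_cast hU
    set θ : ℝ := β * w with hθ
    have hθ0 : 0 < θ := by positivity
    have h1 : ∀ p ∈ Fr, ((vals π S p).card : ℝ) / cnt F (p.1.1, p.2) ≤
        (vals π S p).card / θ + if (cnt F (p.1.1, p.2) : ℝ) < θ then 1 else 0 := by
      intro p hp
      have hpF := (Finset.mem_filter.1 hp).1
      split_ifs with hlt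
      · have : ((vals π S p).card : ℝ) / cnt F (p.1.1, p.2) ≤ 1 := by
          rw [div_le_one (hcntpos p hpF)]
          exact_mod_cast vals_card_le π F S hS p hpF
        have h2 : (0 : ℝ) ≤ (vals π S p).card / θ := by positivity
        linarith
      · rw [add_zero]
        exact div_le_div_of_nonneg_left (by positivity) hθ0 (not_lt.1 hlt)
    refine (Finset.sum_le_sum h1).trans ?_
    rw [Finset.sum_add_distrib]
    have h2 : ∑ p ∈ Fr, ((vals π S p).card : ℝ) / θ ≤
        C1.card * (β ^ 2 * (Fintype.card B * w)) / θ := by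
      rw [← Finset.sum_div]
      apply div_le_div_of_nonneg_right _ hθ0.le
      rw [← Finset.sum_fiberwise_of_maps_to (s := Fr) (t := C1) (g := fun p => p.1)
        (fun p hp => (Finset.mem_filter.1 hp).2)]
      have h3 : ∀ i ∈ C1, ∑ p ∈ Fr.filter (fun p => p.1 = i), ((vals π S p).card : ℝ) ≤
          β ^ 2 * (Fintype.card B * w) := by
        intro i hi
        refine le_trans (le_of_eq ?_) (hrest i hi)
        push_cast
        refine Finset.sum_bij (fun p _ => p.2) ?_ ?_ ?_ ?_
        · rintro ⟨i', b⟩ hp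
          rw [Finset.mem_filter, hFr, Finset.mem_filter] at hp
          obtain ⟨⟨hp1, _⟩, rfl⟩ := hp
          simpa using hp1
        · rintro ⟨i', b⟩ hp ⟨i'', b'⟩ hp' hbb
          rw [Finset.mem_filter] at hp hp'
          obtain ⟨_, rfl⟩ := hp
          obtain ⟨_, h2⟩ := hp'
          exact Prod.ext h2.symm hbb
        · intro b hb
          refine ⟨(i, b), ?_, rfl⟩
          simp only [Finset.mem_filter, Finset.mem_univ, true_and] at hb
          simp [hFr, hb, hi]
        · rintro ⟨i', b⟩ hp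
          rw [Finset.mem_filter] at hp
          obtain ⟨_, rfl⟩ := hp
          rfl
      calc _ ≤ ∑ _i ∈ C1, β ^ 2 * (Fintype.card B * w) := Finset.sum_le_sum h3
        _ = _ := by rw [Finset.sum_const, nsmul_eq_mul]
    have h4 : ∑ p ∈ Fr, (if (cnt F (p.1.1, p.2) : ℝ) < θ then (1 : ℝ) else 0) ≤
        Fintype.card J * Fintype.card B * θ := by
      have h5 : ∑ p ∈ Fr, (if (cnt F (p.1.1, p.2) : ℝ) < θ then (1 : ℝ) else 0) ≤
          ∑ p ∈ F, (if (cnt F (p.1.1, p.2) : ℝ) < θ then (1 : ℝ) else 0) :=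
        Finset.sum_le_sum_of_subset_of_nonneg (Finset.filter_subset _ _)
          fun _ _ _ => by positivity
      refine h5.trans ?_
      rw [← Finset.sum_fiberwise_of_maps_to (s := F) (t := Finset.univ)
        (g := fun p => (p.1.1, p.2)) (fun _ _ => Finset.mem_univ _)]
      have h6 : ∀ κ : J × B, ∑ p ∈ F.filter (fun p => (p.1.1, p.2) = κ),
          (if (cnt F (p.1.1, p.2) : ℝ) < θ then (1 : ℝ) else 0) ≤ θ := by
        intro κ
        have h7 : ∑ p ∈ F.filter (fun p => (p.1.1, p.2) = κ),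
            (if (cnt F (p.1.1, p.2) : ℝ) < θ then (1 : ℝ) else 0) =
            (cnt F κ : ℝ) * (if (cnt F κ : ℝ) < θ then (1 : ℝ) else 0) := by
          rw [Finset.sum_congr rfl (g := fun _ => (if (cnt F κ : ℝ) < θ then (1 : ℝ) else 0))]
          · rw [Finset.sum_const, nsmul_eq_mul]
            congr 2
            rw [cnt]
            refine Finset.card_bij (fun p _ => p.1.2) ?_ ?_ ?_
            · rintro ⟨⟨j, u⟩, b⟩ hp
              rw [Finset.mem_filter] at hp
              obtain ⟨hp1, rfl⟩ := hp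
              simpa using hp1
            · rintro ⟨⟨j, u⟩, b⟩ hp ⟨⟨j', u'⟩, b'⟩ hp' huu
              rw [Finset.mem_filter] at hp hp'
              obtain ⟨_, rfl⟩ := hp
              obtain ⟨_, h2⟩ := hp'
              simp only [Prod.mk.injEq] at h2
              obtain ⟨rfl, rfl⟩ := h2
              simp only at huu
              rw [huu]
            · intro u hu
              exact ⟨((κ.1, u), κ.2), by simpa using hu, rfl⟩
          · intro p hp
            rw [Finset.mem_filter] at hp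
            rw [hp.2]
        rw [h7]
        split_ifs with hlt
        · rw [mul_one]; exact hlt.le
        · rw [mul_zero]; exact hθ0.le
      calc _ ≤ ∑ _κ : J × B, θ := Finset.sum_le_sum fun κ _ => h6 κ
        _ = _ := by
          rw [Finset.sum_const, Finset.card_univ, nsmul_eq_mul, Fintype.card_prod]
          push_cast
          ring
    have hC1card : (C1.card : ℝ) ≤ Fintype.card J * w := by
      rw [hw]
      have := Finset.card_le_univ C1
      rw [Fintype.card_prod] at this
      exact_mod_cast this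
    have h8 : (C1.card : ℝ) * (β ^ 2 * (Fintype.card B * w)) / θ ≤
        β * (Fintype.card J * w * Fintype.card B) := by
      rw [div_le_iff₀ hθ0, hθ]
      have : (0 : ℝ) ≤ β ^ 2 * (Fintype.card B * w) := by positivity
      nlinarith [mul_le_mul_of_nonneg_right hC1card this]
    have h9 : (Fintype.card J : ℝ) * Fintype.card B * θ =
        β * (Fintype.card J * w * Fintype.card B) := by rw [hθ]; ring
    have h10 : (n' * d' : ℝ) / 2 * A0 ≤ Fr.card * A0 := by
      apply mul_le_mul_of_nonneg_right _ hA0.le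
      rw [hFrcard]
      push_cast
      have : (0 : ℝ) ≤ d' := by positivity
      nlinarith [mul_le_mul_of_nonneg_right hhalf this]
    rw [h9] at h4
    linarith [h2.trans h8]
  have hprod := prod_le_pow_of_sum_le Fr (fun p => ((vals π S p).card : ℝ) / cnt F (p.1.1, p.2))
    (fun _ _ => by positivity) A0 hA0 hsum
  have hpow : A0 ^ Fr.card ≤ Real.exp ((n' * d' : ℝ) / 2 * Real.log A0) := by
    rw [← Real.rpow_natCast, Real.rpow_def_of_pos hA0, mul_comm]
    apply Real.exp_le_exp.2
    have h1 : Real.log A0 ≤ 0 := Real.log_nonpos hA0.le hA01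
    have h2 : (n' * d' : ℝ) / 2 ≤ Fr.card := by
      rw [hFrcard]
      push_cast
      have : (0 : ℝ) ≤ d' := by positivity
      nlinarith [mul_le_mul_of_nonneg_right hhalf this]
    nlinarith
  calc (S.card : ℝ) ≤ (∏ p ∈ F, ((vals π S p).card : ℝ) / cnt F (p.1.1, p.2)) *
      (Real.exp F.card * (Gam F).card) := hratio
    _ ≤ Real.exp ((n' * d' : ℝ) / 2 * Real.log A0) * (Real.exp F.card * (Gam F).card) :=
        mul_le_mul_of_nonneg_right ((hFrle.trans hprod).trans hpow) (by positivity)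
    _ = Real.exp ((n' * d' : ℝ) + (n' * d' : ℝ) / 2 * Real.log A0) * (Gam F).card := by
        rw [← mul_assoc, ← Real.exp_add, hFcard]
        push_cast
        ring_nf

/-- No centre `(j, u)` has an `X`-neighbour and a `Y`-neighbour that are joined. -/
def TFree (E : B × U → B × U → Prop) (π ρ : J × B → Perm U) : Prop :=
  ∀ j u b c, ¬ E (b, π (j, b) u) (c, ρ (j, c) u)

lemma card_vals_sigma (π : J × B → Perm U) (F : Finset ((J × U) × B))
    (S : Finset (J × B → Perm U)) (i : J × U) :
    (Finset.univ.filter fun x : B × U => (i, x.1) ∈ F ∧ x.2 ∈ vals π S (i, x.1)).card =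
    ∑ b ∈ Finset.univ.filter (fun b => (i, b) ∈ F), (vals π S (i, b)).card := by
  rw [Finset.card_eq_sum_card_fiberwise (f := Prod.fst)
    (t := Finset.univ.filter (fun b => (i, b) ∈ F))]
  · refine Finset.sum_congr rfl fun b hb => ?_
    refine Finset.card_bij (fun p _ => p.2) ?_ ?_ ?_
    · rintro ⟨b', v⟩ hp
      simp only [Finset.mem_filter, Finset.mem_univ, true_and] at hp
      obtain ⟨⟨_, h2⟩, rfl⟩ := hp
      exact h2
    · rintro ⟨b', v⟩ hp ⟨b'', v'⟩ hp' hvv
      simp only [Finset.mem_filter, Finset.mem_univ, true_and] at hp hp'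
      obtain ⟨_, rfl⟩ := hp
      obtain ⟨_, rfl⟩ := hp'
      exact Prod.ext rfl hvv
    · intro v hv
      refine ⟨(b, v), ?_, rfl⟩
      simp only [Finset.mem_filter, Finset.mem_univ, true_and] at hb ⊢
      exact ⟨⟨hb, hv⟩, trivial⟩
  · intro x hx
    rw [Finset.mem_coe, Finset.mem_filter] at hx ⊢
    exact ⟨Finset.mem_univ _, hx.2.1⟩

/-- A combinatorial rectangle of triangle-free inputs is small. -/
lemma rect_small (E : B × U → B × U → Prop) (β : ℝ) (hβ : 0 < β)
    (hmix : ∀ V W : Finset (B × U), (∀ x ∈ V, ∀ y ∈ W, ¬ E x y) →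
      (V.card : ℝ) * W.card ≤ (β ^ 2 * (Fintype.card B * Fintype.card U)) ^ 2)
    (π ρ : J × B → Perm U) (n' d' : ℕ) (C : Finset (J × U)) (F1 F2 : Finset ((J × U) × B))
    (hF1 : Regular n' d' C F1) (hF2 : Regular n' d' C F2)
    (S1 S2 : Finset (J × B → Perm U)) (hS1 : S1 ⊆ Gam F1) (hS2 : S2 ⊆ Gam F2)
    (hTF : ∀ g1 ∈ S1, ∀ g2 ∈ S2, TFree E (fun κ => π κ * g1 κ) (fun κ => ρ κ * g2 κ))
    (A0 : ℝ) (hA0 : 0 < A0) (hA01 : A0 ≤ 1)
    (hbig : 2 * β * (Fintype.card J * Fintype.card U * Fintype.card B) ≤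
      (n' * d' : ℝ) / 2 * A0) (hU : 0 < Fintype.card U) :
    (S1.card : ℝ) * S2.card ≤ Real.exp ((n' * d' : ℝ) + (n' * d' : ℝ) / 2 * Real.log A0) *
      ((Gam F1).card * (Gam F2).card) := by
  classical
  set R : ℝ := β ^ 2 * (Fintype.card B * Fintype.card U) with hR
  have hR0 : 0 ≤ R := by positivity
  set C1 := C.filter fun i => ((∑ b ∈ Finset.univ.filter (fun b => (i, b) ∈ F1),
    (vals π S1 (i, b)).card : ℕ) : ℝ) ≤ R with hC1
  set C2 := C.filter fun i => ((∑ b ∈ Finset.univ.filter (fun b => (i, b) ∈ F2),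
    (vals ρ S2 (i, b)).card : ℕ) : ℝ) ≤ R with hC2
  have hcover : C ⊆ C1 ∪ C2 := by
    intro i hi
    rw [Finset.mem_union, hC1, hC2, Finset.mem_filter, Finset.mem_filter]
    by_contra hcon
    push Not at hcon
    have h1 := hcon.1 hi
    have h2 := hcon.2 hi
    rw [← card_vals_sigma] at h1 h2
    have h3 := hmix _ _ (fun x hx y hy => ?_ : ∀ x ∈ (Finset.univ.filter fun x : B × U =>
      (i, x.1) ∈ F1 ∧ x.2 ∈ vals π S1 (i, x.1)), ∀ y ∈ (Finset.univ.filter fun x : B × U =>
      (i, x.1) ∈ F2 ∧ x.2 ∈ vals ρ S2 (i, x.1)), ¬ E x y)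
    · have h4 := mul_lt_mul'' h1 h2 hR0 hR0
      rw [← sq] at h4
      exact absurd h3 (not_le.2 h4)
    · simp only [Finset.mem_filter, Finset.mem_univ, true_and, vals, Finset.mem_image] at hx hy
      obtain ⟨_, g1, hg1, hx2⟩ := hx
      obtain ⟨_, g2, hg2, hy2⟩ := hy
      have h5 := hTF g1 hg1 g2 hg2 i.1 i.2 x.1 y.1
      rw [Perm.mul_apply, Perm.mul_apply, hx2, hy2] at h5
      exact h5
  have hCcard : (n' : ℝ) ≤ C1.card + C2.card := by
    rw [← hF1.1]
    exact_mod_cast (Finset.card_le_card hcover).trans (Finset.card_union_le _ _)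
  have hS1le : (S1.card : ℝ) ≤ (Gam F1).card := by exact_mod_cast Finset.card_le_card hS1
  have hS2le : (S2.card : ℝ) ≤ (Gam F2).card := by exact_mod_cast Finset.card_le_card hS2
  rcases le_or_gt ((n' : ℝ) / 2) C1.card with hc | hc
  · have := one_side π n' d' C F1 hF1 S1 hS1 β hβ C1 (Finset.filter_subset _ _) hc
      (fun i hi => (Finset.mem_filter.1 hi).2) A0 hA0 hA01 hbig hU
    calc (S1.card : ℝ) * S2.card ≤ (Real.exp ((n' * d' : ℝ) + (n' * d' : ℝ) / 2 * Real.log A0) *
          (Gam F1).card) * (Gam F2).card := mul_le_mul this hS2le (by positivity) (by positivity)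
      _ = _ := by ring
  · have hc2 : (n' : ℝ) / 2 ≤ C2.card := by linarith
    have := one_side ρ n' d' C F2 hF2 S2 hS2 β hβ C2 (Finset.filter_subset _ _) hc2
      (fun i hi => (Finset.mem_filter.1 hi).2) A0 hA0 hA01 hbig hU
    calc (S1.card : ℝ) * S2.card ≤ (Gam F1).card *
          (Real.exp ((n' * d' : ℝ) + (n' * d' : ℝ) / 2 * Real.log A0) * (Gam F2).card) :=
          mul_le_mul hS1le this (by positivity) (by positivity)
      _ = _ := by ring

end Pool.Agent.TS
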