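import Mathlib
import Pool.Agent.Lib_helper21.TS.Density

/-!
# Machines reading permutations and their inverses
-/

namespace Pool.Agent.TS

open Finset Equiv

/-- A query: which of the two families, which permutation, forward or inverse, which argument. -/
abbrev PQ (J B U : Type) : Type := Bool × (J × B) × Bool × U

/-- An input: two families of permutations. -/
abbrev Inp (J B U : Type) : Type := (J × B → Perm U) × (J × B → Perm U)

section Basic

variable {J B U Q : Type}

/-- The permutation asked for. -/
def thePerm (z : Inp J B U) (q : PQ J B U) : Perm U := (if q.1 then z.1 else z.2) q.2.1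

/-- The answer to a query. -/
def ans (z : Inp J B U) (q : PQ J B U) : U :=
  if q.2.2.1 then thePerm z q q.2.2.2 else (thePerm z q).symm q.2.2.2

/-- The source element of the entry read by a query. -/
def srcElt (z : Inp J B U) (q : PQ J B U) : U :=
  if q.2.2.1 then q.2.2.2 else (thePerm z q).symm q.2.2.2

/-- The entry read by a query. -/
def src (z : Inp J B U) (q : PQ J B U) : (J × U) × B := ((q.2.1.1, srcElt z q), q.2.1.2)

/-- Abstract machines. -/
structure AM (J B U Q : Type) where
  start : Q → Prop
  acc : Q → Prop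
  ask : ℕ → Q → Option (PQ J B U)
  step : ℕ → Q → Option U → Q → Prop

/-- `p` is an accepting run of exactly `T` steps on `z`. -/
def AM.Run (M : AM J B U Q) (T : ℕ) (z : Inp J B U) (p : ℕ → Q) : Prop :=
  M.start (p 0) ∧ (∀ τ < T, M.step τ (p τ) ((M.ask τ (p τ)).map (ans z)) (p (τ + 1))) ∧
    M.acc (p T)

/-- If two inputs agree on the permutation asked for at the entry read, the answers agree. -/
lemma ans_eq_of_perm (z z' : Inp J B U) (q : PQ J B U)
    (h : thePerm z q (srcElt z q) = thePerm z' q (srcElt z q)) : ans z q = ans z' q := by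
  obtain ⟨ty, κ, dr, u⟩ := q
  cases dr with
  | true => simpa [ans, srcElt] using h
  | false =>
    simp only [ans, srcElt, Bool.false_eq_true, if_false] at h ⊢
    simp only [Equiv.apply_symm_apply] at h
    symm
    rw [Equiv.symm_apply_eq]
    exact h

end Basic

section Hybrid

variable {J B U Q : Type} [Fintype J] [Fintype B] [Fintype U] [DecidableEq J] [DecidableEq B]
  [DecidableEq U]

/-- Mixing two runs. -/
lemma hybrid (M : AM J B U Q) (T L : ℕ) (χ : ℕ → Bool) (z : Inp J B U)
    (F1 F2 : Finset ((J × U) × B)) (g g' : Inp J B U) (hg1 : g.1 ∈ Gam F1) (hg1' : g'.1 ∈ Gam F1)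
    (hg2 : g.2 ∈ Gam F2) (hg2' : g'.2 ∈ Gam F2) (p p' : ℕ → Q)
    (hp : M.Run T (z * g) p) (hp' : M.Run T (z * g') p')
    (hbd : ∀ τ < T, (τ + 1) % L = 0 → p (τ + 1) = p' (τ + 1))
    (h2 : ∀ τ < T, χ (τ / L) = true → ∀ q, M.ask τ (p τ) = some q → q.1 = false →
      src (z * g) q ∉ F2)
    (h1 : ∀ τ < T, χ (τ / L) = false → ∀ q, M.ask τ (p' τ) = some q → q.1 = true →
      src (z * g') q ∉ F1) :
    M.Run T (z * (g.1, g'.2)) (fun τ => if χ (τ / L) then p τ else p' τ) := by
  have hseg : ∀ τ, τ < T → p (τ + 1) = p' (τ + 1) ∨ (τ + 1) / L = τ / L := by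
    intro τ hτ
    by_cases hm : (τ + 1) % L = 0
    · exact Or.inl (hbd τ hτ hm)
    · right
      rw [Nat.succ_div, if_neg, add_zero]
      intro hd
      exact hm (Nat.mod_eq_zero_of_dvd hd)
  refine ⟨?_, ?_, ?_⟩
  · simp only
    split_ifs
    · exact hp.1
    · exact hp'.1
  · intro τ hτ
    simp only
    by_cases hc : χ (τ / L) = true
    · rw [if_pos hc]
      have hnext : (if χ ((τ + 1) / L) then p (τ + 1) else p' (τ + 1)) = p (τ + 1) := by
        rcases hseg τ hτ with h | h
        · rw [h]; simp
        · rw [h, if_pos hc]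
      rw [hnext]
      have hans : (M.ask τ (p τ)).map (ans (z * (g.1, g'.2))) =
          (M.ask τ (p τ)).map (ans (z * g)) := by
        rcases hq : M.ask τ (p τ) with _ | q
        · rfl
        · simp only [Option.map_some]
          congr 1
          symm
          apply ans_eq_of_perm
          by_cases hty : q.1 = true
          · simp only [thePerm, hty, if_true]
            rfl
          · have hty' : q.1 = false := by simpa using hty
            have hsrc := h2 τ hτ hc q hq hty'
            have e1 := mem_Gam.1 hg2 q.2.1.1 q.2.1.2 (srcElt (z * g) q) hsrc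
            have e2 := mem_Gam.1 hg2' q.2.1.1 q.2.1.2 (srcElt (z * g) q) hsrc
            have p1 : thePerm (z * g) q = z.2 q.2.1 * g.2 q.2.1 := by
              simp only [thePerm, hty', Bool.false_eq_true, if_false]; rfl
            have p2 : thePerm (z * (g.1, g'.2)) q = z.2 q.2.1 * g'.2 q.2.1 := by
              simp only [thePerm, hty', Bool.false_eq_true, if_false]; rfl
            rw [p1, p2, Perm.mul_apply, Perm.mul_apply]
            have e1' : g.2 q.2.1 (srcElt (z * g) q) = srcElt (z * g) q := e1
            have e2' : g'.2 q.2.1 (srcElt (z * g) q) = srcElt (z * g) q := e2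
            rw [e1', e2']
      rw [hans]
      exact hp.2.1 τ hτ
    · have hc' : χ (τ / L) = false := by simpa using hc
      rw [if_neg hc]
      have hnext : (if χ ((τ + 1) / L) then p (τ + 1) else p' (τ + 1)) = p' (τ + 1) := by
        rcases hseg τ hτ with h | h
        · rw [h]; simp
        · rw [h, if_neg hc]
      rw [hnext]
      have hans : (M.ask τ (p' τ)).map (ans (z * (g.1, g'.2))) =
          (M.ask τ (p' τ)).map (ans (z * g')) := by
        rcases hq : M.ask τ (p' τ) with _ | q
        · rfl
        · simp only [Option.map_some]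
          congr 1
          symm
          apply ans_eq_of_perm
          by_cases hty : q.1 = true
          · have hsrc := h1 τ hτ hc' q hq hty
            have e1 := mem_Gam.1 hg1 q.2.1.1 q.2.1.2 (srcElt (z * g') q) hsrc
            have e2 := mem_Gam.1 hg1' q.2.1.1 q.2.1.2 (srcElt (z * g') q) hsrc
            have p1 : thePerm (z * g') q = z.1 q.2.1 * g'.1 q.2.1 := by
              simp only [thePerm, hty, if_true]; rfl
            have p2 : thePerm (z * (g.1, g'.2)) q = z.1 q.2.1 * g.1 q.2.1 := by
              simp only [thePerm, hty, if_true]; rfl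
            rw [p1, p2, Perm.mul_apply, Perm.mul_apply]
            have e1' : g.1 q.2.1 (srcElt (z * g') q) = srcElt (z * g') q := e1
            have e2' : g'.1 q.2.1 (srcElt (z * g') q) = srcElt (z * g') q := e2
            rw [e1', e2']
          · have hty' : q.1 = false := by simpa using hty
            simp only [thePerm, hty', Bool.false_eq_true, if_false]
            rfl
      rw [hans]
      exact hp'.2.1 τ hτ
  · simp only
    split_ifs
    · exact hp.2.2
    · exact hp'.2.2

/-- The entries of type `ty` read in segment `j` by the run `p`. -/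
noncomputable def hits (M : AM J B U Q) (T L : ℕ) (z : Inp J B U) (p : ℕ → Q) (ty : Bool)
    (j : ℕ) : Finset ((J × U) × B) := by
  classical
  exact Finset.univ.filter fun e => ∃ τ < T, τ / L = j ∧ ∃ q, M.ask τ (p τ) = some q ∧ q.1 = ty ∧
    src z q = e

lemma mem_hits {M : AM J B U Q} {T L : ℕ} {z : Inp J B U} {p : ℕ → Q} {ty : Bool} {j : ℕ}
    {e : (J × U) × B} : e ∈ hits M T L z p ty j ↔
      ∃ τ < T, τ / L = j ∧ ∃ q, M.ask τ (p τ) = some q ∧ q.1 = ty ∧ src z q = e := by
  classical
  simp [hits]

lemma hits_card (M : AM J B U Q) (T L : ℕ) (z : Inp J B U) (p : ℕ → Q) (j : ℕ) :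
    (hits M T L z p true j).card + (hits M T L z p false j).card ≤
      ((Finset.range T).filter fun τ => τ / L = j).card := by
  classical
  rw [← Finset.card_disjSum]
  -- choose a time for each entry
  have h1 : ∀ ty e, e ∈ hits M T L z p ty j → ∃ τ < T, τ / L = j ∧ ∃ q, M.ask τ (p τ) = some q ∧
      q.1 = ty ∧ src z q = e := fun ty e he => mem_hits.1 he
  choose! f hf using h1
  refine Finset.card_le_card_of_injOn
    (fun x => Sum.elim (fun e => f true e) (fun e => f false e) x) ?_ ?_
  · rintro (e | e) he
    · have he' : e ∈ hits M T L z p true j := by simpa using he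
      have := hf true e he'
      simp [this.1, this.2.1]
    · have he' : e ∈ hits M T L z p false j := by simpa using he
      have := hf false e he'
      simp [this.1, this.2.1]
  · rintro (e | e) he (e' | e') he' hee
    · have h1 : e ∈ hits M T L z p true j := by simpa using he
      have h2 : e' ∈ hits M T L z p true j := by simpa using he'
      obtain ⟨_, _, q, hq, _, hs⟩ := hf true e h1
      obtain ⟨_, _, q', hq', _, hs'⟩ := hf true e' h2
      simp only [Sum.elim_inl] at hee
      rw [hee, hq'] at hq
      obtain rfl := Option.some.inj hq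
      rw [← hs, ← hs']
    · have h1 : e ∈ hits M T L z p true j := by simpa using he
      have h2 : e' ∈ hits M T L z p false j := by simpa using he'
      obtain ⟨_, _, q, hq, ht, hs⟩ := hf true e h1
      obtain ⟨_, _, q', hq', ht', hs'⟩ := hf false e' h2
      simp only [Sum.elim_inl, Sum.elim_inr] at hee
      rw [hee, hq'] at hq
      obtain rfl := Option.some.inj hq
      rw [ht] at ht'
      exact absurd ht' (by decide)
    · have h1 : e ∈ hits M T L z p false j := by simpa using he
      have h2 : e' ∈ hits M T L z p true j := by simpa using he'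
      obtain ⟨_, _, q, hq, ht, hs⟩ := hf false e h1
      obtain ⟨_, _, q', hq', ht', hs'⟩ := hf true e' h2
      simp only [Sum.elim_inl, Sum.elim_inr] at hee
      rw [hee, hq'] at hq
      obtain rfl := Option.some.inj hq
      rw [ht] at ht'
      exact absurd ht' (by decide)
    · have h1 : e ∈ hits M T L z p false j := by simpa using he
      have h2 : e' ∈ hits M T L z p false j := by simpa using he'
      obtain ⟨_, _, q, hq, _, hs⟩ := hf false e h1
      obtain ⟨_, _, q', hq', _, hs'⟩ := hf false e' h2
      simp only [Sum.elim_inr] at hee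
      rw [hee, hq'] at hq
      obtain rfl := Option.some.inj hq
      rw [← hs, ← hs']

lemma seg_card_le (T L j : ℕ) (hL : 0 < L) :
    ((Finset.range T).filter fun τ => τ / L = j).card ≤ L := by
  calc ((Finset.range T).filter fun τ => τ / L = j).card ≤ (Finset.Ico (j * L) (j * L + L)).card := by
        refine Finset.card_le_card fun τ hτ => ?_
        rw [Finset.mem_filter] at hτ
        rw [Finset.mem_Ico]
        obtain ⟨_, rfl⟩ := hτ
        constructor
        · exact Nat.div_mul_le_self τ L
        · have := Nat.lt_div_mul_add (a := τ) hL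
          exact this
    _ = L := by simp

lemma seg_sum_le (T L r : ℕ) :
    ∑ j : Fin r, ((Finset.range T).filter fun τ => τ / L = (j : ℕ)).card ≤ T := by
  rw [← Finset.card_biUnion]
  · calc _ ≤ (Finset.range T).card := Finset.card_le_card (by
          intro τ hτ
          rw [Finset.mem_biUnion] at hτ
          obtain ⟨_, _, h⟩ := hτ
          exact (Finset.mem_filter.1 h).1)
      _ = T := Finset.card_range T
  · intro i _ j _ hij
    rw [Function.onFun, Finset.disjoint_left]
    intro τ h1 h2
    rw [Finset.mem_filter] at h1 h2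
    exact hij (Fin.ext (h1.2.symm.trans h2.2))

end Hybrid

section Count

variable {J B U Q : Type} [Fintype J] [Fintype B] [Fintype U] [DecidableEq J] [DecidableEq B]
  [DecidableEq U] [Fintype Q] [DecidableEq Q]

open Classical in
/-- The accepted inputs. -/
noncomputable def accSet (M : AM J B U Q) (T : ℕ) : Finset (Inp J B U) :=
  Finset.univ.filter fun z => ∃ p, M.Run T z p

lemma mem_accSet {M : AM J B U Q} {T : ℕ} {z : Inp J B U} :
    z ∈ accSet M T ↔ ∃ p, M.Run T z p := by
  classical
  simp [accSet]

/-- Double counting over the group generated by the entries in `F1`, `F2`. -/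
lemma orbit_bound (A : Finset (Inp J B U)) (F1 F2 : Finset ((J × U) × B)) (η : ℝ)
    (h : ∀ z : Inp J B U, (((Gam F1 ×ˢ Gam F2).filter fun g : Inp J B U => z * g ∈ A).card : ℝ) ≤
      η * ((Gam F1).card * (Gam F2).card)) :
    (A.card : ℝ) ≤ η * Fintype.card (Inp J B U) := by
  have hpos : (0 : ℝ) < (Gam F1).card * (Gam F2).card := by
    have h1 : 0 < (Gam F1).card := by
      rw [card_Gam]; exact Finset.prod_pos fun _ _ => Nat.factorial_pos _
    have h2 : 0 < (Gam F2).card := by
      rw [card_Gam]; exact Finset.prod_pos fun _ _ => Nat.factorial_pos _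
    exact_mod_cast Nat.mul_pos h1 h2
  have hdc : ∑ z : Inp J B U, ((Gam F1 ×ˢ Gam F2).filter fun g : Inp J B U => z * g ∈ A).card =
      ((Gam F1).card * (Gam F2).card) * A.card := by
    simp_rw [Finset.card_filter]
    rw [Finset.sum_comm]
    have : ∀ g ∈ Gam F1 ×ˢ Gam F2, ∑ z : Inp J B U, (if z * g ∈ A then 1 else 0) = A.card := by
      intro g _
      rw [Fintype.sum_equiv (Equiv.mulRight g) (fun z => if z * g ∈ A then 1 else 0)
        (fun z => if z ∈ A then 1 else 0) (fun z => rfl)]
      simp
    rw [Finset.sum_congr rfl this, Finset.sum_const, Finset.card_product, smul_eq_mul]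
  have hle : ((((Gam F1).card * (Gam F2).card) * A.card : ℕ) : ℝ) ≤
      Fintype.card (Inp J B U) * (η * ((Gam F1).card * (Gam F2).card)) := by
    rw [← hdc]
    push_cast
    calc _ ≤ ∑ _z : Inp J B U, η * ((Gam F1).card * (Gam F2).card : ℝ) :=
          Finset.sum_le_sum fun z _ => h z
      _ = _ := by rw [Finset.sum_const, Finset.card_univ, nsmul_eq_mul]
  push_cast at hle
  have h3 : ((Gam F1).card * (Gam F2).card : ℝ) * A.card ≤
      ((Gam F1).card * (Gam F2).card : ℝ) * (η * Fintype.card (Inp J B U)) := by
    calc _ ≤ _ := hle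
      _ = _ := by ring
  exact le_of_mul_le_mul_left h3 hpos

theorem accept_count (E : B × U → B × U → Prop) (β : ℝ) (hβ : 0 < β)
    (hmix : ∀ V W : Finset (B × U), (∀ x ∈ V, ∀ y ∈ W, ¬ E x y) →
      (V.card : ℝ) * W.card ≤ (β ^ 2 * (Fintype.card B * Fintype.card U)) ^ 2)
    (hU : 0 < Fintype.card U) (hB : 0 < Fintype.card B) (M : AM J B U Q) (T L r : ℕ) (hL : 0 < L)
    (hTr : T ≤ r * L) (h : ℝ) (hh : 1 ≤ h)
    (htot : (T : ℝ) ≤ Fintype.card (J × U) * Fintype.card B * Real.logb 2 h)
    (hpair : (r * L ^ 2 : ℝ) ≤ Fintype.card (J × U) * (Fintype.card B) ^ 2 / (2 * h))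
    (n' d' : ℕ) (hn' : n' = ⌈(Fintype.card (J × U) : ℝ) / (4 * h)⌉₊)
    (hd' : d' = ⌈(Fintype.card B : ℝ) / (4 * h)⌉₊)
    (A0 : ℝ) (hA0 : 0 < A0) (hA01 : A0 ≤ 1)
    (hbig : 2 * β * (Fintype.card J * Fintype.card U * Fintype.card B) ≤
      (n' * d' : ℝ) / 2 * A0)
    (hacc : ∀ z : Inp J B U, (∃ p, M.Run T z p) → TFree E z.1 z.2) :
    ((accSet M T).card : ℝ) ≤ (Fintype.card Q : ℝ) ^ r * 2 ^ r *
      ((Fintype.card ((J × U) × B)).choose (n' * d') : ℝ) ^ 2 *
      (Real.exp ((n' * d' : ℝ) + (n' * d' : ℝ) / 2 * Real.log A0) * Fintype.card (Inp J B U)) := by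
  classical
  rcases isEmpty_or_nonempty Q with hQ | hQ
  · have : accSet M T = (∅ : Finset (Inp J B U)) := by
      rw [Finset.eq_empty_iff_forall_notMem]
      intro z hz
      obtain ⟨p, _⟩ := mem_accSet.1 hz
      exact hQ.elim (p 0)
    rw [this]
    simp only [Finset.card_empty, Nat.cast_zero]
    positivity
  -- data for each accepted input
  have hdata : ∀ z : Inp J B U, (∃ p, M.Run T z p) → ∃ (p : ℕ → Q) (χ : Fin r → Bool)
      (C : Finset (J × U)) (F1 F2 : Finset ((J × U) × B)), M.Run T z p ∧
      Regular n' d' C F1 ∧ Regular n' d' C F2 ∧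
      (∀ e ∈ F1, ∀ j : Fin r, e ∈ hits M T L z p true j → χ j = true) ∧
      (∀ e ∈ F2, ∀ j : Fin r, e ∈ hits M T L z p false j → χ j = false) := by
    rintro z ⟨p, hp⟩
    obtain ⟨χ, C, F1, F2, h1, h2, h3, h4⟩ := exists_selection
      (fun j : Fin r => hits M T L z p true j) (fun j : Fin r => hits M T L z p false j) h hh hB
      (by
        refine le_trans ?_ htot
        have h5 : ∑ j : Fin r, ((hits M T L z p true j).card + (hits M T L z p false j).card) ≤ T :=
          (Finset.sum_le_sum (fun (j : Fin r) _ => hits_card M T L z p j)).trans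
            (seg_sum_le T L r)
        exact_mod_cast h5)
      (by
        refine le_trans ?_ hpair
        have h5 : ∑ j : Fin r, (hits M T L z p true j).card * (hits M T L z p false j).card ≤
            r * L ^ 2 := by
          calc _ ≤ ∑ _j : Fin r, L ^ 2 := by
                refine Finset.sum_le_sum fun j _ => ?_
                have h6 := (hits_card M T L z p j).trans (seg_card_le T L j hL)
                rw [sq]
                exact Nat.mul_le_mul (by omega) (by omega)
            _ = _ := by simp
        exact_mod_cast h5)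
    subst hn' hd'
    exact ⟨p, χ, C, F1, F2, hp, h1, h2, h3, h4⟩
  choose! fp fχ fC fF1 fF2 hf using hdata
  set dat : Inp J B U → (Fin r → Q) × (Fin r → Bool) × Finset ((J × U) × B) ×
    Finset ((J × U) × B) := fun z => (fun j => fp z ((j + 1) * L), fχ z, fF1 z, fF2 z) with hdat
  set tgt : Finset ((Fin r → Q) × (Fin r → Bool) × Finset ((J × U) × B) ×
    Finset ((J × U) × B)) := Finset.univ ×ˢ (Finset.univ ×ˢ
      (Finset.powersetCard (n' * d') Finset.univ ×ˢ Finset.powersetCard (n' * d') Finset.univ))
    with htgt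
  have hmaps : ∀ z ∈ accSet M T, dat z ∈ tgt := by
    intro z hz
    have h1 := hf z (mem_accSet.1 hz)
    simp only [hdat, htgt, Finset.mem_product, Finset.mem_univ, true_and,
      Finset.mem_powersetCard_univ]
    exact ⟨h1.2.1.card, h1.2.2.1.card⟩
  have htgtcard : (tgt.card : ℝ) = (Fintype.card Q : ℝ) ^ r * 2 ^ r *
      ((Fintype.card ((J × U) × B)).choose (n' * d') : ℝ) ^ 2 := by
    simp only [htgt, Finset.card_product, Finset.card_univ, Finset.card_powersetCard,
      Fintype.card_fun, Fintype.card_fin, Fintype.card_bool]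
    push_cast
    ring
  have hfib : ∀ D0 ∈ tgt, (((accSet M T).filter fun z => dat z = D0).card : ℝ) ≤
      Real.exp ((n' * d' : ℝ) + (n' * d' : ℝ) / 2 * Real.log A0) * Fintype.card (Inp J B U) := by
    rintro ⟨σ, χ, F1, F2⟩ _
    rcases ((accSet M T).filter fun z => dat z = (σ, χ, F1, F2)).eq_empty_or_nonempty with he | hne
    · rw [he]; simp only [Finset.card_empty, Nat.cast_zero]; positivity
    obtain ⟨z0, hz0⟩ := hne
    rw [Finset.mem_filter] at hz0
    have hz0' := hf z0 (mem_accSet.1 hz0.1)
    have hF1e : fF1 z0 = F1 := by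
      have := hz0.2; simp only [hdat, Prod.mk.injEq] at this; exact this.2.2.1
    have hF2e : fF2 z0 = F2 := by
      have := hz0.2; simp only [hdat, Prod.mk.injEq] at this; exact this.2.2.2
    have hreg1 : Regular n' d' (fC z0) F1 := by rw [← hF1e]; exact hz0'.2.1
    have hreg2 : Regular n' d' (fC z0) F2 := by rw [← hF2e]; exact hz0'.2.2.1
    apply orbit_bound _ F1 F2
    intro z
    set P := (Gam F1 ×ˢ Gam F2).filter fun g : Inp J B U =>
      z * g ∈ (accSet M T).filter fun z => dat z = (σ, χ, F1, F2) with hP
    set S1 : Finset (J × B → Perm U) := P.image Prod.fst with hS1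
    set S2 : Finset (J × B → Perm U) := P.image Prod.snd with hS2
    have hPle : (P.card : ℝ) ≤ (S1.card : ℝ) * S2.card := by
      have : P ⊆ S1 ×ˢ S2 := by
        intro g hg
        rw [Finset.mem_product]
        exact ⟨Finset.mem_image_of_mem _ hg, Finset.mem_image_of_mem _ hg⟩
      have := Finset.card_le_card this
      rw [Finset.card_product] at this
      exact_mod_cast this
    refine hPle.trans ?_
    refine rect_small E β hβ hmix z.1 z.2 n' d' (fC z0) F1 F2 hreg1 hreg2 S1 S2 ?_ ?_ ?_ A0 hA0
      hA01 hbig hU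
    · intro g1 hg1
      rw [hS1, Finset.mem_image] at hg1
      obtain ⟨g, hg, rfl⟩ := hg1
      rw [hP, Finset.mem_filter, Finset.mem_product] at hg
      exact hg.1.1
    · intro g2 hg2
      rw [hS2, Finset.mem_image] at hg2
      obtain ⟨g, hg, rfl⟩ := hg2
      rw [hP, Finset.mem_filter, Finset.mem_product] at hg
      exact hg.1.2
    · intro g1 hg1 g2 hg2
      rw [hS1, Finset.mem_image] at hg1
      rw [hS2, Finset.mem_image] at hg2
      obtain ⟨g, hg, rfl⟩ := hg1
      obtain ⟨g', hg', rfl⟩ := hg2
      rw [hP, Finset.mem_filter, Finset.mem_product, Finset.mem_filter] at hg hg'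
      obtain ⟨hgG, hgA, hgD⟩ := hg
      obtain ⟨hgG', hgA', hgD'⟩ := hg'
      have hr := hf (z * g) (mem_accSet.1 hgA)
      have hr' := hf (z * g') (mem_accSet.1 hgA')
      simp only [hdat, Prod.mk.injEq] at hgD hgD'
      obtain ⟨d1, d2, d3, d4⟩ := hgD
      obtain ⟨d1', d2', d3', d4'⟩ := hgD'
      rw [d2, d3, d4] at hr
      rw [d2', d3', d4'] at hr'
      -- the colouring extended to all naturals
      set χ' : ℕ → Bool := fun j => if hj : j < r then χ ⟨j, hj⟩ else true with hχ'
      have hdivlt : ∀ τ < T, τ / L < r := by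
        intro τ hτ
        rw [Nat.div_lt_iff_lt_mul hL]
        omega
      have hrun := hybrid M T L χ' z F1 F2 g g' hgG.1 hgG'.1 hgG.2 hgG'.2 (fp (z * g))
        (fp (z * g')) hr.1 hr'.1 ?_ ?_ ?_
      · exact hacc _ ⟨_, hrun⟩
      · intro τ hτ hm
        obtain ⟨k, hk⟩ := Nat.dvd_of_mod_eq_zero hm
        have hk0 : k ≠ 0 := by rintro rfl; omega
        obtain ⟨k', rfl⟩ := Nat.exists_eq_succ_of_ne_zero hk0
        have hk'r : k' < r := by
          have h1 : L * (k' + 1) ≤ r * L := by
            have : L * (k' + 1) = τ + 1 := hk.symm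
            omega
          have h2 : L * (k' + 1) ≤ L * r := by rw [mul_comm L r]; exact h1
          have := Nat.le_of_mul_le_mul_left h2 hL
          omega
        have e1 := congrFun d1 ⟨k', hk'r⟩
        have e2 := congrFun d1' ⟨k', hk'r⟩
        simp only at e1 e2
        have : τ + 1 = (k' + 1) * L := by rw [hk, mul_comm]
        rw [this, e1, e2]
      · intro τ hτ hc q hq hty hin
        have hlt := hdivlt τ hτ
        have := hr.2.2.2.2 _ hin ⟨τ / L, hlt⟩ (mem_hits.2 ⟨τ, hτ, rfl, q, hq, hty, rfl⟩)
        simp only [hχ', dif_pos hlt] at hc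
        rw [this] at hc
        exact absurd hc (by decide)
      · intro τ hτ hc q hq hty hin
        have hlt := hdivlt τ hτ
        have := hr'.2.2.2.1 _ hin ⟨τ / L, hlt⟩ (mem_hits.2 ⟨τ, hτ, rfl, q, hq, hty, rfl⟩)
        simp only [hχ', dif_pos hlt] at hc
        rw [this] at hc
        exact absurd hc (by decide)
  rw [Finset.card_eq_sum_card_fiberwise hmaps]
  push_cast
  calc _ ≤ ∑ _D0 ∈ tgt, Real.exp ((n' * d' : ℝ) + (n' * d' : ℝ) / 2 * Real.log A0) *
        Fintype.card (Inp J B U) := Finset.sum_le_sum hfib
    _ = _ := by rw [Finset.sum_const, nsmul_eq_mul, htgtcard]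

end Count

end Pool.Agent.TS
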