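import Mathlib

/-!
# Permutations avoiding a sparse relation
-/

namespace Pool.Agent.TS

open Finset Equiv

open Classical in
/-- The permutations avoiding `H`. -/
noncomputable def avoidSet {α : Type} [Fintype α] [DecidableEq α] (H : α → α → Prop) :
    Finset (Perm α) :=
  Finset.univ.filter fun g : Perm α => ∀ i, ¬ H i (g i)

lemma mem_avoidSet {α : Type} [Fintype α] [DecidableEq α] {H : α → α → Prop} {g : Perm α} :
    g ∈ avoidSet H ↔ ∀ i, ¬ H i (g i) := by
  classical
  simp [avoidSet]

lemma exists_avoid {α : Type} [Fintype α] [DecidableEq α] (H : α → α → Prop) [DecidableRel H]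
    (D : ℕ) (hrow : ∀ i, (Finset.univ.filter fun j => H i j).card ≤ D)
    (hcol : ∀ j, (Finset.univ.filter fun i => H i j).card ≤ D) (h2 : 2 * D ≤ Fintype.card α) :
    ∃ g : Perm α, ∀ i, ¬ H i (g i) := by
  have key := (Finset.all_card_le_biUnion_card_iff_exists_injective
    (fun i : α => Finset.univ.filter fun j => ¬ H i j)).1 ?_
  · obtain ⟨f, hf, hf'⟩ := key
    refine ⟨Equiv.ofBijective f ((Fintype.bijective_iff_injective_and_card f).2 ⟨hf, rfl⟩),
      fun i => ?_⟩
    simpa using hf' i
  · intro s
    rcases s.eq_empty_or_nonempty with rfl | ⟨i, hi⟩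
    · simp
    rcases le_or_gt s.card D with hs | hs
    · have h1 : (Finset.univ.filter fun j => ¬ H i j) ⊆
          s.biUnion (fun i => Finset.univ.filter fun j => ¬ H i j) :=
        Finset.subset_biUnion_of_mem (fun i : α => Finset.univ.filter fun j => ¬ H i j) hi
      have h3 := Finset.card_le_card h1
      have h4 := Finset.card_filter_add_card_filter_not (s := (Finset.univ : Finset α))
        (fun j => H i j)
      have h5 := hrow i
      rw [Finset.card_univ] at h4
      omega
    · have : s.biUnion (fun i => Finset.univ.filter fun j => ¬ H i j) = Finset.univ := by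
        rw [Finset.eq_univ_iff_forall]
        intro j
        rw [Finset.mem_biUnion]
        by_contra hcon
        push Not at hcon
        have : s ⊆ Finset.univ.filter fun i => H i j := by
          intro i' hi'
          have := hcon i' hi'
          simp only [Finset.mem_filter, Finset.mem_univ, true_and, not_not] at this ⊢
          exact this
        have := (Finset.card_le_card this).trans (hcol j)
        omega
      rw [this, Finset.card_univ]
      exact Finset.card_le_univ s

lemma avoid_fin (D : ℕ) : ∀ n : ℕ, 2 * D ≤ n → ∀ H : Fin n → Fin n → Prop,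
    (∀ [DecidableRel H], (∀ i, (Finset.univ.filter fun j => H i j).card ≤ D) →
    (∀ j, (Finset.univ.filter fun i => H i j).card ≤ D) →
    (n - D).factorial ≤ D.factorial * (avoidSet H).card) := by
  intro n hn
  induction n, hn using Nat.le_induction with
  | base =>
    intro H _ hrow hcol
    have h1 : 2 * D - D = D := by omega
    rw [h1]
    apply Nat.le_mul_of_pos_right
    obtain ⟨g, hg⟩ := exists_avoid H D hrow hcol (by simp)
    apply Finset.card_pos.2
    exact ⟨g, mem_avoidSet.2 hg⟩
  | succ n hn ih =>
    intro H _ hrow hcol
    classical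
    -- the reduced relations
    let H' : Fin (n + 1) → Fin n → Fin n → Prop := fun p i j => H i.succ (swap 0 p j.succ)
    have hrow' : ∀ p i, (Finset.univ.filter fun j => H' p i j).card ≤ D := by
      intro p i
      refine le_trans ?_ (hrow i.succ)
      refine Finset.card_le_card_of_injOn (fun j => swap 0 p j.succ) ?_ ?_
      · intro j hj
        simpa [H'] using hj
      · intro j _ j' _ h
        exact Fin.succ_injective _ ((swap 0 p).injective h)
    have hcol' : ∀ p j, (Finset.univ.filter fun i => H' p i j).card ≤ D := by
      intro p j
      refine le_trans ?_ (hcol (swap 0 p j.succ))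
      refine Finset.card_le_card_of_injOn (fun i => i.succ) ?_ ?_
      · intro i hi
        simpa [H'] using hi
      · intro i _ i' _ h
        exact Fin.succ_injective _ h
    have hcount : (avoidSet H).card = ∑ p ∈ Finset.univ.filter (fun p => ¬ H 0 p),
        (avoidSet (H' p)).card := by
      rw [← Finset.card_sigma]
      refine Finset.card_bij (fun g _ => ⟨(Perm.decomposeFin g).1, (Perm.decomposeFin g).2⟩)
        ?_ ?_ ?_
      · intro g hg
        rw [mem_avoidSet] at hg
        have h0 : g = Perm.decomposeFin.symm (Perm.decomposeFin g) := by simp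
        rw [Finset.mem_sigma, Finset.mem_filter, mem_avoidSet]
        refine ⟨⟨Finset.mem_univ _, ?_⟩, ?_⟩
        · have := hg 0
          rw [h0, Perm.decomposeFin_symm_apply_zero] at this
          exact this
        · intro i
          have := hg i.succ
          rw [h0, Perm.decomposeFin_symm_apply_succ] at this
          exact this
      · intro g _ g' _ h
        apply Perm.decomposeFin.injective
        rw [Sigma.mk.injEq] at h
        exact Prod.ext h.1 (eq_of_heq h.2)
      · rintro ⟨p, e⟩ hpe
        rw [Finset.mem_sigma, Finset.mem_filter, mem_avoidSet] at hpe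
        refine ⟨Perm.decomposeFin.symm (p, e), ?_, ?_⟩
        · rw [mem_avoidSet]
          intro i
          refine Fin.cases ?_ (fun i => ?_) i
          · rw [Perm.decomposeFin_symm_apply_zero]
            exact hpe.1.2
          · rw [Perm.decomposeFin_symm_apply_succ]
            exact hpe.2 i
        · simp
    have hge : n + 1 - D ≤ (Finset.univ.filter (fun p : Fin (n + 1) => ¬ H 0 p)).card := by
      have h4 := Finset.card_filter_add_card_filter_not (s := (Finset.univ : Finset (Fin (n + 1))))
        (fun j => H 0 j)
      have h5 := hrow 0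
      rw [Finset.card_univ, Fintype.card_fin] at h4
      omega
    have h6 : n + 1 - D = (n - D) + 1 := by omega
    rw [hcount, h6, Nat.factorial_succ, Finset.mul_sum]
    calc (n - D + 1) * (n - D).factorial
        ≤ (Finset.univ.filter (fun p : Fin (n + 1) => ¬ H 0 p)).card * (n - D).factorial := by
          apply Nat.mul_le_mul_right
          omega
      _ = ∑ _p ∈ Finset.univ.filter (fun p : Fin (n + 1) => ¬ H 0 p), (n - D).factorial := by
          rw [Finset.sum_const, smul_eq_mul]
      _ ≤ _ := Finset.sum_le_sum fun p _ => ih (H' p) (hrow' p) (hcol' p)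

lemma avoid_bound {α : Type} [Fintype α] [DecidableEq α] (H : α → α → Prop) [DecidableRel H]
    (D : ℕ) (hrow : ∀ i, (Finset.univ.filter fun j => H i j).card ≤ D)
    (hcol : ∀ j, (Finset.univ.filter fun i => H i j).card ≤ D) (h2 : 2 * D ≤ Fintype.card α) :
    (Fintype.card α).factorial ≤ (Fintype.card α) ^ (2 * D) * (avoidSet H).card := by
  classical
  set n := Fintype.card α with hn
  let e : α ≃ Fin n := Fintype.equivFin α
  let H' : Fin n → Fin n → Prop := fun i j => H (e.symm i) (e.symm j)
  have hrow' : ∀ i, (Finset.univ.filter fun j => H' i j).card ≤ D := by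
    intro i
    refine le_trans (Finset.card_le_card_of_injOn (fun j => e.symm j) ?_ ?_) (hrow (e.symm i))
    · intro j hj
      simpa [H'] using hj
    · intro j _ j' _ h
      exact e.symm.injective h
  have hcol' : ∀ j, (Finset.univ.filter fun i => H' i j).card ≤ D := by
    intro j
    refine le_trans (Finset.card_le_card_of_injOn (fun i => e.symm i) ?_ ?_) (hcol (e.symm j))
    · intro i hi
      simpa [H'] using hi
    · intro i _ i' _ h
      exact e.symm.injective h
  have h1 := avoid_fin D n h2 H' hrow' hcol'
  have h3 : (avoidSet H').card = (avoidSet H).card := by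
    refine Finset.card_bij (fun g _ => e.symm.permCongr g) ?_ ?_ ?_
    · intro g hg
      rw [mem_avoidSet] at hg ⊢
      intro i
      have := hg (e i)
      simpa [H'] using this
    · intro g _ g' _ h
      exact (Equiv.permCongr e.symm).injective h
    · intro g hg
      rw [mem_avoidSet] at hg
      refine ⟨e.permCongr g, ?_, ?_⟩
      · rw [mem_avoidSet]
        intro i
        have := hg (e.symm i)
        simpa [H'] using this
      · ext i
        simp
  rw [h3] at h1
  have hDn : D ≤ n := by omega
  have h4 : n.factorial ≤ n ^ D * (n - D).factorial := by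
    have h5 : n.descFactorial D * (n - D).factorial = n.factorial := by
      rw [mul_comm]; exact Nat.factorial_mul_descFactorial hDn
    rw [← h5]
    exact Nat.mul_le_mul_right _ (Nat.descFactorial_le_pow n D)
  have h6 : D.factorial ≤ n ^ D := (Nat.factorial_le_pow D).trans (Nat.pow_le_pow_left hDn D)
  calc n.factorial ≤ n ^ D * (n - D).factorial := h4
    _ ≤ n ^ D * (D.factorial * (avoidSet H).card) := Nat.mul_le_mul_left _ h1
    _ ≤ n ^ D * (n ^ D * (avoidSet H).card) := by gcongr
    _ = n ^ (2 * D) * (avoidSet H).card := by rw [two_mul, pow_add]; ring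

end Pool.Agent.TS
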