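import Mathlib
import Pool.Agent.Lib_helper21.TS.Core
import Pool.Agent.Lib_helper21.TS.Avoid

/-!
# The number of triangle-free inputs, and the inequality forced by a machine
-/

namespace Pool.Agent.TS

open Finset Equiv

variable {J B U Q : Type} [Fintype J] [Fintype B] [Fintype U] [DecidableEq J] [DecidableEq B]
  [DecidableEq U]

open Classical in
/-- The triangle-free inputs. -/
noncomputable def tfSet (J : Type) {B U : Type} [Fintype J] [Fintype B] [Fintype U]
    [DecidableEq J] [DecidableEq B] [DecidableEq U] (E : B × U → B × U → Prop) :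
    Finset (Inp J B U) :=
  Finset.univ.filter fun z => TFree E z.1 z.2

lemma mem_tfSet {E : B × U → B × U → Prop} {z : Inp J B U} :
    z ∈ tfSet J E ↔ TFree E z.1 z.2 := by
  classical
  simp [tfSet]

/-- The relation that a member of the second family has to avoid. -/
def forb (E : B × U → B × U → Prop) (π : J × B → Perm U) (κ : J × B) (u v : U) : Prop :=
  ∃ b, E (b, π (κ.1, b) u) (κ.2, v)

omit [Fintype J] [Fintype B] [Fintype U] [DecidableEq J] [DecidableEq B] [DecidableEq U] in
lemma tfree_iff (E : B × U → B × U → Prop) (π ρ : J × B → Perm U) :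
    TFree E π ρ ↔ ∀ κ : J × B, ∀ u, ¬ forb E π κ u (ρ κ u) := by
  constructor
  · rintro h ⟨j, c⟩ u ⟨b, hb⟩
    exact h j u b c hb
  · intro h j u b c hE
    exact h (j, c) u ⟨b, hE⟩

lemma card_inp : Fintype.card (Inp J B U) =
    (Fintype.card U).factorial ^ Fintype.card (J × B) *
      (Fintype.card U).factorial ^ Fintype.card (J × B) := by
  rw [Fintype.card_prod, Fintype.card_fun, Fintype.card_perm]

theorem tf_count (E : B × U → B × U → Prop) (D : ℕ)
    (hrow : ∀ (π : J × B → Perm U) κ u, ∀ [DecidablePred (forb E π κ u)],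
      (Finset.univ.filter fun v => forb E π κ u v).card ≤ D)
    (hcol : ∀ (π : J × B → Perm U) κ v, ∀ [DecidablePred fun u => forb E π κ u v],
      (Finset.univ.filter fun u => forb E π κ u v).card ≤ D)
    (h2 : 2 * D ≤ Fintype.card U) :
    Fintype.card (Inp J B U) ≤
      (Fintype.card U) ^ (2 * D * Fintype.card (J × B)) * (tfSet J E).card := by
  classical
  have h1 : (tfSet J E).card = ∑ π : J × B → Perm U, ∏ κ, (avoidSet (forb E π κ)).card := by
    have h3 : (tfSet J E).card = ((Finset.univ : Finset (J × B → Perm U)).sigma fun π =>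
        Fintype.piFinset fun κ => avoidSet (forb E π κ)).card := by
      refine Finset.card_bij (fun z _ => ⟨z.1, z.2⟩) ?_ ?_ ?_
      · intro z hz
        rw [mem_tfSet, tfree_iff] at hz
        rw [Finset.mem_sigma, Fintype.mem_piFinset]
        exact ⟨Finset.mem_univ _, fun κ => mem_avoidSet.2 (hz κ)⟩
      · intro z _ z' _ h
        rw [Sigma.mk.injEq] at h
        exact Prod.ext h.1 (eq_of_heq h.2)
      · rintro ⟨π, ρ⟩ h
        rw [Finset.mem_sigma, Fintype.mem_piFinset] at h
        refine ⟨(π, ρ), ?_, rfl⟩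
        rw [mem_tfSet, tfree_iff]
        exact fun κ => mem_avoidSet.1 (h.2 κ)
    rw [h3, Finset.card_sigma]
    simp_rw [Fintype.card_piFinset]
  rw [h1, Finset.mul_sum, card_inp]
  have h4 : ∀ π : J × B → Perm U, (Fintype.card U).factorial ^ Fintype.card (J × B) ≤
      (Fintype.card U) ^ (2 * D * Fintype.card (J × B)) *
        ∏ κ, (avoidSet (forb E π κ)).card := by
    intro π
    calc (Fintype.card U).factorial ^ Fintype.card (J × B)
        = ∏ _κ : J × B, (Fintype.card U).factorial := by
          rw [Finset.prod_const, Finset.card_univ]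
      _ ≤ ∏ κ : J × B, ((Fintype.card U) ^ (2 * D) * (avoidSet (forb E π κ)).card) :=
          Finset.prod_le_prod' fun κ _ => avoid_bound _ D (fun u => hrow π κ u)
            (fun v => hcol π κ v) h2
      _ = _ := by
          rw [Finset.prod_mul_distrib, Finset.prod_const, Finset.card_univ, ← pow_mul]
  calc (Fintype.card U).factorial ^ Fintype.card (J × B) *
        (Fintype.card U).factorial ^ Fintype.card (J × B)
      = ∑ _π : J × B → Perm U, (Fintype.card U).factorial ^ Fintype.card (J × B) := by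
        rw [Finset.sum_const, Finset.card_univ, Fintype.card_fun, Fintype.card_perm, smul_eq_mul]
    _ ≤ _ := Finset.sum_le_sum fun π _ => h4 π

/-- The inequality forced by a machine accepting exactly the triangle-free inputs. -/
theorem machine_ineq [Fintype Q] [DecidableEq Q] (E : B × U → B × U → Prop) (β : ℝ) (hβ : 0 < β)
    (hmix : ∀ V W : Finset (B × U), (∀ x ∈ V, ∀ y ∈ W, ¬ E x y) →
      (V.card : ℝ) * W.card ≤ (β ^ 2 * (Fintype.card B * Fintype.card U)) ^ 2)
    (D : ℕ)
    (hrow : ∀ (π : J × B → Perm U) κ u, ∀ [DecidablePred (forb E π κ u)],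
      (Finset.univ.filter fun v => forb E π κ u v).card ≤ D)
    (hcol : ∀ (π : J × B → Perm U) κ v, ∀ [DecidablePred fun u => forb E π κ u v],
      (Finset.univ.filter fun u => forb E π κ u v).card ≤ D)
    (h2 : 2 * D ≤ Fintype.card U)
    (hU : 0 < Fintype.card U) (hB : 0 < Fintype.card B) (M : AM J B U Q) (T L r : ℕ) (hL : 0 < L)
    (hTr : T ≤ r * L) (h : ℝ) (hh : 1 ≤ h)
    (htot : (T : ℝ) ≤ Fintype.card (J × U) * Fintype.card B * Real.logb 2 h)
    (hpair : (r * L ^ 2 : ℝ) ≤ Fintype.card (J × U) * (Fintype.card B) ^ 2 / (2 * h))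
    (n' d' : ℕ) (hn' : n' = ⌈(Fintype.card (J × U) : ℝ) / (4 * h)⌉₊)
    (hd' : d' = ⌈(Fintype.card B : ℝ) / (4 * h)⌉₊)
    (A0 : ℝ) (hA0 : 0 < A0) (hA01 : A0 ≤ 1)
    (hbig : 2 * β * (Fintype.card J * Fintype.card U * Fintype.card B) ≤
      (n' * d' : ℝ) / 2 * A0)
    (hacc : ∀ z : Inp J B U, (∃ T' ≤ T, ∃ p, M.Run T' z p) ↔ TFree E z.1 z.2) :
    (1 : ℝ) ≤ (Fintype.card U : ℝ) ^ (2 * D * Fintype.card (J × B)) * ((T + 1) *
      ((Fintype.card Q : ℝ) ^ r * 2 ^ r *
      ((Fintype.card ((J × U) × B)).choose (n' * d') : ℝ) ^ 2 *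
      Real.exp ((n' * d' : ℝ) + (n' * d' : ℝ) / 2 * Real.log A0))) := by
  classical
  set X : ℝ := (Fintype.card Q : ℝ) ^ r * 2 ^ r *
      ((Fintype.card ((J × U) × B)).choose (n' * d') : ℝ) ^ 2 *
      Real.exp ((n' * d' : ℝ) + (n' * d' : ℝ) / 2 * Real.log A0) with hX
  have h3 : ∀ T' ∈ Finset.range (T + 1), ((accSet M T').card : ℝ) ≤
      X * Fintype.card (Inp J B U) := by
    intro T' hT'
    rw [Finset.mem_range] at hT'
    have := accept_count E β hβ hmix hU hB M T' L r hL (by omega) h hh
      (le_trans (by exact_mod_cast (by omega : T' ≤ T)) htot) hpair n' d' hn' hd' A0 hA0 hA01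
      hbig (fun z hz => (hacc z).1 ⟨T', by omega, hz⟩)
    rw [hX]
    linarith
  have h4 : tfSet J E ⊆ (Finset.range (T + 1)).biUnion fun T' => accSet M T' := by
    intro z hz
    rw [mem_tfSet] at hz
    obtain ⟨T', hT', hp⟩ := (hacc z).2 hz
    rw [Finset.mem_biUnion]
    exact ⟨T', Finset.mem_range.2 (by omega), mem_accSet.2 hp⟩
  have h5 : ((tfSet J E).card : ℝ) ≤ (T + 1) * (X * Fintype.card (Inp J B U)) := by
    calc ((tfSet J E).card : ℝ) ≤
          (((Finset.range (T + 1)).biUnion fun T' => accSet M T').card : ℝ) := by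
          exact_mod_cast Finset.card_le_card h4
      _ ≤ ∑ T' ∈ Finset.range (T + 1), ((accSet M T').card : ℝ) := by
          exact_mod_cast Finset.card_biUnion_le
      _ ≤ ∑ _T' ∈ Finset.range (T + 1), X * Fintype.card (Inp J B U) := Finset.sum_le_sum h3
      _ = _ := by
          rw [Finset.sum_const, Finset.card_range, nsmul_eq_mul]
          push_cast
          ring
  have h6 : (Fintype.card (Inp J B U) : ℝ) ≤
      (Fintype.card U : ℝ) ^ (2 * D * Fintype.card (J × B)) * (tfSet J E).card := by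
    exact_mod_cast tf_count E D hrow hcol h2
  have hI : (0 : ℝ) < Fintype.card (Inp J B U) := by exact_mod_cast Fintype.card_pos
  have h7 : (Fintype.card (Inp J B U) : ℝ) * 1 ≤ Fintype.card (Inp J B U) *
      ((Fintype.card U : ℝ) ^ (2 * D * Fintype.card (J × B)) * ((T + 1) * X)) := by
    calc (Fintype.card (Inp J B U) : ℝ) * 1 = Fintype.card (Inp J B U) := mul_one _
      _ ≤ _ := h6
      _ ≤ (Fintype.card U : ℝ) ^ (2 * D * Fintype.card (J × B)) *
          ((T + 1) * (X * Fintype.card (Inp J B U))) :=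
          mul_le_mul_of_nonneg_left h5 (by positivity)
      _ = _ := by ring
  exact le_of_mul_le_mul_left h7 hI

end Pool.Agent.TS
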