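import Mathlib

/-!
# Expander mixing for Cayley sum graphs of finite abelian groups, and the family of directions
`(1, t, t ^ 2, …)` over a prime field.
-/

namespace Pool.Agent.TS

open Finset AddChar

section General

variable {G : Type} [AddCommGroup G] [Fintype G] [DecidableEq G]

lemma parseval (W : Finset G) :
    ∑ ψ : AddChar G ℂ, ‖∑ y ∈ W, ψ y‖ ^ 2 = (Fintype.card G : ℝ) * W.card := by
  have h : ∀ ψ : AddChar G ℂ, ((‖∑ y ∈ W, ψ y‖ ^ 2 : ℝ) : ℂ) =
      ∑ y ∈ W, ∑ y' ∈ W, ψ (y - y') := by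
    intro ψ
    rw [Complex.ofReal_pow, ← Complex.conj_mul', map_sum, mul_comm, Finset.sum_mul_sum]
    refine Finset.sum_congr rfl fun y _ => Finset.sum_congr rfl fun y' _ => ?_
    rw [sub_eq_add_neg, AddChar.map_add_eq_mul, AddChar.map_neg_eq_conj]
  have h2 : ((∑ ψ : AddChar G ℂ, ‖∑ y ∈ W, ψ y‖ ^ 2 : ℝ) : ℂ) =
      (((Fintype.card G : ℝ) * W.card : ℝ) : ℂ) := by
    push_cast
    simp_rw [← Complex.ofReal_pow, h]
    rw [Finset.sum_comm]
    simp_rw [Finset.sum_comm (s := (Finset.univ : Finset (AddChar G ℂ)))]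
    have : ∀ y ∈ W, ∑ y' ∈ W, ∑ ψ : AddChar G ℂ, ψ (y - y') = Fintype.card G := by
      intro y hy
      simp_rw [AddChar.sum_apply_eq_ite, sub_eq_zero]
      rw [Finset.sum_ite_eq]
      simp [hy]
    rw [Finset.sum_congr rfl this]
    simp [mul_comm]
  exact_mod_cast h2

/-- If no `y ∈ W` is of the form `x + g k` with `x ∈ V` then `|V| |W|` is small. -/
lemma mixing {K : Type} [Fintype K] (g : K → G) (lam : ℝ) (hlam : 0 ≤ lam)
    (hg : ∀ ψ : AddChar G ℂ, ψ ≠ 0 → ‖∑ k, ψ (g k)‖ ≤ lam) (V W : Finset G)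
    (hVW : ∀ x ∈ V, ∀ y ∈ W, ∀ k, y ≠ x + g k) :
    (V.card : ℝ) * W.card * (Fintype.card K) ^ 2 ≤ (lam * Fintype.card G) ^ 2 := by
  set fV : AddChar G ℂ → ℂ := fun ψ => ∑ x ∈ V, ψ x with hfV
  set fW : AddChar G ℂ → ℂ := fun ψ => ∑ y ∈ W, ψ y with hfW
  set fS : AddChar G ℂ → ℂ := fun ψ => ∑ k, ψ (g k) with hfS
  have hzero : ∑ ψ : AddChar G ℂ, fW ψ * (starRingEnd ℂ) (fV ψ) * (starRingEnd ℂ) (fS ψ) = 0 := by
    have h1 : ∀ ψ : AddChar G ℂ, fW ψ * (starRingEnd ℂ) (fV ψ) * (starRingEnd ℂ) (fS ψ) =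
        ∑ y ∈ W, ∑ x ∈ V, ∑ k, ψ (y - x - g k) := by
      intro ψ
      simp only [hfV, hfW, hfS, map_sum]
      rw [Finset.sum_mul_sum, Finset.sum_mul]
      refine Finset.sum_congr rfl fun y _ => ?_
      rw [Finset.sum_mul_sum]
      refine Finset.sum_congr rfl fun x _ => Finset.sum_congr rfl fun k _ => ?_
      rw [sub_eq_add_neg, sub_eq_add_neg, AddChar.map_add_eq_mul, AddChar.map_add_eq_mul,
        AddChar.map_neg_eq_conj, AddChar.map_neg_eq_conj]
    simp_rw [h1]
    rw [Finset.sum_comm]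
    refine Finset.sum_eq_zero fun y hy => ?_
    rw [Finset.sum_comm]
    refine Finset.sum_eq_zero fun x hx => ?_
    rw [Finset.sum_comm]
    refine Finset.sum_eq_zero fun k _ => ?_
    rw [AddChar.sum_apply_eq_ite, if_neg]
    intro h
    apply hVW x hx y hy k
    rw [sub_eq_zero, sub_eq_iff_eq_add'] at h
    rw [h]
  rw [← Finset.add_sum_erase _ _ (Finset.mem_univ (0 : AddChar G ℂ))] at hzero
  have h0 : fW 0 * (starRingEnd ℂ) (fV 0) * (starRingEnd ℂ) (fS 0) =
      ((W.card : ℝ) * V.card * Fintype.card K : ℝ) := by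
    simp [hfV, hfW, hfS]
  rw [h0] at hzero
  have hle : (W.card : ℝ) * V.card * Fintype.card K ≤
      lam * ∑ ψ : AddChar G ℂ, ‖fW ψ‖ * ‖fV ψ‖ := by
    have h2 : ‖(((W.card : ℝ) * V.card * Fintype.card K : ℝ) : ℂ)‖ =
        ‖∑ ψ ∈ (Finset.univ : Finset (AddChar G ℂ)).erase 0,
          fW ψ * (starRingEnd ℂ) (fV ψ) * (starRingEnd ℂ) (fS ψ)‖ := by
      rw [eq_neg_of_add_eq_zero_left hzero, norm_neg]
    rw [Complex.norm_real, Real.norm_of_nonneg (by positivity)] at h2
    rw [h2, Finset.mul_sum]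
    refine (norm_sum_le _ _).trans ?_
    refine (Finset.sum_le_sum (f := fun ψ => ‖fW ψ * (starRingEnd ℂ) (fV ψ) *
      (starRingEnd ℂ) (fS ψ)‖) (g := fun ψ => lam * (‖fW ψ‖ * ‖fV ψ‖)) ?_).trans ?_
    · intro ψ hψ
      have := hg ψ (Finset.ne_of_mem_erase hψ)
      rw [norm_mul, norm_mul, RCLike.norm_conj, RCLike.norm_conj, mul_comm lam]
      exact mul_le_mul_of_nonneg_left this (by positivity)
    · exact Finset.sum_le_sum_of_subset_of_nonneg (Finset.erase_subset _ _)
        fun ψ _ _ => by positivity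
  have hcs : (∑ ψ : AddChar G ℂ, ‖fW ψ‖ * ‖fV ψ‖) ^ 2 ≤
      ((Fintype.card G : ℝ) * W.card) * ((Fintype.card G : ℝ) * V.card) := by
    rw [← parseval W, ← parseval V]
    exact Finset.sum_mul_sq_le_sq_mul_sq _ _ _
  rcases eq_or_lt_of_le (show (0 : ℝ) ≤ (V.card : ℝ) * W.card by positivity) with h | h
  · rw [← h]; simp only [zero_mul]; positivity
  · have h3 : ((W.card : ℝ) * V.card * Fintype.card K) ^ 2 ≤
        lam ^ 2 * (((Fintype.card G : ℝ) * W.card) * ((Fintype.card G : ℝ) * V.card)) := by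
      calc ((W.card : ℝ) * V.card * Fintype.card K) ^ 2
          ≤ (lam * ∑ ψ : AddChar G ℂ, ‖fW ψ‖ * ‖fV ψ‖) ^ 2 := by
            apply pow_le_pow_left₀ (by positivity) hle
        _ = lam ^ 2 * (∑ ψ : AddChar G ℂ, ‖fW ψ‖ * ‖fV ψ‖) ^ 2 := by ring
        _ ≤ _ := mul_le_mul_of_nonneg_left hcs (by positivity)
    have h4 : ((V.card : ℝ) * W.card) * (((V.card : ℝ) * W.card) * (Fintype.card K) ^ 2) ≤
        ((V.card : ℝ) * W.card) * (lam * Fintype.card G) ^ 2 := by
      calc _ = ((W.card : ℝ) * V.card * Fintype.card K) ^ 2 := by ring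
        _ ≤ _ := h3
        _ = _ := by ring
    exact le_of_mul_le_mul_left h4 h

end General

section Directions

variable (q : ℕ) [Fact q.Prime] (a : ℕ)

/-- The block coordinates. -/
abbrev Blk : Type := Fin a → ZMod q

/-- The inner coordinates. -/
abbrev Inn : Type := Fin 3 → ZMod q

variable {q a}

/-- The direction `(1, t, t ^ 2, …, t ^ (a + 2))`, split into the first `a` and the last three
coordinates. -/
def dir (t : ZMod q) : Blk q a × Inn q := (fun i => t ^ (i : ℕ), fun i => t ^ (a + (i : ℕ)))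

/-- The parameters of the generators. -/
abbrev Gen (q : ℕ) [Fact q.Prime] : Type := {s : ZMod q // s ≠ 0} × ZMod q

/-- The generators. -/
def gen (k : Gen q) : Blk q a × Inn q := k.1.1 • dir k.2

lemma dual_dir (f : (Blk q a × Inn q) →ₗ[ZMod q] ZMod q) (hf : f ≠ 0) :
    (Finset.univ.filter fun t : ZMod q => f (dir t) = 0).card ≤ a + 2 := by
  classical
  set α : Fin a → ZMod q := fun i => f (Pi.single i 1, 0) with hα
  set β : Fin 3 → ZMod q := fun i => f (0, Pi.single i 1) with hβ
  set P : Polynomial (ZMod q) := (∑ i : Fin a, Polynomial.monomial (i : ℕ) (α i)) +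
    ∑ i : Fin 3, Polynomial.monomial (a + (i : ℕ)) (β i) with hP
  have hexp : ∀ v : Blk q a × Inn q, f v = (∑ i, v.1 i * α i) + ∑ i, v.2 i * β i := by
    intro v
    have h1 : v = (∑ i, v.1 i • ((Pi.single i 1, 0) : Blk q a × Inn q)) +
        ∑ i, v.2 i • ((0, Pi.single i 1) : Blk q a × Inn q) := by
      ext i
      · simp [Finset.sum_apply, Prod.fst_sum, Pi.single_apply]
      · simp [Finset.sum_apply, Prod.snd_sum, Pi.single_apply]
    conv_lhs => rw [h1]
    rw [map_add, map_sum, map_sum]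
    simp only [map_smul, smul_eq_mul, hα, hβ]
  have heval : ∀ t, P.eval t = f (dir t) := by
    intro t
    rw [hexp, hP]
    simp only [Polynomial.eval_add, Polynomial.eval_finsetSum, Polynomial.eval_monomial, dir]
    congr 1 <;> exact Finset.sum_congr rfl fun i _ => mul_comm _ _
  have hdeg : P.natDegree ≤ a + 2 := by
    rw [hP]
    refine (Polynomial.natDegree_add_le _ _).trans (max_le ?_ ?_)
    · refine Polynomial.natDegree_sum_le_of_forall_le _ _ fun i _ => ?_
      refine (Polynomial.natDegree_monomial_le _).trans ?_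
      have := i.2; omega
    · refine Polynomial.natDegree_sum_le_of_forall_le _ _ fun i _ => ?_
      refine (Polynomial.natDegree_monomial_le _).trans ?_
      have := i.2; omega
  have hP0 : P ≠ 0 := by
    intro h0
    apply hf
    have hc : ∀ k, P.coeff k = 0 := by intro k; rw [h0]; simp
    have hcoef : ∀ k, P.coeff k = (∑ i : Fin a, if (i : ℕ) = k then α i else 0) +
        ∑ i : Fin 3, if a + (i : ℕ) = k then β i else 0 := by
      intro k
      rw [hP]
      simp only [Polynomial.coeff_add, Polynomial.finsetSum_coeff, Polynomial.coeff_monomial]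
    have ha : ∀ i, α i = 0 := by
      intro i
      have := hc (i : ℕ)
      rw [hcoef] at this
      rw [Finset.sum_eq_single i, if_pos rfl, Finset.sum_eq_zero, add_zero] at this
      · exact this
      · intro j _
        rw [if_neg]
        have := i.2; omega
      · intro j _ hj
        rw [if_neg]
        intro h; exact hj (Fin.ext h)
      · intro h; exact absurd (Finset.mem_univ _) h
    have hb : ∀ i, β i = 0 := by
      intro i
      have := hc (a + (i : ℕ))
      rw [hcoef] at this
      rw [Finset.sum_eq_zero, zero_add, Finset.sum_eq_single i, if_pos rfl] at this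
      · exact this
      · intro j _ hj
        rw [if_neg]
        intro h; exact hj (Fin.ext (by omega))
      · intro h; exact absurd (Finset.mem_univ _) h
      · intro j _
        rw [if_neg]
        have := j.2; omega
    ext v
    · simp [hexp, ha, hb]
    · simp [hexp, ha, hb]
  calc (Finset.univ.filter fun t : ZMod q => f (dir t) = 0).card ≤ P.roots.toFinset.card := by
        refine Finset.card_le_card fun t ht => ?_
        rw [Multiset.mem_toFinset, Polynomial.mem_roots hP0, Polynomial.IsRoot, heval]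
        exact (Finset.mem_filter.1 ht).2
    _ ≤ P.natDegree := (Multiset.toFinset_card_le _).trans (Polynomial.card_roots' P)
    _ ≤ a + 2 := hdeg

/-- A nontrivial character has small sum over the generators. -/
lemma char_sum_gen (ψ : AddChar (Blk q a × Inn q) ℂ) (hψ : ψ ≠ 0) :
    ‖∑ k : Gen q, ψ (gen k)‖ ≤ (a + 2) * q := by
  classical
  have hq : (1 : ℝ) ≤ q := by exact_mod_cast (Fact.out : q.Prime).one_le
  -- the subspace on which the character is trivial along lines
  let L : Submodule (ZMod q) (Blk q a × Inn q) :=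
    { carrier := {v | ∀ s : ZMod q, ψ (s • v) = 1}
      add_mem' := by
        intro v w hv hw s
        rw [smul_add, AddChar.map_add_eq_mul, hv s, hw s, mul_one]
      zero_mem' := by intro s; simp
      smul_mem' := by
        intro c v hv s
        rw [smul_smul]; exact hv _ }
  have hL : L < ⊤ := by
    rw [lt_top_iff_ne_top]
    intro h
    apply hψ
    ext v
    have : v ∈ L := by rw [h]; exact Submodule.mem_top
    have := this 1
    rw [one_smul] at this
    rw [this]; simp
  obtain ⟨f, hf0, hf⟩ := Submodule.exists_le_ker_of_lt_top L hL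
  have hline : ∀ t : ZMod q, ∑ s : {s : ZMod q // s ≠ 0}, ψ (s.1 • dir t) =
      (if dir t ∈ L then (q : ℂ) else 0) - 1 := by
    intro t
    have h1 : ∑ s : ZMod q, ψ (s • dir t) = if dir t ∈ L then (q : ℂ) else 0 := by
      let χ : AddChar (ZMod q) ℂ :=
        { toFun := fun s => ψ (s • dir t)
          map_zero_eq_one' := by simp
          map_add_eq_mul' := by
            intro x y
            rw [add_smul, AddChar.map_add_eq_mul] }
      split_ifs with h
      · have : ∀ s : ZMod q, ψ (s • dir t) = 1 := h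
        simp [this, ZMod.card]
      · have hχ : χ ≠ 1 := by
          intro hχ
          apply h
          intro s
          have := DFunLike.congr_fun hχ s
          simpa [χ] using this
        exact AddChar.sum_eq_zero_of_ne_one hχ
    have h2 : ∑ s : {s : ZMod q // s ≠ 0}, ψ (s.1 • dir t) =
        ∑ s ∈ (Finset.univ : Finset (ZMod q)).erase 0, ψ (s • dir t) :=
      (Finset.sum_subtype _ (fun x => by simp) (fun s => ψ (s • dir t))).symm
    rw [h2, Finset.sum_erase_eq_sub (Finset.mem_univ 0), h1]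
    simp
  have hsum : ∑ k : Gen q, ψ (gen k) =
      ((q : ℂ) * ((Finset.univ.filter fun t : ZMod q => dir t ∈ L).card : ℂ)) - q := by
    rw [Fintype.sum_prod_type_right]
    simp only [gen]
    simp_rw [hline]
    rw [Finset.sum_sub_distrib, Finset.sum_ite]
    simp [ZMod.card, mul_comm]
  have hcard : (Finset.univ.filter fun t : ZMod q => dir t ∈ L).card ≤ a + 2 := by
    refine (Finset.card_le_card fun t ht => ?_).trans (dual_dir f hf0)
    rw [Finset.mem_filter] at ht ⊢
    exact ⟨ht.1, hf ht.2⟩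
  rw [hsum]
  set N := (Finset.univ.filter fun t : ZMod q => dir t ∈ L).card with hN
  have : (q : ℂ) * (N : ℂ) - q = (((q : ℝ) * ((N : ℝ) - 1) : ℝ) : ℂ) := by push_cast; ring
  rw [this, Complex.norm_real, Real.norm_eq_abs, abs_le]
  have hN' : (N : ℝ) ≤ a + 2 := by exact_mod_cast hcard
  have hN0 : (0 : ℝ) ≤ N := by positivity
  constructor <;> nlinarith

/-- The fixed bipartite graph between two copies of `Blk q a × Inn q`. -/
def E0 (x y : Blk q a × Inn q) : Prop := ∃ k : Gen q, y = x + gen k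

lemma card_gen : Fintype.card (Gen q) = (q - 1) * q := by
  classical
  rw [Fintype.card_prod, Fintype.card_subtype_compl, ZMod.card]
  simp

/-- Mixing for the fixed graph. -/
lemma E0_mixing (V W : Finset (Blk q a × Inn q))
    (h : ∀ x ∈ V, ∀ y ∈ W, ¬ E0 x y) :
    (V.card : ℝ) * W.card ≤ ((a + 2) / (q - 1) * (q : ℝ) ^ (a + 3)) ^ 2 := by
  classical
  have hq : 2 ≤ q := (Fact.out : q.Prime).two_le
  have hq' : (2 : ℝ) ≤ q := by exact_mod_cast hq
  have := mixing (fun k : Gen q => (gen k : Blk q a × Inn q)) ((a + 2) * q) (by positivity)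
    (fun ψ hψ => char_sum_gen ψ hψ) V W (fun x hx y hy k hk => h x hx y hy ⟨k, hk⟩)
  rw [card_gen] at this
  have hG : (Fintype.card (Blk q a × Inn q) : ℝ) = (q : ℝ) ^ (a + 3) := by
    simp [ZMod.card, pow_add]
  rw [hG] at this
  have h1 : (((q - 1 : ℕ) * q : ℕ) : ℝ) = ((q : ℝ) - 1) * q := by
    push_cast [Nat.cast_sub (show 1 ≤ q by omega)]; ring
  rw [h1] at this
  have h2 : (0 : ℝ) < ((q : ℝ) - 1) * q := by
    apply mul_pos <;> linarith
  rw [← le_div_iff₀ (by positivity)] at this
  refine this.trans (le_of_eq ?_)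
  have h3 : (q : ℝ) - 1 ≠ 0 := by linarith
  have h4 : (q : ℝ) ≠ 0 := by linarith
  field_simp

end Directions

end Pool.Agent.TS
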