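import Mathlib
import Pool.Agent.Lib_helper21.TS.Bound
import Pool.Agent.Lib_helper21.TS.Mix

/-!
# The finite form of the lower bound for machines reading permutations
-/

namespace Pool.Agent.TS

open Finset Equiv

section Degrees

variable {q : ℕ} [Fact q.Prime] {a : ℕ} {J : Type} [Fintype J] [DecidableEq J]

lemma forb_row (π : J × Blk q a → Perm (Inn q)) (κ : J × Blk q a) (u : Inn q)
    [DecidablePred (forb (E0 (q := q) (a := a)) π κ u)] :
    (Finset.univ.filter fun v => forb (E0 (q := q) (a := a)) π κ u v).card ≤ (q - 1) * q := by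
  classical
  rw [← card_gen (q := q), ← Finset.card_univ]
  refine (Finset.card_le_card (t := (Finset.univ : Finset (Gen q)).image fun k =>
    π (κ.1, κ.2 - (gen (a := a) k).1) u + (gen (a := a) k).2) ?_).trans Finset.card_image_le
  intro v hv
  obtain ⟨b, k, hk⟩ := (Finset.mem_filter.1 hv).2
  rw [Finset.mem_image]
  refine ⟨k, Finset.mem_univ _, ?_⟩
  have h1 := congrArg Prod.fst hk
  have h2 := congrArg Prod.snd hk
  simp only [Prod.fst_add, Prod.snd_add] at h1 h2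
  rw [h2, h1, add_sub_cancel_right]

lemma forb_col (π : J × Blk q a → Perm (Inn q)) (κ : J × Blk q a) (v : Inn q)
    [DecidablePred fun u => forb (E0 (q := q) (a := a)) π κ u v] :
    (Finset.univ.filter fun u => forb (E0 (q := q) (a := a)) π κ u v).card ≤ (q - 1) * q := by
  classical
  rw [← card_gen (q := q), ← Finset.card_univ]
  refine (Finset.card_le_card (t := (Finset.univ : Finset (Gen q)).image fun k =>
    (π (κ.1, κ.2 - (gen (a := a) k).1)).symm (v - (gen (a := a) k).2)) ?_).trans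
      Finset.card_image_le
  intro u hu
  obtain ⟨b, k, hk⟩ := (Finset.mem_filter.1 hu).2
  rw [Finset.mem_image]
  refine ⟨k, Finset.mem_univ _, ?_⟩
  have h1 := congrArg Prod.fst hk
  have h2 := congrArg Prod.snd hk
  simp only [Prod.fst_add, Prod.snd_add] at h1 h2
  rw [h2, h1, add_sub_cancel_right, add_sub_cancel_right, Equiv.symm_apply_apply]

end Degrees

lemma choose_le_exp (N m : ℕ) (c : ℝ) (hc : 0 < c) (hm : (N : ℝ) ≤ c * m) :
    (N.choose m : ℝ) ≤ Real.exp (m + m * Real.log c) := by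
  have h1 : (N.choose m : ℝ) ≤ (N : ℝ) ^ m / m.factorial := Nat.choose_le_pow_div m N
  have h2 := pow_le_exp_mul_factorial m
  have h3 : (0 : ℝ) < m.factorial := by positivity
  calc (N.choose m : ℝ) ≤ (N : ℝ) ^ m / m.factorial := h1
    _ ≤ (c * m) ^ m / m.factorial := by gcongr
    _ = c ^ m * ((m : ℝ) ^ m / m.factorial) := by rw [mul_pow, mul_div_assoc]
    _ ≤ c ^ m * Real.exp m := by
        apply mul_le_mul_of_nonneg_left _ (by positivity)
        rw [div_le_iff₀ h3]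
        exact h2
    _ = Real.exp (m + m * Real.log c) := by
        rw [Real.exp_add, mul_comm (m : ℝ) (Real.log c), ← Real.rpow_def_of_pos hc,
          Real.rpow_natCast, mul_comm]

lemma log_le_two_sqrt (x : ℝ) (hx : 0 < x) : Real.log x ≤ 2 * Real.sqrt x := by
  have h1 : Real.log x = 2 * Real.log (Real.sqrt x) := by
    rw [Real.log_sqrt hx.le]; ring
  rw [h1]
  have := Real.log_le_sub_one_of_pos (Real.sqrt_pos.2 hx)
  linarith

/-- The constant needed for the size of `q`. -/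
def bigK : ℕ := 2 ^ 44 * 3 ^ 16

theorem no_machine (q : ℕ) [Fact q.Prime] (a : ℕ) (ha : 1 ≤ a) (h : ℕ) (hh : 1 ≤ h)
    (hq : (a + 2) * bigK * h ^ 20 + 1 ≤ q) {Q : Type} [Fintype Q] [DecidableEq Q]
    (M : AM (ZMod q × ZMod q) (Blk q a) (Inn q) Q) (T : ℕ)
    (hT : (T : ℝ) ≤ (q : ℝ) ^ (a + 5) * Real.logb 2 h)
    (hQ : Real.log (2 * Fintype.card Q) ≤ (q : ℝ) ^ a / (1024 * h ^ 5))
    (hacc : ∀ z : Inp (ZMod q × ZMod q) (Blk q a) (Inn q),
      (∃ T' ≤ T, ∃ p, M.Run T' z p) ↔ TFree E0 z.1 z.2) : False := by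
  classical
  have hh' : (1 : ℝ) ≤ h := by exact_mod_cast hh
  have hh0 : (0 : ℝ) < h := by linarith
  have hqN : (a + 2) * bigK * h ^ 20 + 1 ≤ q := hq
  have hqR : ((a : ℝ) + 2) * (2 ^ 44 * 3 ^ 16) * (h : ℝ) ^ 20 + 1 ≤ q := by
    have h1 : (((a + 2) * bigK * h ^ 20 + 1 : ℕ) : ℝ) ≤ q := Nat.cast_le.2 hqN
    have h2 : ((bigK : ℕ) : ℝ) = 2 ^ 44 * 3 ^ 16 := by rw [bigK]; push_cast; norm_num
    rw [Nat.cast_add, Nat.cast_mul, Nat.cast_mul, Nat.cast_add, Nat.cast_pow, h2] at h1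
    simpa using h1
  have haR : (1 : ℝ) ≤ a := by exact_mod_cast ha
  have hpow20 : (1 : ℝ) ≤ (h : ℝ) ^ 20 := one_le_pow₀ hh'
  have hqbig : (2 : ℝ) ^ 44 * 3 ^ 16 * (h : ℝ) ^ 20 ≤ q := by
    have : (2 : ℝ) ^ 44 * 3 ^ 16 * (h : ℝ) ^ 20 ≤ ((a : ℝ) + 2) * (2 ^ 44 * 3 ^ 16) * (h : ℝ) ^ 20 := by
      have h1 : (0 : ℝ) ≤ (2 ^ 44 * 3 ^ 16) * (h : ℝ) ^ 20 := by positivity
      nlinarith
    linarith
  have hq1 : (1 : ℝ) < q := by
    have : (1 : ℝ) < (2 : ℝ) ^ 44 * 3 ^ 16 := by norm_num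
    nlinarith
  have hq0 : (0 : ℝ) < q := by linarith
  have hqN0 : 0 < q := by exact_mod_cast hq0
  -- cardinalities
  have cJ : Fintype.card (ZMod q × ZMod q) = q ^ 2 := by
    rw [Fintype.card_prod, ZMod.card]; ring
  have cB : Fintype.card (Blk q a) = q ^ a := by simp [ZMod.card]
  have cU : Fintype.card (Inn q) = q ^ 3 := by simp [ZMod.card]
  have cI : Fintype.card ((ZMod q × ZMod q) × Inn q) = q ^ 5 := by
    rw [Fintype.card_prod, cJ, cU]; ring
  have cK : Fintype.card ((ZMod q × ZMod q) × Blk q a) = q ^ (a + 2) := by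
    rw [Fintype.card_prod, cJ, cB]; ring
  have cE : Fintype.card (((ZMod q × ZMod q) × Inn q) × Blk q a) = q ^ (a + 5) := by
    rw [Fintype.card_prod, cI, cB]; ring
  -- parameters
  set β : ℝ := Real.sqrt ((a + 2) / (q - 1)) with hβ
  have hq1' : (0 : ℝ) < (q : ℝ) - 1 := by linarith
  have hβ2 : β ^ 2 = (a + 2) / (q - 1) := Real.sq_sqrt (by positivity)
  have hβ0 : 0 < β := Real.sqrt_pos.2 (by positivity)
  set A0 : ℝ := 64 * h ^ 2 * β with hA0
  have hA00 : 0 < A0 := by positivity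
  have hA0le : A0 ≤ Real.exp (-8) / (16 * h ^ 2) ^ 4 := by
    have h1 : 0 ≤ Real.exp (-8) / (16 * (h : ℝ) ^ 2) ^ 4 := by positivity
    rw [← Real.sqrt_sq hA00.le, ← Real.sqrt_sq h1]
    apply Real.sqrt_le_sqrt
    rw [hA0, mul_pow, hβ2, div_pow, ← Real.exp_nat_mul]
    have h2 : Real.exp (((2 : ℕ) : ℝ) * -8) = (Real.exp 1 ^ 16)⁻¹ := by
      rw [← Real.exp_nat_mul, ← Real.exp_neg]; norm_num
    rw [h2]
    have h3 : Real.exp 1 ^ 16 ≤ 3 ^ 16 := by
      apply pow_le_pow_left₀ (Real.exp_pos _).le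
      have := Real.exp_one_lt_d9
      linarith
    have h4 : (0 : ℝ) < Real.exp 1 ^ 16 := by positivity
    rw [← mul_div_assoc, div_le_div_iff₀ hq1' (by positivity)]
    have h5 : ((3 : ℝ) ^ 16)⁻¹ ≤ (Real.exp 1 ^ 16)⁻¹ := inv_anti₀ h4 h3
    calc (64 * (h : ℝ) ^ 2) ^ 2 * (a + 2) * ((16 * (h : ℝ) ^ 2) ^ 4) ^ 2
        = ((3 : ℝ) ^ 16)⁻¹ * ((a + 2) * (2 ^ 44 * 3 ^ 16) * (h : ℝ) ^ 20) := by
          field_simp
          ring
      _ ≤ (Real.exp 1 ^ 16)⁻¹ * ((q : ℝ) - 1) :=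
          mul_le_mul h5 (by linarith) (by positivity) (by positivity)
  have h16 : (0 : ℝ) < 16 * (h : ℝ) ^ 2 := by positivity
  have hlogA0 : Real.log A0 ≤ -(8 + 4 * Real.log (16 * h ^ 2)) := by
    have h1 := Real.log_le_log hA00 hA0le
    rw [Real.log_div (Real.exp_pos _).ne' (by positivity), Real.log_exp, Real.log_pow] at h1
    push_cast at h1
    linarith
  have hlog16 : 0 ≤ Real.log (16 * (h : ℝ) ^ 2) := by
    apply Real.log_nonneg
    nlinarith [one_le_pow₀ hh' (n := 2)]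
  have hA01 : A0 ≤ 1 := by
    by_contra hcon
    push Not at hcon
    have := Real.log_pos hcon
    linarith
  set n' := ⌈(Fintype.card ((ZMod q × ZMod q) × Inn q) : ℝ) / (4 * h)⌉₊ with hn'
  set d' := ⌈(Fintype.card (Blk q a) : ℝ) / (4 * h)⌉₊ with hd'
  have hn'ge : (q : ℝ) ^ 5 / (4 * h) ≤ n' := by
    have := Nat.le_ceil ((Fintype.card ((ZMod q × ZMod q) × Inn q) : ℝ) / (4 * h))
    rw [← hn', cI] at this
    push_cast at this
    exact this
  have hd'ge : (q : ℝ) ^ a / (4 * h) ≤ d' := by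
    have := Nat.le_ceil ((Fintype.card (Blk q a) : ℝ) / (4 * h))
    rw [← hd', cB] at this
    push_cast at this
    exact this
  have hm : (q : ℝ) ^ (a + 5) ≤ (16 * h ^ 2) * ((n' * d' : ℕ) : ℝ) := by
    have h1 : (q : ℝ) ^ 5 / (4 * h) * ((q : ℝ) ^ a / (4 * h)) ≤ (n' : ℝ) * d' :=
      mul_le_mul hn'ge hd'ge (by positivity) (by positivity)
    have h2 : (q : ℝ) ^ 5 / (4 * h) * ((q : ℝ) ^ a / (4 * h)) = (q : ℝ) ^ (a + 5) / (16 * h ^ 2) := by
      rw [pow_add]; field_simp; ring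
    rw [h2, div_le_iff₀ h16] at h1
    push_cast
    linarith
  set m : ℝ := ((n' * d' : ℕ) : ℝ) with hmdef
  have hm' : (n' : ℝ) * d' = m := by rw [hmdef]; push_cast; ring
  -- segments
  set r : ℕ := 8 * h ^ 3 * q ^ 5 with hr
  set L : ℕ := q ^ a / (4 * h ^ 2) with hL
  have hqa : (8 * h ^ 2 : ℕ) ≤ q ^ a := by
    have h1 : q ≤ q ^ a := Nat.le_self_pow (by omega) q
    have h2 : 8 * h ^ 2 ≤ (a + 2) * bigK * h ^ 20 := by
      have h3 : h ^ 2 ≤ h ^ 20 := Nat.pow_le_pow_right (by omega) (by norm_num)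
      have h4 : 8 ≤ (a + 2) * bigK := by
        have : 8 ≤ bigK := by norm_num [bigK]
        nlinarith
      exact Nat.mul_le_mul h4 h3
    omega
  have hL0 : 0 < L := by
    rw [hL]
    apply Nat.div_pos _ (by positivity)
    calc 4 * h ^ 2 ≤ 8 * h ^ 2 := by omega
      _ ≤ _ := hqa
  have hLle : (L : ℝ) ≤ (q : ℝ) ^ a / (4 * h ^ 2) := by
    rw [hL]
    have := @Nat.cast_div_le ℝ _ _ _ (q ^ a) (4 * h ^ 2)
    push_cast at this ⊢
    exact this
  have hLge : (q : ℝ) ^ a / (8 * h ^ 2) ≤ L := by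
    have h1 : q ^ a < (L + 1) * (4 * h ^ 2) := by
      rw [hL]
      have := Nat.lt_div_mul_add (a := q ^ a) (b := 4 * h ^ 2) (by positivity)
      rw [add_mul, one_mul]; exact this
    have h2 : ((q ^ a : ℕ) : ℝ) < ((L + 1) * (4 * h ^ 2) : ℕ) := by exact_mod_cast h1
    push_cast at h2
    have h3 : (1 : ℝ) ≤ L := by exact_mod_cast hL0
    rw [div_le_iff₀ (by positivity)]
    nlinarith [mul_le_mul_of_nonneg_right h3 (show (0 : ℝ) ≤ 4 * (h : ℝ) ^ 2 by positivity)]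
  have hlogb : Real.logb 2 h ≤ h := by
    rw [Real.logb, div_le_iff₀ (Real.log_pos (by norm_num))]
    have h1 := Real.log_le_sub_one_of_pos (show (0 : ℝ) < h / 2 by positivity)
    rw [Real.log_div hh0.ne' (by norm_num)] at h1
    have h2 : Real.log 2 > 0.6931471803 := Real.log_two_gt_d9
    have h3 : Real.log 2 < 0.6931471808 := Real.log_two_lt_d9
    nlinarith
  have hT2 : (T : ℝ) ≤ h * (q : ℝ) ^ (a + 5) := by
    have : (0 : ℝ) ≤ (q : ℝ) ^ (a + 5) := by positivity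
    nlinarith
  have hTr : T ≤ r * L := by
    have h1 : (T : ℝ) ≤ ((r * L : ℕ) : ℝ) := by
      rw [hr]
      push_cast
      calc (T : ℝ) ≤ h * (q : ℝ) ^ (a + 5) := hT2
        _ = 8 * (h : ℝ) ^ 3 * (q : ℝ) ^ 5 * ((q : ℝ) ^ a / (8 * h ^ 2)) := by
            rw [pow_add]; field_simp
        _ ≤ _ := mul_le_mul_of_nonneg_left hLge (by positivity)
    exact_mod_cast h1
  have htot : (T : ℝ) ≤ Fintype.card ((ZMod q × ZMod q) × Inn q) * Fintype.card (Blk q a) *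
      Real.logb 2 h := by
    rw [cI, cB]
    push_cast
    calc (T : ℝ) ≤ _ := hT
      _ = _ := by rw [pow_add]; ring
  have hpair : (r * L ^ 2 : ℝ) ≤ Fintype.card ((ZMod q × ZMod q) × Inn q) *
      (Fintype.card (Blk q a)) ^ 2 / (2 * h) := by
    rw [cI, cB, hr]
    push_cast
    calc 8 * (h : ℝ) ^ 3 * (q : ℝ) ^ 5 * (L : ℝ) ^ 2
        ≤ 8 * (h : ℝ) ^ 3 * (q : ℝ) ^ 5 * ((q : ℝ) ^ a / (4 * h ^ 2)) ^ 2 := by gcongr
      _ = _ := by field_simp; ring
  have hbig : 2 * β * (Fintype.card (ZMod q × ZMod q) * Fintype.card (Inn q) *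
      Fintype.card (Blk q a)) ≤ (n' * d' : ℝ) / 2 * A0 := by
    rw [cJ, cU, cB, hm', hA0]
    push_cast
    calc 2 * β * ((q : ℝ) ^ 2 * (q : ℝ) ^ 3 * (q : ℝ) ^ a) = 2 * β * (q : ℝ) ^ (a + 5) := by
          rw [pow_add]; ring
      _ ≤ 2 * β * ((16 * h ^ 2) * m) := mul_le_mul_of_nonneg_left hm (by positivity)
      _ = _ := by ring
  have hmixq : ∀ V W : Finset (Blk q a × Inn q), (∀ x ∈ V, ∀ y ∈ W, ¬ E0 x y) →
      (V.card : ℝ) * W.card ≤ (β ^ 2 * (Fintype.card (Blk q a) * Fintype.card (Inn q))) ^ 2 := by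
    intro V W hVW
    have := E0_mixing V W hVW
    rw [hβ2, cB, cU]
    push_cast
    rw [← pow_add]
    exact this
  have h2D : 2 * ((q - 1) * q) ≤ Fintype.card (Inn q) := by
    rw [cU]
    have hq2 : 2 ≤ q := (Fact.out : q.Prime).two_le
    have h1 : q - 1 ≤ q := Nat.sub_le _ _
    calc 2 * ((q - 1) * q) ≤ q * (q * q) := Nat.mul_le_mul hq2 (Nat.mul_le_mul_right _ h1)
      _ = q ^ 3 := by ring
  have key := machine_ineq (Q := Q) (E0 (q := q) (a := a)) β hβ0 hmixq ((q - 1) * q)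
    (fun π κ u _ => forb_row π κ u) (fun π κ v _ => forb_col π κ v) h2D
    (by rw [cU]; exact pow_pos hqN0 _) (by rw [cB]; exact pow_pos hqN0 _) M T L r hL0 hTr h hh' htot hpair n' d' hn'
    hd' A0 hA00 hA01 hbig hacc
  rw [cE, cK, cU, hm'] at key
  -- bounds of the factors
  have e1 : ((q ^ 3 : ℕ) : ℝ) ^ (2 * ((q - 1) * q) * q ^ (a + 2)) ≤
      Real.exp (6 * (q : ℝ) ^ (a + 4) * Real.log q) := by
    have h1 : ((q ^ 3 : ℕ) : ℝ) ^ (2 * ((q - 1) * q) * q ^ (a + 2)) =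
        Real.exp (((3 * (2 * ((q - 1) * q) * q ^ (a + 2)) : ℕ) : ℝ) * Real.log q) := by
      rw [Real.exp_nat_mul, Real.exp_log hq0]
      push_cast
      rw [← pow_mul]
    rw [h1]
    apply Real.exp_le_exp.2
    apply mul_le_mul_of_nonneg_right _ (Real.log_nonneg hq1.le)
    have h2 : 3 * (2 * ((q - 1) * q) * q ^ (a + 2)) ≤ 6 * q ^ (a + 4) := by
      have h3 : (q - 1) * q ≤ q * q := Nat.mul_le_mul_right _ (Nat.sub_le _ _)
      calc 3 * (2 * ((q - 1) * q) * q ^ (a + 2)) ≤ 3 * (2 * (q * q) * q ^ (a + 2)) := by gcongr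
        _ = _ := by ring
    exact_mod_cast h2
  have e2 : (T : ℝ) + 1 ≤ Real.exp (Real.log (T + 1)) := by
    rw [Real.exp_log (by positivity)]
  have hQpos : 0 < Fintype.card Q := by
    by_contra hcon
    have h0 : Fintype.card Q = 0 := by omega
    have hr0 : r ≠ 0 := by
      rw [hr]
      have := pow_pos hqN0 5
      positivity
    rw [h0] at key
    simp only [Nat.cast_zero, zero_pow hr0, zero_mul, mul_zero] at key
    linarith
  have hQpos' : (0 : ℝ) < Fintype.card Q := by exact_mod_cast hQpos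
  have e3 : (Fintype.card Q : ℝ) ^ r * 2 ^ r ≤
      Real.exp ((q : ℝ) ^ (a + 5) / (128 * h ^ 2)) := by
    have h1 : (Fintype.card Q : ℝ) ^ r * 2 ^ r = Real.exp (r * Real.log (2 * Fintype.card Q)) := by
      rw [Real.exp_nat_mul, Real.exp_log (by positivity), mul_pow, mul_comm]
    rw [h1]
    apply Real.exp_le_exp.2
    calc (r : ℝ) * Real.log (2 * Fintype.card Q) ≤ r * ((q : ℝ) ^ a / (1024 * h ^ 5)) :=
          mul_le_mul_of_nonneg_left hQ (by positivity)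
      _ = _ := by
          rw [hr]
          push_cast
          rw [pow_add]
          field_simp
          ring
  have e4 : ((q ^ (a + 5)).choose (n' * d') : ℝ) ^ 2 ≤
      Real.exp (2 * (m + m * Real.log (16 * h ^ 2))) := by
    have h1 := choose_le_exp (q ^ (a + 5)) (n' * d') (16 * h ^ 2) h16
      (by rw [Nat.cast_pow]; exact hm)
    have h2 : Real.exp (2 * (m + m * Real.log (16 * h ^ 2))) =
        (Real.exp (m + m * Real.log (16 * h ^ 2))) ^ 2 := by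
      rw [← Real.exp_nat_mul]; norm_num
    rw [h2]
    exact pow_le_pow_left₀ (by positivity) h1 2
  have hm0 : 0 < m := by
    have h1 : (0 : ℝ) < (q : ℝ) ^ (a + 5) := by positivity
    by_contra hcon
    push Not at hcon
    nlinarith
  have e5 : Real.exp (m + m / 2 * Real.log A0) ≤
      Real.exp (m + m / 2 * (-(8 + 4 * Real.log (16 * h ^ 2)))) := by
    apply Real.exp_le_exp.2
    have := mul_le_mul_of_nonneg_left hlogA0 (show 0 ≤ m / 2 by positivity)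
    linarith
  have hprod : ((q ^ 3 : ℕ) : ℝ) ^ (2 * ((q - 1) * q) * q ^ (a + 2)) * ((T + 1) *
      ((Fintype.card Q : ℝ) ^ r * 2 ^ r * ((q ^ (a + 5)).choose (n' * d') : ℝ) ^ 2 *
      Real.exp (m + m / 2 * Real.log A0))) ≤
      Real.exp (6 * (q : ℝ) ^ (a + 4) * Real.log q) * (Real.exp (Real.log (T + 1)) *
      (Real.exp ((q : ℝ) ^ (a + 5) / (128 * h ^ 2)) *
        Real.exp (2 * (m + m * Real.log (16 * h ^ 2))) *
        Real.exp (m + m / 2 * (-(8 + 4 * Real.log (16 * h ^ 2)))))) := by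
    gcongr
  have hfin := key.trans hprod
  rw [← Real.exp_add, ← Real.exp_add, ← Real.exp_add, ← Real.exp_add, Real.one_le_exp_iff] at hfin
  -- the exponent is negative
  have hexp : 6 * (q : ℝ) ^ (a + 4) * Real.log q + (Real.log (T + 1) +
      ((q : ℝ) ^ (a + 5) / (128 * h ^ 2) + 2 * (m + m * Real.log (16 * h ^ 2)) +
      (m + m / 2 * (-(8 + 4 * Real.log (16 * h ^ 2)))))) =
      6 * (q : ℝ) ^ (a + 4) * Real.log q + Real.log (T + 1) +
      (q : ℝ) ^ (a + 5) / (128 * h ^ 2) - m := by ring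
  rw [hexp] at hfin
  have hm2 : (q : ℝ) ^ (a + 5) / (16 * h ^ 2) ≤ m := by
    rw [div_le_iff₀ h16]; linarith
  have hsq : (0 : ℝ) ≤ Real.sqrt q := Real.sqrt_nonneg _
  have hsqge : 768 * (h : ℝ) ^ 2 ≤ Real.sqrt q := by
    apply Real.le_sqrt_of_sq_le
    have h1 : (h : ℝ) ^ 4 ≤ (h : ℝ) ^ 20 := pow_le_pow_right₀ hh' (by norm_num)
    calc (768 * (h : ℝ) ^ 2) ^ 2 = 768 ^ 2 * (h : ℝ) ^ 4 := by ring
      _ ≤ 2 ^ 44 * 3 ^ 16 * (h : ℝ) ^ 20 := by
          apply mul_le_mul _ h1 (by positivity) (by positivity)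
          norm_num
      _ ≤ q := hqbig
  have f1 : 6 * (q : ℝ) ^ (a + 4) * Real.log q ≤ (q : ℝ) ^ (a + 5) / (64 * h ^ 2) := by
    rw [le_div_iff₀ (by positivity)]
    have h1 := log_le_two_sqrt q hq0
    have h2 : Real.sqrt q * Real.sqrt q = q := Real.mul_self_sqrt hq0.le
    calc 6 * (q : ℝ) ^ (a + 4) * Real.log q * (64 * h ^ 2)
        ≤ 6 * (q : ℝ) ^ (a + 4) * (2 * Real.sqrt q) * (64 * h ^ 2) := by gcongr
      _ = (q : ℝ) ^ (a + 4) * (Real.sqrt q * (768 * (h : ℝ) ^ 2)) := by ring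
      _ ≤ (q : ℝ) ^ (a + 4) * (Real.sqrt q * Real.sqrt q) := by gcongr
      _ = (q : ℝ) ^ (a + 5) := by rw [h2]; ring
  have f2 : Real.log (T + 1) ≤ (q : ℝ) ^ (a + 5) / (64 * h ^ 2) := by
    set y : ℝ := (q : ℝ) ^ (a + 5) with hy
    have hy1 : (q : ℝ) ≤ y := by
      rw [hy]; exact le_self_pow₀ hq1.le (by omega)
    have hy0 : 0 < y := by positivity
    have h1 : (T : ℝ) + 1 ≤ 2 * h * y := by nlinarith
    have h2 := log_le_two_sqrt (2 * h * y) (by positivity)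
    have h3 := Real.log_le_log (show (0 : ℝ) < (T : ℝ) + 1 by positivity) h1
    refine (h3.trans h2).trans ?_
    rw [le_div_iff₀ (by positivity)]
    have h4 : 2 * Real.sqrt (2 * h * y) * (64 * h ^ 2) = 128 * h ^ 2 * Real.sqrt (2 * h * y) := by
      ring
    rw [h4]
    have h5 : 128 * (h : ℝ) ^ 2 * Real.sqrt (2 * h * y) = Real.sqrt ((128 * h ^ 2) ^ 2 * (2 * h * y)) := by
      rw [Real.sqrt_mul (show (0 : ℝ) ≤ (128 * (h : ℝ) ^ 2) ^ 2 by positivity) (2 * h * y),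
        Real.sqrt_sq (show (0 : ℝ) ≤ 128 * (h : ℝ) ^ 2 by positivity)]
    have h8 : y = Real.sqrt (y ^ 2) := (Real.sqrt_sq hy0.le).symm
    rw [h5, h8]
    apply Real.sqrt_le_sqrt
    rw [← h8]
    have h6 : (h : ℝ) ^ 5 ≤ (h : ℝ) ^ 20 := pow_le_pow_right₀ hh' (by norm_num)
    have h7 : (128 : ℝ) ^ 2 * 2 * (h : ℝ) ^ 5 ≤ y := by
      calc (128 : ℝ) ^ 2 * 2 * (h : ℝ) ^ 5 ≤ 2 ^ 44 * 3 ^ 16 * (h : ℝ) ^ 20 := by
            apply mul_le_mul _ h6 (by positivity) (by positivity)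
            norm_num
        _ ≤ (q : ℝ) := hqbig
        _ ≤ y := hy1
    calc (128 * (h : ℝ) ^ 2) ^ 2 * (2 * h * y) = ((128 : ℝ) ^ 2 * 2 * (h : ℝ) ^ 5) * y := by ring
      _ ≤ y * y := mul_le_mul_of_nonneg_right h7 hy0.le
      _ = y ^ 2 := by ring
  have hfin2 : (q : ℝ) ^ (a + 5) / (64 * h ^ 2) + (q : ℝ) ^ (a + 5) / (64 * h ^ 2) +
      (q : ℝ) ^ (a + 5) / (128 * h ^ 2) < (q : ℝ) ^ (a + 5) / (16 * h ^ 2) := by
    have h1 : (0 : ℝ) < (q : ℝ) ^ (a + 5) / (128 * h ^ 2) := by positivity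
    have h2 : (q : ℝ) ^ (a + 5) / (64 * h ^ 2) = 2 * ((q : ℝ) ^ (a + 5) / (128 * h ^ 2)) := by
      field_simp; norm_num
    have h3 : (q : ℝ) ^ (a + 5) / (16 * h ^ 2) = 8 * ((q : ℝ) ^ (a + 5) / (128 * h ^ 2)) := by
      field_simp; norm_num
    rw [h2, h3]
    linarith
  linarith

end Pool.Agent.TS
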