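import Mathlib
import Pool.Agent.Lib_helper21.TS.Defs
import Pool.Agent.Lib_helper21.TS.Core

/-!
# The hard graphs
-/

namespace Pool.Agent.TS

open Finset Equiv

/-- Vertices: centres, `X`-vertices, `Y`-vertices, padding. -/
abbrev Vx (J B U : Type) (pad : ℕ) : Type := (J × U) ⊕ ((B × U) ⊕ ((B × U) ⊕ Fin pad))

section Abs

variable {J B U : Type} {pad : ℕ}

/-- Adjacency. -/
def adjV (E : B × U → B × U → Prop) (z : Inp J B U) : Vx J B U pad → Vx J B U pad → Prop
  | .inl (j, u), .inr (.inl (b, v)) => z.1 (j, b) u = v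
  | .inr (.inl (b, v)), .inl (j, u) => z.1 (j, b) u = v
  | .inl (j, u), .inr (.inr (.inl (b, v))) => z.2 (j, b) u = v
  | .inr (.inr (.inl (b, v))), .inl (j, u) => z.2 (j, b) u = v
  | .inr (.inl x), .inr (.inr (.inl y)) => E x y
  | .inr (.inr (.inl y)), .inr (.inl x) => E x y
  | _, _ => False

lemma adjV_symm (E : B × U → B × U → Prop) (z : Inp J B U) (x y : Vx J B U pad)
    (h : adjV E z x y) : adjV E z y x := by
  rcases x with ⟨j, u⟩ | ⟨b, v⟩ | ⟨b, v⟩ | i <;> rcases y with ⟨j', u'⟩ | ⟨b', v'⟩ | ⟨b', v'⟩ | i' <;>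
    simp only [adjV] at h ⊢ <;> exact h

lemma adjV_irrefl (E : B × U → B × U → Prop) (z : Inp J B U) (x : Vx J B U pad) :
    ¬ adjV E z x x := by
  rcases x with ⟨j, u⟩ | ⟨b, v⟩ | ⟨b, v⟩ | i <;> simp [adjV]

lemma tri_adjV (E : B × U → B × U → Prop) (z : Inp J B U) (x y w : Vx J B U pad)
    (h1 : adjV E z x y) (h2 : adjV E z x w) (h3 : adjV E z y w) : ¬ TFree E z.1 z.2 := by
  intro hT
  rcases x with ⟨j, u⟩ | ⟨b, v⟩ | ⟨b, v⟩ | i <;>
    rcases y with ⟨j', u'⟩ | ⟨b', v'⟩ | ⟨b', v'⟩ | i' <;>
      simp only [adjV] at h1 <;>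
        rcases w with ⟨j'', u''⟩ | ⟨b'', v''⟩ | ⟨b'', v''⟩ | i'' <;>
          simp only [adjV] at h2 h3
  · subst h1 h2; exact hT _ _ _ _ h3
  · subst h1 h2; exact hT _ _ _ _ h3
  · subst h1 h3; exact hT _ _ _ _ h2
  · subst h2 h3; exact hT _ _ _ _ h1
  · subst h1 h3; exact hT _ _ _ _ h2
  · subst h2 h3; exact hT _ _ _ _ h1

end Abs

section Enc

variable {J B U : Type} {t d w pad : ℕ} (eJ : J ≃ Fin t) (eB : B ≃ Fin d) (eU : U ≃ Fin w)

/-- The numbering of the vertices. -/
def enc (pad : ℕ) : Vx J B U pad ≃ Fin (t * w + (d * w + (d * w + pad))) :=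
  (Equiv.sumCongr ((Equiv.prodCongr eJ eU).trans finProdFinEquiv)
    ((Equiv.sumCongr ((Equiv.prodCongr eB eU).trans finProdFinEquiv)
      ((Equiv.sumCongr ((Equiv.prodCongr eB eU).trans finProdFinEquiv) (Equiv.refl _)).trans
        finSumFinEquiv)).trans finSumFinEquiv)).trans finSumFinEquiv

lemma enc_cen (j : J) (u : U) :
    ((enc eJ eB eU pad (.inl (j, u))) : ℕ) = eU u + w * eJ j := by
  simp [enc, finProdFinEquiv]

lemma enc_x (b : B) (u : U) :
    ((enc eJ eB eU pad (.inr (.inl (b, u)))) : ℕ) = t * w + (eU u + w * eB b) := by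
  simp [enc, finProdFinEquiv]

lemma enc_y (b : B) (u : U) :
    ((enc eJ eB eU pad (.inr (.inr (.inl (b, u))))) : ℕ) =
      t * w + (d * w + (eU u + w * eB b)) := by
  simp [enc, finProdFinEquiv]

lemma blk_lt {k k' u u' w : ℕ} (hk : k < k') (hu : u < w) : u + w * k < u' + w * k' := by
  have : w * (k + 1) ≤ w * k' := Nat.mul_le_mul_left _ hk
  rw [Nat.mul_add] at this
  omega

lemma blk_lt_tot {k t u w : ℕ} (hk : k < t) (hu : u < w) : u + w * k < t * w := by
  have : w * (k + 1) ≤ w * t := Nat.mul_le_mul_left _ hk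
  rw [Nat.mul_add, mul_comm w t] at this
  omega

lemma enc_lt_cen {j j' : J} (u u' : U) (h : eJ j < eJ j') :
    enc eJ eB eU pad (.inl (j, u)) < enc eJ eB eU pad (.inl (j', u')) := by
  rw [Fin.lt_def, enc_cen, enc_cen]
  exact blk_lt h (eU u).2

lemma enc_lt_x {b b' : B} (u u' : U) (h : eB b < eB b') :
    enc eJ eB eU pad (.inr (.inl (b, u))) < enc eJ eB eU pad (.inr (.inl (b', u'))) := by
  rw [Fin.lt_def, enc_x, enc_x]
  have := blk_lt (u' := eU u') (show (eB b : ℕ) < eB b' from h) (eU u).2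
  omega

lemma enc_lt_y {b b' : B} (u u' : U) (h : eB b < eB b') :
    enc eJ eB eU pad (.inr (.inr (.inl (b, u)))) <
      enc eJ eB eU pad (.inr (.inr (.inl (b', u')))) := by
  rw [Fin.lt_def, enc_y, enc_y]
  have := blk_lt (u' := eU u') (show (eB b : ℕ) < eB b' from h) (eU u).2
  omega

lemma enc_cen_lt_x (j : J) (u : U) (b : B) (v : U) :
    enc eJ eB eU pad (.inl (j, u)) < enc eJ eB eU pad (.inr (.inl (b, v))) := by
  rw [Fin.lt_def, enc_cen, enc_x]
  have := blk_lt_tot (eJ j).2 (eU u).2
  omega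

lemma enc_cen_lt_y (j : J) (u : U) (b : B) (v : U) :
    enc eJ eB eU pad (.inl (j, u)) < enc eJ eB eU pad (.inr (.inr (.inl (b, v)))) := by
  rw [Fin.lt_def, enc_cen, enc_y]
  have := blk_lt_tot (eJ j).2 (eU u).2
  omega

lemma enc_x_lt_y (b : B) (u : U) (b' : B) (v : U) :
    enc eJ eB eU pad (.inr (.inl (b, u))) < enc eJ eB eU pad (.inr (.inr (.inl (b', v)))) := by
  rw [Fin.lt_def, enc_x, enc_y]
  have := blk_lt_tot (eB b).2 (eU u).2
  omega

/-- The hard graph of an input. -/
def theGraph (pad : ℕ) (E : B × U → B × U → Prop) (z : Inp J B U) :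
    SimpleGraph (Fin (t * w + (d * w + (d * w + pad)))) where
  Adj x y := adjV E z ((enc eJ eB eU pad).symm x) ((enc eJ eB eU pad).symm y)
  symm := ⟨fun _ _ h => adjV_symm E z _ _ h⟩
  loopless := ⟨fun _ h => adjV_irrefl E z _ h⟩

lemma graph_adj (E : B × U → B × U → Prop) (z : Inp J B U) (x y : Vx J B U pad) :
    (theGraph eJ eB eU pad E z).Adj (enc eJ eB eU pad x) (enc eJ eB eU pad y) ↔
      adjV E z x y := by
  simp [theGraph]

lemma cliqueFree_iff (E : B × U → B × U → Prop) (z : Inp J B U) :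
    (theGraph eJ eB eU pad E z).CliqueFree 3 ↔ TFree E z.1 z.2 := by
  constructor
  · intro h j u b c hE
    apply h {enc eJ eB eU pad (.inl (j, u)), enc eJ eB eU pad (.inr (.inl (b, z.1 (j, b) u))),
      enc eJ eB eU pad (.inr (.inr (.inl (c, z.2 (j, c) u))))}
    rw [SimpleGraph.is3Clique_triple_iff, graph_adj, graph_adj, graph_adj]
    simp [adjV, hE]
  · intro hT s hs
    rw [SimpleGraph.is3Clique_iff] at hs
    obtain ⟨x, y, v, h1, h2, h3, _⟩ := hs
    exact tri_adjV E z _ _ _ h1 h2 h3 hT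

lemma adjList_eq {n : ℕ} (G : SimpleGraph (Fin n)) (v : Fin n) (l : List (Fin n))
    (hs : l.Pairwise (· < ·)) (hm : ∀ u, u ∈ l ↔ G.Adj v u) : adjList G v = l := by
  classical
  unfold adjList
  have h1 : (Finset.univ.filter fun u => G.Adj v u) = l.toFinset := by
    ext u
    simp [hm]
  have h2 : l.Nodup := hs.imp fun h => ne_of_lt h
  have h3 := (List.toFinset_sort (· ≤ ·) h2).2 (hs.imp fun h => le_of_lt h)
  rw [← h3]
  congr 1

/-- The `Y`-neighbours of an `X`-vertex, sorted. -/
noncomputable def fixX (pad : ℕ) (E : B × U → B × U → Prop) (x : B × U) :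
    List (Fin (t * w + (d * w + (d * w + pad)))) := by
  classical
  exact (Finset.univ.filter fun i => ∃ y, enc eJ eB eU pad (.inr (.inr (.inl y))) = i ∧
    E x y).sort (· ≤ ·)

/-- The `X`-neighbours of a `Y`-vertex, sorted. -/
noncomputable def fixY (pad : ℕ) (E : B × U → B × U → Prop) (y : B × U) :
    List (Fin (t * w + (d * w + (d * w + pad)))) := by
  classical
  exact (Finset.univ.filter fun i => ∃ x, enc eJ eB eU pad (.inr (.inl x)) = i ∧
    E x y).sort (· ≤ ·)

lemma mem_fixX (E : B × U → B × U → Prop) (x : B × U) (i) :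
    i ∈ fixX eJ eB eU pad E x ↔ ∃ y, enc eJ eB eU pad (.inr (.inr (.inl y))) = i ∧ E x y := by
  classical
  rw [fixX, Finset.mem_sort, Finset.mem_filter]
  simp only [Finset.mem_univ, true_and]

lemma mem_fixY (E : B × U → B × U → Prop) (y : B × U) (i) :
    i ∈ fixY eJ eB eU pad E y ↔ ∃ x, enc eJ eB eU pad (.inr (.inl x)) = i ∧ E x y := by
  classical
  rw [fixY, Finset.mem_sort, Finset.mem_filter]
  simp only [Finset.mem_univ, true_and]

lemma sorted_fixX (E : B × U → B × U → Prop) (x : B × U) :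
    (fixX eJ eB eU pad E x).Pairwise (· < ·) := by
  classical
  rw [fixX]
  exact (Finset.sortedLT_sort _).pairwise

lemma sorted_fixY (E : B × U → B × U → Prop) (y : B × U) :
    (fixY eJ eB eU pad E y).Pairwise (· < ·) := by
  classical
  rw [fixY]
  exact (Finset.sortedLT_sort _).pairwise

/-- The adjacency lists of the hard graph. -/
noncomputable def lst (pad : ℕ) (E : B × U → B × U → Prop) (z : Inp J B U) :
    Vx J B U pad → List (Fin (t * w + (d * w + (d * w + pad))))
  | .inl (j, u) =>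
      List.ofFn (fun k : Fin d => enc eJ eB eU pad
        (.inr (.inl (eB.symm k, z.1 (j, eB.symm k) u)))) ++
      List.ofFn (fun k : Fin d => enc eJ eB eU pad
        (.inr (.inr (.inl (eB.symm k, z.2 (j, eB.symm k) u)))))
  | .inr (.inl (b, v)) =>
      List.ofFn (fun k : Fin t => enc eJ eB eU pad
        (.inl (eJ.symm k, (z.1 (eJ.symm k, b)).symm v))) ++ fixX eJ eB eU pad E (b, v)
  | .inr (.inr (.inl (b, v))) =>
      List.ofFn (fun k : Fin t => enc eJ eB eU pad
        (.inl (eJ.symm k, (z.2 (eJ.symm k, b)).symm v))) ++ fixY eJ eB eU pad E (b, v)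
  | .inr (.inr (.inr _)) => []

lemma sorted_lst (E : B × U → B × U → Prop) (z : Inp J B U) (x : Vx J B U pad) :
    (lst eJ eB eU pad E z x).Pairwise (· < ·) := by
  rcases x with ⟨j, u⟩ | ⟨b, v⟩ | ⟨b, v⟩ | i
  · rw [lst, List.pairwise_append]
    refine ⟨List.pairwise_ofFn.2 fun k k' h => enc_lt_x _ _ _ _ _ (by simpa using h),
      List.pairwise_ofFn.2 fun k k' h => enc_lt_y _ _ _ _ _ (by simpa using h), ?_⟩
    intro a ha b hb
    rw [List.mem_ofFn] at ha hb
    obtain ⟨k, rfl⟩ := ha
    obtain ⟨k', rfl⟩ := hb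
    exact enc_x_lt_y _ _ _ _ _ _ _
  · rw [lst, List.pairwise_append]
    refine ⟨List.pairwise_ofFn.2 fun k k' h => enc_lt_cen _ _ _ _ _ (by simpa using h),
      sorted_fixX _ _ _ _ _, ?_⟩
    intro a ha b' hb
    rw [List.mem_ofFn] at ha
    rw [mem_fixX] at hb
    obtain ⟨k, rfl⟩ := ha
    obtain ⟨y, rfl, _⟩ := hb
    exact enc_cen_lt_y _ _ _ _ _ _ _
  · rw [lst, List.pairwise_append]
    refine ⟨List.pairwise_ofFn.2 fun k k' h => enc_lt_cen _ _ _ _ _ (by simpa using h),
      sorted_fixY _ _ _ _ _, ?_⟩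
    intro a ha b' hb
    rw [List.mem_ofFn] at ha
    rw [mem_fixY] at hb
    obtain ⟨k, rfl⟩ := ha
    obtain ⟨y, rfl, _⟩ := hb
    exact enc_cen_lt_x _ _ _ _ _ _ _
  · rw [lst]; exact List.Pairwise.nil

lemma mem_lst (E : B × U → B × U → Prop) (z : Inp J B U) (x y : Vx J B U pad) :
    enc eJ eB eU pad y ∈ lst eJ eB eU pad E z x ↔ adjV E z x y := by
  rcases x with ⟨j, u⟩ | ⟨b, v⟩ | ⟨b, v⟩ | i
  · simp only [lst, List.mem_append, List.mem_ofFn, EmbeddingLike.apply_eq_iff_eq]
    rcases y with ⟨j', u'⟩ | ⟨b', v'⟩ | ⟨b', v'⟩ | i'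
    · simp [adjV]
    · simp only [adjV, Sum.inr.injEq, Sum.inl.injEq, Prod.mk.injEq, reduceCtorEq, exists_false,
        or_false]
      constructor
      · rintro ⟨k, rfl, rfl⟩; rfl
      · rintro rfl; exact ⟨eB b', by simp, by simp⟩
    · simp only [adjV, Sum.inr.injEq, Sum.inl.injEq, Prod.mk.injEq, reduceCtorEq, exists_false,
        false_or]
      constructor
      · rintro ⟨k, rfl, rfl⟩; rfl
      · rintro rfl; exact ⟨eB b', by simp, by simp⟩
    · simp [adjV]
  · simp only [lst, List.mem_append, List.mem_ofFn, EmbeddingLike.apply_eq_iff_eq, mem_fixX]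
    rcases y with ⟨j', u'⟩ | ⟨b', v'⟩ | ⟨b', v'⟩ | i'
    · simp only [adjV, Sum.inl.injEq, Prod.mk.injEq, reduceCtorEq, false_and, exists_false,
        or_false]
      constructor
      · rintro ⟨k, rfl, rfl⟩; simp
      · rintro rfl; exact ⟨eJ j', by simp, by simp⟩
    · simp [adjV]
    · simp [adjV]
    · simp [adjV]
  · simp only [lst, List.mem_append, List.mem_ofFn, EmbeddingLike.apply_eq_iff_eq, mem_fixY]
    rcases y with ⟨j', u'⟩ | ⟨b', v'⟩ | ⟨b', v'⟩ | i'
    · simp only [adjV, Sum.inl.injEq, Prod.mk.injEq, reduceCtorEq, false_and, exists_false,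
        or_false]
      constructor
      · rintro ⟨k, rfl, rfl⟩; simp
      · rintro rfl; exact ⟨eJ j', by simp, by simp⟩
    · simp [adjV]
    · simp [adjV]
    · simp [adjV]
  · rcases y with ⟨j', u'⟩ | ⟨b', v'⟩ | ⟨b', v'⟩ | i' <;> simp [lst, adjV]

lemma adjList_graph (E : B × U → B × U → Prop) (z : Inp J B U) (x : Vx J B U pad) :
    adjList (theGraph eJ eB eU pad E z) (enc eJ eB eU pad x) = lst eJ eB eU pad E z x := by
  apply adjList_eq _ _ _ (sorted_lst _ _ _ _ _ _)
  intro y
  obtain ⟨y, rfl⟩ := (enc eJ eB eU pad).surjective y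
  rw [mem_lst, graph_adj]

/-- The permutation entry on which the answer to a question depends. -/
def tr (pad : ℕ) : Query (t * w + (d * w + (d * w + pad))) → Option (PQ J B U)
  | .entry v k =>
    match (enc eJ eB eU pad).symm v with
    | .inl (j, u) =>
        if h : k < d then some (true, (j, eB.symm ⟨k, h⟩), true, u)
        else if h : k - d < d then some (false, (j, eB.symm ⟨k - d, h⟩), true, u) else none
    | .inr (.inl (b, v)) =>
        if h : k < t then some (true, (eJ.symm ⟨k, h⟩, b), false, v) else none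
    | .inr (.inr (.inl (b, v))) =>
        if h : k < t then some (false, (eJ.symm ⟨k, h⟩, b), false, v) else none
    | .inr (.inr (.inr _)) => none
  | .pair u v =>
    match (enc eJ eB eU pad).symm u, (enc eJ eB eU pad).symm v with
    | .inl (j, u), .inr (.inl (b, _)) => some (true, (j, b), true, u)
    | .inr (.inl (b, _)), .inl (j, u) => some (true, (j, b), true, u)
    | .inl (j, u), .inr (.inr (.inl (b, _))) => some (false, (j, b), true, u)
    | .inr (.inr (.inl (b, _))), .inl (j, u) => some (false, (j, b), true, u)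
    | _, _ => none

lemma answer_entry (E : B × U → B × U → Prop) (z z' : Inp J B U) (x : Vx J B U pad) (k : ℕ)
    (h : (tr eJ eB eU pad (.entry (enc eJ eB eU pad x) k)).map (ans z) =
      (tr eJ eB eU pad (.entry (enc eJ eB eU pad x) k)).map (ans z')) :
    (lst eJ eB eU pad E z x)[k]? = (lst eJ eB eU pad E z' x)[k]? := by
  simp only [tr, Equiv.symm_apply_apply] at h
  rcases x with ⟨j, u⟩ | ⟨b, v⟩ | ⟨b, v⟩ | i
  · simp only [lst]
    by_cases hk : k < d
    · rw [List.getElem?_append_left (by simpa using hk), List.getElem?_append_left (by simpa using hk)]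
      rw [List.getElem?_ofFn, List.getElem?_ofFn, dif_pos hk, dif_pos hk]
      simp only [dif_pos hk, Option.map_some, Option.some.injEq, ans, thePerm, if_true] at h
      simp only [h]
    · rw [List.getElem?_append_right (by simpa using hk), List.getElem?_append_right (by simpa using hk)]
      simp only [List.length_ofFn]
      rw [List.getElem?_ofFn, List.getElem?_ofFn]
      by_cases hk' : k - d < d
      · rw [dif_pos hk', dif_pos hk']
        simp only [dif_neg hk, dif_pos hk', Option.map_some, Option.some.injEq, ans, thePerm,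
          if_true, Bool.false_eq_true, if_false] at h
        simp only [h]
      · rw [dif_neg hk', dif_neg hk']
  · simp only [lst]
    by_cases hk : k < t
    · rw [List.getElem?_append_left (by simpa using hk), List.getElem?_append_left (by simpa using hk)]
      rw [List.getElem?_ofFn, List.getElem?_ofFn, dif_pos hk, dif_pos hk]
      simp only [dif_pos hk, Option.map_some, Option.some.injEq, ans, thePerm, if_true,
        Bool.false_eq_true, if_false] at h
      simp only [h]
    · rw [List.getElem?_append_right (by simpa using hk), List.getElem?_append_right (by simpa using hk)]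
      simp only [List.length_ofFn]
  · simp only [lst]
    by_cases hk : k < t
    · rw [List.getElem?_append_left (by simpa using hk), List.getElem?_append_left (by simpa using hk)]
      rw [List.getElem?_ofFn, List.getElem?_ofFn, dif_pos hk, dif_pos hk]
      simp only [dif_pos hk, Option.map_some, Option.some.injEq, ans, thePerm, if_true,
        Bool.false_eq_true, if_false] at h
      simp only [h]
    · rw [List.getElem?_append_right (by simpa using hk), List.getElem?_append_right (by simpa using hk)]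
      simp only [List.length_ofFn]
  · rfl

lemma adjV_pair (E : B × U → B × U → Prop) (z z' : Inp J B U) (x y : Vx J B U pad)
    (h : (tr eJ eB eU pad (.pair (enc eJ eB eU pad x) (enc eJ eB eU pad y))).map (ans z) =
      (tr eJ eB eU pad (.pair (enc eJ eB eU pad x) (enc eJ eB eU pad y))).map (ans z')) :
    adjV E z x y ↔ adjV E z' x y := by
  simp only [tr, Equiv.symm_apply_apply] at h
  rcases x with ⟨j, u⟩ | ⟨b, v⟩ | ⟨b, v⟩ | i <;> rcases y with ⟨j', u'⟩ | ⟨b', v'⟩ | ⟨b', v'⟩ | i' <;>
    simp only [adjV, Option.map_some, Option.some.injEq, ans, thePerm, if_true,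
        Bool.false_eq_true, if_false] at h ⊢ <;> rw [h]

lemma answer_eq (E : B × U → B × U → Prop) (z z' : Inp J B U)
    (q : Query (t * w + (d * w + (d * w + pad))))
    (h : (tr eJ eB eU pad q).map (ans z) = (tr eJ eB eU pad q).map (ans z')) :
    answer (theGraph eJ eB eU pad E z) q = answer (theGraph eJ eB eU pad E z') q := by
  classical
  rcases q with ⟨v, k⟩ | ⟨u, v⟩
  · obtain ⟨x, rfl⟩ := (enc eJ eB eU pad).surjective v
    simp only [answer]
    rw [adjList_graph, adjList_graph]
    exact answer_entry eJ eB eU E z z' x k h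
  · obtain ⟨x, rfl⟩ := (enc eJ eB eU pad).surjective u
    obtain ⟨y, rfl⟩ := (enc eJ eB eU pad).surjective v
    simp only [answer, graph_adj]
    have := adjV_pair eJ eB eU E z z' x y h
    simp only [this]

/-- The machine on inputs induced by a machine on graphs. -/
def toAM {Q : Type} (E : B × U → B × U → Prop)
    (M : Machine (t * w + (d * w + (d * w + pad))) Q) : AM J B U Q where
  start x := x ∈ M.start
  acc x := x ∈ M.acc
  ask i x := tr eJ eB eU pad (M.ask i x)
  step i x a y := ∃ z : Inp J B U, (tr eJ eB eU pad (M.ask i x)).map (ans z) = a ∧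
    y ∈ M.next i x (answer (theGraph eJ eB eU pad E z) (M.ask i x))

lemma accepts_iff {Q : Type} (E : B × U → B × U → Prop)
    (M : Machine (t * w + (d * w + (d * w + pad))) Q) (T : ℕ) (z : Inp J B U) :
    M.Accepts T (theGraph eJ eB eU pad E z) ↔
      ∃ T' ≤ T, ∃ p, (toAM eJ eB eU E M).Run T' z p := by
  unfold Machine.Accepts
  refine exists_congr fun T' => and_congr_right fun _ => exists_congr fun p => ?_
  unfold AM.Run
  refine and_congr Iff.rfl (and_congr (forall_congr' fun i => forall_congr' fun _ => ?_) Iff.rfl)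
  simp only [toAM]
  constructor
  · intro h
    exact ⟨z, rfl, h⟩
  · rintro ⟨z', h1, h2⟩
    rw [answer_eq eJ eB eU E z z' _ h1.symm]
    exact h2

end Enc

end Pool.Agent.TS
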