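import Mathlib
import Pool.Agent.Lib_helper21.TS.Graph
import Pool.Agent.Lib_helper21.TS.Numeric

/-!
# The lower bound for random-access machines on graphs
-/

namespace Pool.Agent.TS

open Finset Equiv

section Deg

variable {J B U : Type} {t d w pad : ℕ} (eJ : J ≃ Fin t) (eB : B ≃ Fin d) (eU : U ≃ Fin w)

/-- The degrees in the hard graphs. -/
noncomputable def dg (pad : ℕ) (E : B × U → B × U → Prop) : Vx J B U pad → ℕ
  | .inl _ => d + d
  | .inr (.inl x) => t + (fixX eJ eB eU pad E x).length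
  | .inr (.inr (.inl y)) => t + (fixY eJ eB eU pad E y).length
  | .inr (.inr (.inr _)) => 0

lemma length_lst (E : B × U → B × U → Prop) (z : Inp J B U) (x : Vx J B U pad) :
    (lst eJ eB eU pad E z x).length = dg eJ eB eU pad E x := by
  rcases x with ⟨j, u⟩ | ⟨b, v⟩ | ⟨b, v⟩ | i <;> simp [lst, dg]

variable [Fintype B] [Fintype U] [DecidableEq B] [DecidableEq U]

lemma length_fixX (E : B × U → B × U → Prop) [DecidableRel E] (x : B × U) :
    (fixX eJ eB eU pad E x).length = (Finset.univ.filter fun y => E x y).card := by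
  classical
  rw [fixX, Finset.length_sort]
  symm
  refine Finset.card_bij (fun y _ => enc eJ eB eU pad (.inr (.inr (.inl y)))) ?_ ?_ ?_
  · intro y hy
    simp only [Finset.mem_filter, Finset.mem_univ, true_and] at hy ⊢
    exact ⟨y, rfl, hy⟩
  · intro y _ y' _ h
    simpa using h
  · intro i hi
    simp only [Finset.mem_filter, Finset.mem_univ, true_and] at hi
    obtain ⟨y, hy, hE⟩ := hi
    exact ⟨y, by simpa using hE, hy⟩

lemma length_fixY (E : B × U → B × U → Prop) [DecidableRel E] (y : B × U) :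
    (fixY eJ eB eU pad E y).length = (Finset.univ.filter fun x => E x y).card := by
  classical
  rw [fixY, Finset.length_sort]
  symm
  refine Finset.card_bij (fun x _ => enc eJ eB eU pad (.inr (.inl x))) ?_ ?_ ?_
  · intro y hy
    simp only [Finset.mem_filter, Finset.mem_univ, true_and] at hy ⊢
    exact ⟨y, rfl, hy⟩
  · intro y _ y' _ h
    simpa using h
  · intro i hi
    simp only [Finset.mem_filter, Finset.mem_univ, true_and] at hi
    obtain ⟨y, hy, hE⟩ := hi
    exact ⟨y, by simpa using hE, hy⟩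

lemma sum_dg [Fintype J] (E : B × U → B × U → Prop) [DecidableRel E] :
    ∑ x : Vx J B U pad, dg eJ eB eU pad E x =
      4 * (Fintype.card J * Fintype.card B * Fintype.card U) +
        2 * (Finset.univ.filter fun p : (B × U) × (B × U) => E p.1 p.2).card := by
  classical
  have ht : Fintype.card J = t := by rw [Fintype.card_congr eJ, Fintype.card_fin]
  have hd : Fintype.card B = d := by rw [Fintype.card_congr eB, Fintype.card_fin]
  simp only [Fintype.sum_sum_type, dg, Finset.sum_add_distrib, Finset.sum_const, Finset.card_univ,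
    Fintype.card_prod, smul_eq_mul, mul_zero, add_zero, length_fixX, length_fixY]
  have h1 : ∑ x : B × U, (Finset.univ.filter fun y => E x y).card =
      (Finset.univ.filter fun p : (B × U) × (B × U) => E p.1 p.2).card := by
    simp only [Finset.card_filter]
    rw [Fintype.sum_prod_type (f := fun p : (B × U) × (B × U) => if E p.1 p.2 then 1 else 0)]
  have h2 : ∑ y : B × U, (Finset.univ.filter fun x => E x y).card =
      (Finset.univ.filter fun p : (B × U) × (B × U) => E p.1 p.2).card := by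
    simp only [Finset.card_filter]
    rw [Fintype.sum_prod_type_right (f := fun p : (B × U) × (B × U) => if E p.1 p.2 then 1 else 0)]
  rw [h1, h2, ← ht, ← hd]
  ring

end Deg

/-- The lower bound for one prime. -/
theorem bound_prime (q : ℕ) [Fact q.Prime] (a : ℕ) (ha : 1 ≤ a) (h : ℕ) (hh : 1 ≤ h)
    (hq : (a + 2) * bigK * h ^ 20 + 1 ≤ q) (s : ℕ) (hs : 6 * q ^ (a + 5) ≤ s) :
    ∃ (n : ℕ) (δ : Fin n → ℕ), 2 * n + ∑ v, δ v = 2 * s ∧
      ∀ (Q : Type) [Fintype Q] (M : Machine n Q) (T : ℕ),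
        Real.log (2 * Fintype.card Q) ≤ (q : ℝ) ^ a / (1024 * h ^ 5) →
        (∀ G : SimpleGraph (Fin n), (∀ v, (adjList G v).length = δ v) →
          (M.Accepts T G ↔ G.CliqueFree 3)) →
        (q : ℝ) ^ (a + 5) * Real.logb 2 h < T := by
  classical
  have hq2 : 2 ≤ q := (Fact.out : q.Prime).two_le
  have cJ : Fintype.card (ZMod q × ZMod q) = q ^ 2 := by
    rw [Fintype.card_prod, ZMod.card]; ring
  have cB : Fintype.card (Blk q a) = q ^ a := by simp [ZMod.card]
  have cU : Fintype.card (Inn q) = q ^ 3 := by simp [ZMod.card]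
  set eJ : (ZMod q × ZMod q) ≃ Fin (q ^ 2) := Fintype.equivFinOfCardEq cJ with heJ
  set eB : Blk q a ≃ Fin (q ^ a) := Fintype.equivFinOfCardEq cB with heB
  set eU : Inn q ≃ Fin (q ^ 3) := Fintype.equivFinOfCardEq cU with heU
  set cE := (Finset.univ.filter fun p : (Blk q a × Inn q) × (Blk q a × Inn q) =>
    E0 p.1 p.2).card with hcE
  have hcEle : cE ≤ q ^ (a + 5) := by
    have h1 : cE = ∑ x : Blk q a × Inn q, (Finset.univ.filter fun y => E0 x y).card := by
      rw [hcE]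
      simp only [Finset.card_filter]
      rw [Fintype.sum_prod_type
        (f := fun p : (Blk q a × Inn q) × (Blk q a × Inn q) => if E0 p.1 p.2 then 1 else 0)]
    have h2 : ∀ x : Blk q a × Inn q, (Finset.univ.filter fun y => E0 x y).card ≤ q ^ 2 := by
      intro x
      have h3 : (Finset.univ.filter fun y => E0 x y) ⊆
          (Finset.univ : Finset (Gen q)).image fun k => x + gen k := by
        intro y hy
        obtain ⟨k, hk⟩ := (Finset.mem_filter.1 hy).2
        exact Finset.mem_image.2 ⟨k, Finset.mem_univ _, hk.symm⟩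
      refine ((Finset.card_le_card h3).trans Finset.card_image_le).trans ?_
      rw [Finset.card_univ, card_gen, sq]
      exact Nat.mul_le_mul_right _ (Nat.sub_le _ _)
    rw [h1]
    calc _ ≤ ∑ _x : Blk q a × Inn q, q ^ 2 := Finset.sum_le_sum fun x _ => h2 x
      _ = q ^ (a + 5) := by
        rw [Finset.sum_const, Finset.card_univ, Fintype.card_prod, cB, cU, smul_eq_mul]
        ring
  set base := q ^ 2 * q ^ 3 + 2 * (q ^ a * q ^ 3) + 2 * (q ^ 2 * q ^ a * q ^ 3) + cE with hbase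
  have hbase_le : base ≤ s := by
    refine le_trans ?_ hs
    have e1 : q ^ 2 * q ^ 3 ≤ q ^ (a + 5) := by
      rw [← pow_add]; exact Nat.pow_le_pow_right (by omega) (by omega)
    have e2 : q ^ a * q ^ 3 ≤ q ^ (a + 5) := by
      rw [← pow_add]; exact Nat.pow_le_pow_right (by omega) (by omega)
    have e3 : q ^ 2 * q ^ a * q ^ 3 = q ^ (a + 5) := by ring
    omega
  set pad := s - base with hpad
  refine ⟨q ^ 2 * q ^ 3 + (q ^ a * q ^ 3 + (q ^ a * q ^ 3 + pad)),
    fun v => dg eJ eB eU pad (E0 (q := q) (a := a)) ((enc eJ eB eU pad).symm v), ?_, ?_⟩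
  · rw [(enc eJ eB eU pad).symm.sum_comp (fun x => dg eJ eB eU pad (E0 (q := q) (a := a)) x),
      sum_dg, cJ, cB, cU, ← hcE]
    omega
  · intro Q _ M T hQ hM
    by_contra hT
    push Not at hT
    apply no_machine q a ha h hh hq (toAM eJ eB eU (E0 (q := q) (a := a)) M) T hT hQ
    intro z
    rw [← accepts_iff, hM, cliqueFree_iff]
    intro v
    obtain ⟨x, rfl⟩ := (enc eJ eB eU pad).surjective v
    rw [adjList_graph, length_lst]
    simp

/-- A constant depending on `a`. -/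
def thr (a : ℕ) : ℕ := 2 * (a + 2) * bigK + 1024 * (6 * 2 ^ (a + 5) + 1) + 2

lemma thr_two (a : ℕ) : 2 ≤ thr a := Nat.le_add_left _ _

lemma thr_K (a : ℕ) : 2 * (a + 2) * bigK ≤ thr a :=
  (Nat.le_add_right _ _).trans (Nat.le_add_right _ _)

lemma thr_C (a : ℕ) : 1024 * (6 * 2 ^ (a + 5) + 1) ≤ thr a :=
  (Nat.le_add_left _ _).trans (Nat.le_add_right _ _)

lemma exists_root (q : ℕ) : ∃ h : ℕ, h ^ 40 ≤ q ∧ q < (h + 1) ^ 40 := by
  refine ⟨Nat.findGreatest (fun k => k ^ 40 ≤ q) q, ?_, ?_⟩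
  · exact Nat.findGreatest_spec (P := fun k => k ^ 40 ≤ q) (m := 0) (Nat.zero_le _) (by simp)
  · by_contra hcon
    push Not at hcon
    have h1 : Nat.findGreatest (fun k => k ^ 40 ≤ q) q + 1 ≤ q :=
      (Nat.le_self_pow (by norm_num) _).trans hcon
    exact Nat.findGreatest_is_greatest (P := fun k => k ^ 40 ≤ q) (Nat.lt_succ_self _) h1 hcon

lemma root_ge (q q0 H0 h : ℕ) (hq0 : ∀ k, k < H0 → (k + 1) ^ 40 ≤ q0) (hq : q0 + 1 < q)
    (hh : q < (h + 1) ^ 40) : H0 ≤ h := by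
  by_contra hcon
  push Not at hcon
  have h1 := hq0 h hcon
  have h2 := hh.trans_le h1
  exact absurd (h2.trans (Nat.lt_succ_self q0)) (not_lt.2 hq.le)

lemma root_log (q h : ℕ) (hq : 0 < q) (hh2 : 2 ≤ h) (hhlt : q < (h + 1) ^ 40) :
    Real.log q ≤ 80 * Real.logb 2 h := by
  have hq0R : (0 : ℝ) < q := by exact_mod_cast hq
  have hh1R : (1 : ℝ) ≤ h := by exact_mod_cast (by omega : 1 ≤ h)
  have h0 : h + 1 ≤ h ^ 2 := by clear hhlt; nlinarith
  have h1 : q ≤ h ^ 80 := by
    calc q ≤ (h + 1) ^ 40 := hhlt.le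
      _ ≤ (h ^ 2) ^ 40 := Nat.pow_le_pow_left h0 _
      _ = h ^ 80 := by rw [← pow_mul]
  clear hhlt
  have h1R : (q : ℝ) ≤ (h : ℝ) ^ 80 := by exact_mod_cast h1
  clear h1
  have h2 := Real.log_le_log hq0R h1R
  rw [Real.log_pow] at h2
  push_cast at h2
  have h3 : Real.log h ≤ Real.logb 2 h := by
    rw [Real.logb, le_div_iff₀ (Real.log_pos (by norm_num))]
    have h4 : Real.log 2 ≤ 1 := by
      have := Real.log_two_lt_d9; linarith
    have h5 : 0 ≤ Real.log h := Real.log_nonneg hh1R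
    nlinarith
  linarith

/-- The asymptotic form. -/
theorem main_bound (ε : ℝ) (hε : 0 < ε) : ∃ c : ℝ, 0 < c ∧ ∃ s₀ : ℕ, ∀ s : ℕ, s₀ ≤ s →
    ∃ (n : ℕ) (δ : Fin n → ℕ), 2 * n + ∑ v, δ v = 2 * s ∧
      ∀ (Q : Type) [Fintype Q] (M : Machine n Q) (T : ℕ),
        Real.logb 2 (Fintype.card Q) ≤ (s : ℝ) ^ (1 - ε) →
        (∀ G : SimpleGraph (Fin n), (∀ v, (adjList G v).length = δ v) →
          (M.Accepts T G ↔ G.CliqueFree 3)) →
        c * s * Real.log s ≤ T := by
  -- parameters depending on ε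
  set ε' : ℝ := min ε 1 with hε'
  have hε'0 : 0 < ε' := lt_min hε one_pos
  have hε'1 : ε' ≤ 1 := min_le_right _ _
  obtain ⟨a, ha⟩ : ∃ a : ℕ, a = ⌈8 / ε'⌉₊ + 3 := ⟨_, rfl⟩
  have ha3 : 3 ≤ a := by omega
  have haε : 8 ≤ ε' * (a + 5) := by
    have h1 : 8 / ε' ≤ ⌈8 / ε'⌉₊ := Nat.le_ceil _
    rw [div_le_iff₀ hε'0] at h1
    have h2 : ((⌈8 / ε'⌉₊ : ℕ) : ℝ) ≤ (a : ℝ) + 5 := by
      rw [ha]; push_cast; linarith
    nlinarith
  obtain ⟨C, hC⟩ : ∃ C : ℝ, C = 6 * 2 ^ (a + 5) := ⟨_, rfl⟩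
  have hC1 : 1 ≤ C := by
    have : (1 : ℝ) ≤ 2 ^ (a + 5) := one_le_pow₀ (by norm_num)
    rw [hC]; linarith
  obtain ⟨H0, hH0⟩ : ∃ H0 : ℕ, H0 = thr a := ⟨_, rfl⟩
  have hH02 : 2 ≤ H0 := by rw [hH0]; exact thr_two a
  obtain ⟨q0, hq0⟩ : ∃ q0 : ℕ, ∀ k, k < H0 → (k + 1) ^ 40 ≤ q0 :=
    ⟨(H0 + 1) ^ 40, fun k hk => Nat.pow_le_pow_left (by omega) _⟩
  refine ⟨1 / (C * 160 * (a + 5)), by positivity,
    max (6 * (2 * (q0 + 1)) ^ (a + 5)) (⌈C ^ 2⌉₊ + 1), ?_⟩
  intro s hs
  have hs1 : 6 * (2 * (q0 + 1)) ^ (a + 5) ≤ s := (le_max_left _ _).trans hs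
  have hs2 : ⌈C ^ 2⌉₊ + 1 ≤ s := (le_max_right _ _).trans hs
  have hsC : C ^ 2 ≤ s := by
    have h1 := Nat.le_ceil (C ^ 2)
    have h2 : ((⌈C ^ 2⌉₊ + 1 : ℕ) : ℝ) ≤ s := by exact_mod_cast hs2
    push_cast at h2
    linarith
  have hs1R : (1 : ℝ) ≤ s := le_trans (one_le_pow₀ hC1) hsC
  have hs0 : (0 : ℝ) < s := lt_of_lt_of_le one_pos hs1R
  -- the root
  set X : ℝ := ((s : ℝ) / 6) ^ (1 / ((a + 5 : ℕ) : ℝ)) with hX
  have ha5 : ((a + 5 : ℕ) : ℝ) ≠ 0 := by positivity
  have hX0 : 0 ≤ X := by positivity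
  have hXpow : X ^ (a + 5) = (s : ℝ) / 6 := by
    rw [hX, ← Real.rpow_natCast, ← Real.rpow_mul (by positivity), one_div,
      inv_mul_cancel₀ ha5, Real.rpow_one]
  have hXge : (2 * (q0 + 1) : ℝ) ≤ X := by
    by_contra hcon
    push Not at hcon
    have h1 := pow_lt_pow_left₀ hcon hX0 (show a + 5 ≠ 0 by omega)
    rw [hXpow] at h1
    have h2 : ((6 * (2 * (q0 + 1)) ^ (a + 5) : ℕ) : ℝ) ≤ s := by exact_mod_cast hs1
    push_cast at h2
    rw [div_lt_iff₀ (by norm_num)] at h1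
    linarith
  obtain ⟨m, hm⟩ : ∃ m : ℕ, m = ⌊X⌋₊ := ⟨_, rfl⟩
  have hmX : (m : ℝ) ≤ X := by rw [hm]; exact Nat.floor_le hX0
  have hXm : X < m + 1 := by rw [hm]; exact Nat.lt_floor_add_one X
  have hm2 : 2 * (q0 + 1) ≤ m := by
    rw [hm]
    apply Nat.le_floor
    push_cast
    exact hXge
  obtain ⟨q, hqp, hq1, hq2⟩ := Nat.exists_prime_lt_and_le_two_mul (m / 2) (by omega)
  have : Fact q.Prime := ⟨hqp⟩
  have hqm : q ≤ m := by omega
  have hqge : q0 + 1 < q := by omega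
  have hqX : (q : ℝ) ≤ X := le_trans (by exact_mod_cast hqm) hmX
  have hqX2 : X ≤ 2 * q := by
    have h1 : m + 1 ≤ 2 * q := by omega
    have h2 : ((m + 1 : ℕ) : ℝ) ≤ ((2 * q : ℕ) : ℝ) := by exact_mod_cast h1
    push_cast at h2
    linarith
  have hq0R : (0 : ℝ) < q := by exact_mod_cast hqp.pos
  have hq1R : (1 : ℝ) < q := by exact_mod_cast hqp.one_lt
  have hsq : 6 * q ^ (a + 5) ≤ s := by
    have h1 : (q : ℝ) ^ (a + 5) ≤ X ^ (a + 5) := pow_le_pow_left₀ hq0R.le hqX _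
    rw [hXpow, le_div_iff₀ (by norm_num)] at h1
    have h2 : ((6 * q ^ (a + 5) : ℕ) : ℝ) ≤ s := by push_cast; linarith
    exact_mod_cast h2
  have hsCq : (s : ℝ) ≤ C * (q : ℝ) ^ (a + 5) := by
    have h1 : X ^ (a + 5) ≤ (2 * q) ^ (a + 5) := pow_le_pow_left₀ hX0 hqX2 _
    rw [hXpow, div_le_iff₀ (by norm_num), mul_pow] at h1
    rw [hC]
    linarith
  -- the integer h
  obtain ⟨h, hhleN, hhltN⟩ := exists_root q
  have hhH0 : H0 ≤ h := root_ge q q0 H0 h hq0 hqge hhltN
  have hh2 : 2 ≤ h := hH02.trans hhH0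
  have hh1R : (1 : ℝ) ≤ h := by exact_mod_cast (by omega : 1 ≤ h)
  have hh2R : (2 : ℝ) ≤ h := by exact_mod_cast hh2
  have hlogh : Real.log q ≤ 80 * Real.logb 2 h := root_log q h hqp.pos hh2 hhltN
  clear hhltN hq0
  have hhle : (h : ℝ) ^ 40 ≤ q := by exact_mod_cast hhleN
  have hqcond : (a + 2) * bigK * h ^ 20 + 1 ≤ q := by
    have h1 : 2 * (a + 2) * bigK ≤ h := by
      refine le_trans ?_ hhH0
      rw [hH0]; exact thr_K a
    have h2 : h ≤ h ^ 20 := Nat.le_self_pow (by norm_num) h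
    have h3 : 2 * ((a + 2) * bigK * h ^ 20) ≤ q := by
      calc 2 * ((a + 2) * bigK * h ^ 20) = (2 * (a + 2) * bigK) * h ^ 20 := by ring
        _ ≤ h ^ 20 * h ^ 20 := Nat.mul_le_mul_right _ (h1.trans h2)
        _ = h ^ 40 := by rw [← pow_add]
        _ ≤ q := hhleN
    have h4 := hqp.two_le
    omega
  obtain ⟨n, δ, hnδ, hmain⟩ := bound_prime q a (by omega) h (by omega) hqcond s hsq
  refine ⟨n, δ, hnδ, fun Q _ M T hQ hM => ?_⟩
  -- the space condition
  have hspace : Real.log (2 * Fintype.card Q) ≤ (q : ℝ) ^ a / (1024 * h ^ 5) := by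
    have hs1e : (s : ℝ) ^ (1 - ε) ≤ (s : ℝ) ^ (1 - ε') :=
      Real.rpow_le_rpow_of_exponent_le hs1R (by have := min_le_left ε 1; linarith)
    have hsbound : (s : ℝ) ^ (1 - ε') ≤ C * (q : ℝ) ^ (a - 3) := by
      have h1 : (s : ℝ) ^ (1 - ε') ≤ (C * (q : ℝ) ^ (a + 5)) ^ (1 - ε') :=
        Real.rpow_le_rpow hs0.le hsCq (by linarith)
      refine h1.trans ?_
      rw [Real.mul_rpow (by positivity) (by positivity)]
      apply mul_le_mul _ _ (by positivity) (by positivity)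
      · calc C ^ (1 - ε') ≤ C ^ (1 : ℝ) :=
            Real.rpow_le_rpow_of_exponent_le hC1 (by linarith)
          _ = C := Real.rpow_one C
      · rw [← Real.rpow_natCast, ← Real.rpow_natCast, ← Real.rpow_mul hq0R.le]
        apply Real.rpow_le_rpow_of_exponent_le hq1R.le
        push_cast [Nat.cast_sub ha3]
        nlinarith
    have hlogQ : Real.log (2 * Fintype.card Q) ≤ 1 + (s : ℝ) ^ (1 - ε) := by
      have h2 : Real.log 2 ≤ 1 := by
        have := Real.log_two_lt_d9; linarith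
      have h20 : 0 < Real.log 2 := Real.log_pos (by norm_num)
      rcases Nat.eq_zero_or_pos (Fintype.card Q) with h0 | h0
      · rw [h0]
        simp only [Nat.cast_zero, mul_zero, Real.log_zero]
        positivity
      · have h3 : (0 : ℝ) < Fintype.card Q := by exact_mod_cast h0
        rw [Real.log_mul (by norm_num) h3.ne']
        have h4 : Real.log (Fintype.card Q) = Real.logb 2 (Fintype.card Q) * Real.log 2 := by
          rw [Real.logb, div_mul_cancel₀ _ h20.ne']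
        have h5 : 0 ≤ Real.logb 2 (Fintype.card Q) :=
          Real.logb_nonneg (by norm_num) (by exact_mod_cast h0)
        rw [h4]
        nlinarith
    refine hlogQ.trans ?_
    rw [le_div_iff₀ (by positivity)]
    have h5 : (h : ℝ) ^ 5 ≤ q := (pow_le_pow_right₀ hh1R (by norm_num)).trans hhle
    have h6 : (1024 * (C + 1) : ℝ) ≤ q := by
      have h7 : 1024 * (6 * 2 ^ (a + 5) + 1) ≤ h := by
        refine le_trans ?_ hhH0
        rw [hH0]; exact thr_C a
      have h8 : h ≤ q := (Nat.le_self_pow (by norm_num) h).trans hhleN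
      have h9 : ((1024 * (6 * 2 ^ (a + 5) + 1) : ℕ) : ℝ) ≤ q := by exact_mod_cast h7.trans h8
      push_cast at h9
      rw [hC]; exact h9
    have h10 : (1 : ℝ) ≤ (q : ℝ) ^ (a - 3) := one_le_pow₀ hq1R.le
    calc (1 + (s : ℝ) ^ (1 - ε)) * (1024 * h ^ 5)
        ≤ ((q : ℝ) ^ (a - 3) + C * (q : ℝ) ^ (a - 3)) * (1024 * q) := by
          apply mul_le_mul _ _ (by positivity) (by positivity)
          · linarith [hs1e.trans hsbound]
          · linarith
      _ = (q : ℝ) ^ (a - 3) * q * (1024 * (C + 1)) := by ring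
      _ ≤ (q : ℝ) ^ (a - 3) * q * q := mul_le_mul_of_nonneg_left h6 (by positivity)
      _ ≤ (q : ℝ) ^ (a - 3) * q * q * q := by
          apply le_mul_of_one_le_right (by positivity) hq1R.le
      _ = (q : ℝ) ^ a := by
          have : (q : ℝ) ^ a = (q : ℝ) ^ (a - 3) * (q : ℝ) ^ 3 := by
            rw [← pow_add]; congr 1; omega
          rw [this]; ring
  have hTlow := hmain Q M T hspace hM
  -- final estimate
  have hlogs : Real.log s ≤ 2 * (a + 5) * Real.log q := by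
    have h1 := Real.log_le_log hs0 hsCq
    rw [Real.log_mul (by positivity) (by positivity), Real.log_pow] at h1
    push_cast at h1
    have h2 := Real.log_le_log (by positivity) hsC
    rw [Real.log_pow] at h2
    push_cast at h2
    linarith
  have hlogq0 : 0 ≤ Real.log q := Real.log_nonneg hq1R.le
  have hlogs0 : 0 ≤ Real.log s := Real.log_nonneg hs1R
  have hcomb : Real.log s ≤ 160 * (a + 5) * Real.logb 2 h := by
    have : (0 : ℝ) ≤ 2 * ((a : ℝ) + 5) := by positivity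
    nlinarith [mul_le_mul_of_nonneg_left hlogh this]
  have hlogb0 : 0 ≤ Real.logb 2 h := Real.logb_nonneg (by norm_num) hh1R
  rw [div_mul_eq_mul_div, one_mul, div_mul_eq_mul_div, div_le_iff₀ (by positivity)]
  calc (s : ℝ) * Real.log s ≤ (C * (q : ℝ) ^ (a + 5)) * (160 * (a + 5) * Real.logb 2 h) :=
        mul_le_mul hsCq hcomb hlogs0 (by positivity)
    _ = ((q : ℝ) ^ (a + 5) * Real.logb 2 h) * (C * 160 * (a + 5)) := by ring
    _ ≤ T * (C * 160 * (a + 5)) := mul_le_mul_of_nonneg_right hTlow.le (by positivity)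

end Pool.Agent.TS
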